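import Pool.Agent.LibLF72.Data

/-!
# Points, curves and surfaces
-/

set_option autoImplicit false

namespace SDCK

universe u v

namespace Cycles

variable {T : Cycles.{u, v}}

theorem Small.facts (h : T.Small) : T.Facts (∅ : Set T.ι) where
  deg := h.deg
  kunneth := fun i hi => absurd hi (Set.notMem_empty i)
  nil := by
    intro n j s M hj _ _
    rcases Nat.eq_zero_or_pos n with h0 | h0
    · subst h0
      exact ⟨1, Subsingleton.elim _ _⟩
    · exact absurd (hj ⟨0, h0⟩) (Set.notMem_empty _)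
  zero := by
    intro i hi k hk
    obtain ⟨c, hc, hR⟩ := h.low i hi k (by omega)
    rw [hk] at hc
    exact ⟨c, hc, hR⟩
  one := by
    intro i hi k hk
    obtain ⟨c, hc, hR⟩ := h.low i hi.le k (by omega)
    rw [hk] at hc
    exact ⟨c, hc, hR⟩

theorem small_lef (h : T.Small) (i : T.ι) (D : Set T.C) (hi : T.dim i ≤ 2) (hD : D.Nonempty)
    (hmem : ∀ L ∈ D, L ∈ T.CH i i (T.dim i + 1)) (hsymm : ∀ L ∈ D, star L = L)
    (hsame : ∀ L ∈ D, ∀ L' ∈ D, T.R L = T.R L')
    (hard : ∀ k : Fin (2 * T.dim i + 1), (k : ℕ) < T.dim i → ∃ M ∈ T.CH i i (k : ℕ), ∀ L ∈ D,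
      T.R M * T.R L ^ (T.dim i - k) * T.π i k = T.π i k) :
    ∃ p, T.IsLef i D p := by
  have hF := h.facts
  obtain ⟨p, hp⟩ := murre2 hF i hi
  have hG := deg_mgr (T := T) i
  have hpm : ∀ k, p k ∈ T.Deg i 0 := fun k => by
    rw [Deg, add_zero]
    exact hp.1.1.1 k
  have hpp : ∀ k, p k * p k = p k := fun k => (hp.1.1.2.1.idem k).eq
  have hππ : ∀ k, T.π i k * T.π i k = T.π i k := fun k => ((T.π_ortho i).idem k).eq
  -- the case of degree 0 to 2 on surfaces
  have hzero : T.dim i = 2 → ∀ z ∈ T.CH i i (T.dim i + 1), T.R z = 0 →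
      ∀ k l : Fin (2 * T.dim i + 1), (k : ℕ) = 0 → (l : ℕ) = 2 → p l * z * p k = 0 := by
    intro hi2 z hz hRz k l hk hl
    refine eq_zero_of_span (AddMonoidHom.mulLeft (p l * z)) ?_ _ (hp.2.1 k hk)
    rintro _ ⟨o, ho, β, hβ, α, -, rfl⟩
    change p l * z * (β * α) = 0
    have ho0 : T.dim o = 0 := by omega
    have h1 : z * β ∈ T.CH o i 1 := by
      have h2 := T.mul_mem hz hβ
      rw [ho0] at h2
      rwa [show (T.dim i : ℤ) + 1 + ((0 : ℕ) : ℤ) - T.dim i = 1 by push_cast; ring] at h2
    have h3 : p l * (z * β) = 0 := by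
      refine h.pic i hi2 (p l) ?_ ?_ o ho0 (z * β) h1 ?_
      · have h4 := hp.1.1.1 l
        rw [hi2] at h4
        exact h4
      · intro m hm
        rw [hp.1.1.2.2.2 l]
        refine (T.π_ortho i).ortho fun h5 => ?_
        rw [h5] at hl
        omega
      · rw [map_mul, hRz, zero_mul]
    have h4 : p l * z * (β * α) = p l * (z * β) * α := by simp only [mul_assoc]
    rw [h4, h3, zero_mul]
  refine ⟨p, hp.1, hD, hmem, hsymm, ?_, ?_, ?_⟩
  · intro L hL k l hkl
    refine van_strict hF hi hi hp hp (hmem L hL) k l ?_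
    push_cast
    omega
  · intro L hL L' hL' k l hkl
    have hz : L - L' ∈ T.CH i i (T.dim i + 1) := Submodule.sub_mem _ (hmem L hL) (hmem L' hL')
    have hRz : T.R (L - L') = 0 := by rw [map_sub, hsame L hL L' hL', sub_self]
    have h0 : p l * (L - L') * p k = 0 := by
      by_cases h2 : T.dim i = 2 ∧ ((k : ℕ) = 2 ∨ (l : ℕ) = 2)
      · rcases h2.2 with h3 | h3
        · have h4 := hzero h2.1 (L - L') hz hRz l.rev k.rev (by rw [Fin.val_rev]; omega)
            (by rw [Fin.val_rev]; omega)
          have h5 := congrArg star h4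
          rw [star_mul, star_mul, hp.1.2, hp.1.2, Fin.rev_rev, Fin.rev_rev, star_sub,
            hsymm L hL, hsymm L' hL', star_zero, ← mul_assoc] at h5
          exact h5
        · exact hzero h2.1 (L - L') hz hRz k l (by omega) h3
      · refine van hF hi hi hp hp hz k l (by push_cast; omega) (Or.inr ⟨?_, ?_⟩) ?_
        · rintro ⟨h3, h4⟩
          exact h2 ⟨h3, Or.inl h4⟩
        · rintro ⟨h3, h4⟩
          exact h2 ⟨h3, Or.inr h4⟩
        · rw [map_mul, map_mul, hRz, mul_zero, zero_mul]
    rw [mul_sub, sub_mul, sub_eq_zero] at h0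
    exact h0
  · intro k hk
    rcases hk.lt_or_eq with hk | hk
    · obtain ⟨M, hM, hML⟩ := hard k hk
      refine ⟨M, hM, fun L hL => ?_⟩
      set m : ℕ := T.dim i - k with hm
      have hMd : M ∈ T.Deg i (-(m : ℤ)) := by
        rw [Deg, show (T.dim i : ℤ) + -(m : ℤ) = (k : ℕ) by omega]
        exact hM
      have hLd : L ∈ T.Deg i 1 := hmem L hL
      have h1 : L ^ m * p k ∈ T.Deg i m := by
        have h2 := hG.pow hLd m (hpm k)
        rwa [mul_one, add_zero] at h2
      have h2 : T.R (L ^ m * p k) = T.π i k.rev * T.R (L ^ m * p k) := by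
        have h3 : T.R (L ^ m * p k) = ∑ l, T.π i l * T.R (L ^ m * p k) * T.π i k := by
          rw [← Finset.sum_mul, ← Finset.sum_mul, T.π_sum, ← map_mul, hG.left h1]
          rw [map_mul, hp.1.1.2.2.2 k, mul_assoc, hππ]
        have h4 : T.R (L ^ m * p k) * T.π i k = T.R (L ^ m * p k) := by
          rw [map_mul, hp.1.1.2.2.2 k, mul_assoc, hππ]
        conv_lhs => rw [h3]
        rw [Finset.sum_eq_single k.rev]
        · rw [mul_assoc, h4]
        · intro l _ hl
          refine h.deg h1 k l ?_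
          intro h5
          apply hl
          ext
          rw [Fin.val_rev]
          omega
        · intro h5
          exact absurd (Finset.mem_univ _) h5
      set Z : T.C := M * p k.rev * (L ^ m * p k) with hZ
      have hZd : Z ∈ T.Deg i 0 := by
        have h3 := hG.mul (hG.mul hMd (hpm k.rev)) h1
        rwa [add_zero, neg_add_cancel] at h3
      have hΔd : T.Δ i ∈ T.Deg i 0 := by
        rw [Deg, add_zero]
        exact T.Δ_mem i
      have h3 : Z - T.Δ i ∈ T.CH i i (T.dim i) := by
        have h4 := Submodule.sub_mem _ hZd hΔd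
        rwa [Deg, add_zero] at h4
      have h5 : p k * (Z - T.Δ i) * p k = 0 := by
        refine van hF hi hi hp hp h3 k k (by push_cast; omega) (Or.inr ⟨by omega, by omega⟩) ?_
        have h6 : T.R (p k * (Z - T.Δ i) * p k) = T.π i k * (T.R M * (T.π i k.rev *
            T.R (L ^ m * p k)) - T.R (T.Δ i)) * T.π i k := by
          rw [map_mul, map_mul, map_sub, hZ, map_mul T.R (M * p k.rev), map_mul T.R M,
            hp.1.1.2.2.2 k, hp.1.1.2.2.2 k.rev, mul_assoc (T.R M)]
        have h7 : T.R M * T.R (L ^ m * p k) = T.π i k := by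
          rw [map_mul, map_pow, hp.1.1.2.2.2 k, ← mul_assoc]
          exact hML L hL
        rw [h6, ← h2, h7, mul_sub, sub_mul, hππ, hππ, π_mul_ρ, hππ, sub_self]
      rw [mul_sub, sub_mul, sub_eq_zero, T.mul_Δ (hp.1.1.1 k), hpp] at h5
      have h8 : p k * M * p k.rev * L ^ m * p k = p k * Z := by
        rw [hZ]
        simp only [mul_assoc]
      rw [h8]
      have h9 : Z * p k = Z := by
        rw [hZ]
        have h10 : M * p k.rev * (L ^ m * p k) * p k = M * p k.rev * (L ^ m * (p k * p k)) := by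
          simp only [mul_assoc]
        rw [h10, hpp]
      rw [mul_assoc, h9] at h5
      exact h5
    · refine ⟨p k, ?_, fun L _ => ?_⟩
      · rw [hk]
        exact hp.1.1.1 k
      · have h1 : k.rev = k := by
          ext
          rw [Fin.val_rev]
          omega
        rw [h1, hk, Nat.sub_self, pow_zero, mul_one, hpp, hpp, hpp]

end Cycles

end SDCK
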