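import Pool.Agent.LibSD51.Defs

/-!
# Lefschetz structures

A class of polarised varieties with self-dual Chow-Künneth decompositions, closed under products and
complete intersections of ample divisors.
-/

set_option autoImplicit false

namespace SDCK

universe u v

namespace Cycles

variable (T : Cycles.{u, v})

/-- Basic facts on cycles and cohomology in dimension at most `2`. -/
structure Small : Prop where
  /-- a correspondence of codimension `c` on `V i × V j` maps cohomology of degree `k` to degree
  `k + 2 (c - dim V i)` -/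
  deg : ∀ {i j : T.ι} {c : ℤ} {a : T.C}, a ∈ T.CH i j c →
    ∀ (k : Fin (2 * T.dim i + 1)) (l : Fin (2 * T.dim j + 1)),
    ((l : ℕ) : ℤ) ≠ (k : ℕ) + 2 * (c - T.dim i) → T.π j l * T.R a * T.π i k = 0
  /-- for `k ≤ 1` the Künneth projector in degree `k` of a variety of dimension at most `2` is the
  class of a correspondence of degree `0` that factors through varieties of dimension at most `k`
  (Murre) -/
  low : ∀ i, T.dim i ≤ 2 → ∀ k : Fin (2 * T.dim i + 1), (k : ℕ) ≤ 1 →
    ∃ c ∈ T.Through i (k : ℕ), T.R c = T.π i k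
  /-- a correspondence of degree `0` of a surface that acts as `0` on the cohomology in degree `1`
  acts as `0` on homologically trivial divisors -/
  pic : ∀ i, T.dim i = 2 → ∀ z ∈ T.CH i i 2, (∀ k : Fin (2 * T.dim i + 1), (k : ℕ) = 1 →
    T.R z * T.π i k = 0) → ∀ o, T.dim o = 0 → ∀ x ∈ T.CH o i 1, T.R x = 0 → z * x = 0

/-- `D` is a set of correspondences of degree `1` of `V y` (multiplication by the divisors of an
ample numerical class), `p` a self-dual Chow-Künneth decomposition of `V y` such that the elements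
of `D` raise the weight at most by `2`, all have the same component of weight `2`, and this component
satisfies the hard Lefschetz theorem. -/
structure IsLef (y : T.ι) (D : Set T.C) (p : Fin (2 * T.dim y + 1) → T.C) : Prop where
  ck : T.IsSelfDualCK y p
  nonempty : D.Nonempty
  mem : ∀ L ∈ D, L ∈ T.CH y y (T.dim y + 1)
  symm : ∀ L ∈ D, star L = L
  fil : ∀ L ∈ D, ∀ k l : Fin (2 * T.dim y + 1), (k : ℕ) + 2 < l → p l * L * p k = 0
  same : ∀ L ∈ D, ∀ L' ∈ D, ∀ k l : Fin (2 * T.dim y + 1), (l : ℕ) = k + 2 →
    p l * L * p k = p l * L' * p k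
  hard : ∀ k : Fin (2 * T.dim y + 1), (k : ℕ) ≤ T.dim y → ∃ M ∈ T.CH y y (k : ℕ), ∀ L ∈ D,
    p k * M * p k.rev * L ^ (T.dim y - k) * p k = p k

/-- `V i` is a factor of `V y = V i × V'`: `θ a = a × Δ` for correspondences `a` of `V i` of any
degree. -/
structure IsFactor (i y : T.ι) (θ : T.C → T.C) : Prop where
  add : ∀ a b, θ (a + b) = θ a + θ b
  smul : ∀ (q : ℚ) (a : T.C), θ (q • a) = q • θ a
  mem : ∀ (r : ℤ), ∀ a ∈ T.CH i i (T.dim i + r), θ a ∈ T.CH y y (T.dim y + r)
  one : θ (T.Δ i) = T.Δ y
  mul : ∀ (r s : ℤ), ∀ a ∈ T.CH i i r, ∀ b ∈ T.CH i i s, θ (a * b) = θ a * θ b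
  star_eq : ∀ (r : ℤ), ∀ a ∈ T.CH i i r, θ (star a) = star (θ a)

/-- `V y` is the product of `V i` and `V j`: `θ a = a × Δ`, `θ' b = Δ × b` for correspondences `a` of
`V i` and `b` of `V j`, of any degree. -/
structure IsProd (i j y : T.ι) (θ θ' : T.C → T.C) : Prop where
  dim : T.dim y = T.dim i + T.dim j
  left : T.IsFactor i y θ
  right : T.IsFactor j y θ'
  comm : ∀ (r s : ℤ), ∀ a ∈ T.CH i i r, ∀ b ∈ T.CH j j s, θ a * θ' b = θ' b * θ a
  /-- Künneth formula -/
  kunneth : ∀ p p', T.IsCK i p → T.IsCK j p' → ∀ k : Fin (2 * T.dim y + 1),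
    T.R (∑ l : Fin (2 * T.dim i + 1), ∑ m : Fin (2 * T.dim j + 1),
      if (l : ℕ) + m = k then θ (p l) * θ' (p' m) else 0) = T.π y k

/-- `D` is a class of divisors on `V i`, `dim V i ≤ 2` (given by the operators of multiplication by
its members), that satisfies the hard Lefschetz theorem, with inverses given by algebraic
correspondences; for instance any ample numerical class. -/
structure IsAmple (i : T.ι) (D : Set T.C) : Prop where
  dim : T.dim i ≤ 2
  nonempty : D.Nonempty
  mem : ∀ L ∈ D, L ∈ T.CH i i (T.dim i + 1)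
  symm : ∀ L ∈ D, star L = L
  same : ∀ L ∈ D, ∀ L' ∈ D, T.R L = T.R L'
  hard : ∀ k : Fin (2 * T.dim i + 1), (k : ℕ) < T.dim i → ∃ M ∈ T.CH i i (k : ℕ), ∀ L ∈ D,
    T.R M * T.R L ^ (T.dim i - k) * T.π i k = T.π i k

/-- `z` is a combination with the positive coefficients `r j` of members of the `D j`. -/
def IsComb {s : ℕ} (D : Fin s → Set T.C) (r : Fin s → ℚ) (z : T.C) : Prop :=
  (∀ j, 0 < r j) ∧ ∃ L : Fin s → T.C, (∀ j, L j ∈ D j) ∧ z = ∑ j, r j • L j

/-- For a morphism `f : V x → V y` and `a = f^*` (any correspondence of degree `0` is allowed here):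
`f^*` is surjective on the cohomology in degrees `k < dim V x`, and `f_* f^*` is a nonzero multiple
of a product of combinations with positive coefficients of divisors in the classes `D j`. For
instance `V x` is a complete intersection in `V y` of divisors which are numerically such
combinations, if these are ample; or a cyclic covering of `V y` branched along an ample divisor. -/
def IsSect (x y : T.ι) {s : ℕ} (D : Fin s → Set T.C) (a : T.C) : Prop :=
  a ∈ T.CH y x (T.dim y) ∧
    (∀ k : Fin (2 * T.dim x + 1), (k : ℕ) < T.dim x → ∃ b : T.H, T.π x k = T.R a * b) ∧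
    ∃ (t : ℕ) (c : ℚ) (L : Fin t → T.C), T.dim x + t = T.dim y ∧ c ≠ 0 ∧
      (∀ l, ∃ r, T.IsComb D r (L l)) ∧ star a * a = c • (List.ofFn L).prod * T.Δ y

/-- `D'` consists of pull-backs, under `a = f^*`, of combinations of members of the `D j` with the
positive coefficients `r j`. -/
def IsPull (x : T.ι) {s : ℕ} (D : Fin s → Set T.C) (a : T.C) (r : Fin s → ℚ) (D' : Set T.C) :
    Prop :=
  D'.Nonempty ∧ ∀ E ∈ D', E ∈ T.CH x x (T.dim x + 1) ∧ star E = E ∧
    ∃ z, T.IsComb D r z ∧ E * a = a * z

/-- The class of varieties `V y` with `s` numerical classes `D 0, …, D (s - 1)` of divisors (given by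
the operators of multiplication by their members) obtained by the following constructions:
* points, curves and surfaces with a class of divisors satisfying the hard Lefschetz theorem with
  algebraic inverses (for instance any ample class);
* varieties with a Lefschetz structure (for instance flag varieties, and abelian varieties with a
  symmetric ample class);
* products of `V i` and `V j` with the classes of `V i` and the class of `V j`;
* `V x` with a morphism to `V y` as in `IsSect`, with a class of pull-backs. -/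
inductive Pol : (y : T.ι) → (s : ℕ) → (Fin s → Set T.C) → Prop
  | small (i : T.ι) (D : Set T.C) (h : T.IsAmple i D) : Pol i 1 fun _ => D
  | given (i : T.ι) (D : Set T.C) (p : Fin (2 * T.dim i + 1) → T.C) (h : T.IsLef i D p) :
      Pol i 1 fun _ => D
  | prod (i j y : T.ι) (s : ℕ) (D : Fin s → Set T.C) (D' : Fin 1 → Set T.C)
      (hi : Pol i s D) (hj : Pol j 1 D') (θ θ' : T.C → T.C) (h : T.IsProd i j y θ θ') :
      Pol y (s + 1) (Fin.cons (θ' '' D' 0) fun l => θ '' D l)
  | sect (x y : T.ι) (s : ℕ) (D : Fin s → Set T.C) (hy : Pol y s D) (a : T.C)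
      (ha : T.IsSect x y D a) (r : Fin s → ℚ) (D' : Set T.C) (h : T.IsPull x D a r D') :
      Pol x 1 fun _ => D'

end Cycles

end SDCK
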