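import Pool.Agent.LibLF72.Sym

/-!
# The section step
-/

set_option autoImplicit false

namespace SDCK

universe u v

section

variable {C : Type u} [Ring C] [Algebra ℚ C] [StarRing C]

/-- the data of the section step: `a : h(Y) → h(X)`, `w = star a * a` -/
structure Sect (Δ Δ' : C) (G G' : ℤ → Submodule ℚ C) (n d : ℕ) (P : ℤ → C) (a σ : C) : Prop where
  hG : MGr Δ G
  hG' : MGr Δ' G'
  dn : d ≤ n
  P_gr : IsGr Δ n P
  P_mem : ∀ k, P k ∈ G 0
  P_star : ∀ k, star (P k) = P (2 * n - k)
  Δ'_mem : Δ' ∈ G' 0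
  Δ'_star : star Δ' = Δ'
  conj : ∀ (r : ℤ), ∀ g ∈ G r, a * g * star a ∈ G' (r + (n - d))
  right : a * Δ = a
  left : Δ' * a = a
  w_mem : star a * a ∈ G (n - d)
  w_fil : Fil P P (n - d) (star a * a)
  σ_mem : σ ∈ G (-(n - d))
  σ_fil : Fil P P (-(n - d)) σ
  low : (∑ k ∈ Finset.Ico (0 : ℤ) d, P k) * σ = σ
  inv : σ * (star a * a) * (∑ k ∈ Finset.Ico (0 : ℤ) d, P k) = ∑ k ∈ Finset.Ico (0 : ℤ) d, P k
  iso : σ * (star a * a) * star σ = 0

variable {Δ Δ' : C} {G G' : ℤ → Submodule ℚ C} {n d : ℕ} {P : ℤ → C} {a σ : C}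

namespace Sect

/-- the projectors of the lower half -/
noncomputable def r (P : ℤ → C) (a σ : C) (k : ℤ) : C := a * P k * σ * star a

/-- the projectors of `X` -/
noncomputable def Q (Δ' : C) (d : ℕ) (P : ℤ → C) (a σ : C) : ℤ → C := symP Δ' d (r P a σ)

variable (h : Sect Δ Δ' G G' n d P a σ)

include h

theorem σw {l : ℤ} (hl : 0 ≤ l) (hld : l < d) : σ * (star a * a) * P l = P l := by
  rw [← sum_mul_P h.P_gr hl hld, ← mul_assoc, h.inv]

theorem r_mul {k l : ℤ} (hl : 0 ≤ l) (hld : l < d) :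
    r P a σ k * r P a σ l = if k = l then r P a σ k else 0 := by
  have h1 : r P a σ k * r P a σ l =
      a * P k * (σ * (star a * a) * P l) * σ * star a := by simp only [r, mul_assoc]
  rw [h1, h.σw hl hld, mul_assoc a, h.P_gr.ortho]
  by_cases hkl : k = l
  · subst hkl
    rw [if_pos rfl, if_pos rfl, r]
  · rw [if_neg hkl, if_neg hkl, mul_zero, zero_mul, zero_mul]

theorem star_r (k : ℤ) : star (r P a σ k) = a * star σ * P (2 * n - k) * star a := by
  rw [r, star_mul, star_mul, star_mul, star_star, h.P_star]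
  simp only [mul_assoc]

theorem star_r_mul {k l : ℤ} (hkl : k + l < 2 * d) :
    star (r P a σ k) * r P a σ l = 0 := by
  have h1 : star (r P a σ k) * r P a σ l =
      a * star σ * (P (2 * n - k) * (star a * a) * P l) * σ * star a := by
    rw [h.star_r]
    simp only [r, mul_assoc]
  rw [h1, h.w_fil l (2 * n - k) (by omega), mul_zero, zero_mul, zero_mul]

theorem r_mul_star (k l : ℤ) : r P a σ k * star (r P a σ l) = 0 := by
  have h1 : r P a σ k * star (r P a σ l) =
      a * P k * (σ * (star a * a) * star σ) * P (2 * n - l) * star a := by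
    rw [h.star_r]
    simp only [r, mul_assoc]
  rw [h1, h.iso, mul_zero, zero_mul, zero_mul]

theorem Δr (k : ℤ) : Δ' * r P a σ k = r P a σ k := by
  rw [r, ← mul_assoc, ← mul_assoc, ← mul_assoc, h.left]

theorem rΔ (k : ℤ) : r P a σ k * Δ' = r P a σ k := by
  have h1 : star a * Δ' = star a := by
    conv_lhs => rw [← h.Δ'_star]
    rw [← star_mul, h.left]
  rw [r, mul_assoc _ (star a), h1]

theorem gr : IsGr Δ' d (Q Δ' d P a σ) :=
  symP_gr h.Δ'_star (h.hG'.left h.Δ'_mem) (fun k _ _ => h.Δr k) (fun k _ _ => h.rΔ k)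
    (fun _ _ _ _ hl hld => h.r_mul hl hld) (fun _ _ _ _ _ _ => h.star_r_mul (by omega))
    fun _ _ _ _ _ _ => h.r_mul_star _ _

theorem Q_star (k : ℤ) : star (Q Δ' d P a σ k) = Q Δ' d P a σ (2 * d - k) :=
  symP_star h.Δ'_star k

theorem Q_low {k : ℤ} (hk : 0 ≤ k) (hkd : k < d) : Q Δ' d P a σ k = a * P k * σ * star a :=
  symP_low hk hkd

theorem r_mem (k : ℤ) : r P a σ k ∈ G' 0 := by
  have h1 := h.hG.mul (h.P_mem k) h.σ_mem
  have h2 := h.conj _ _ h1
  rw [zero_add, neg_add_cancel] at h2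
  rw [r, mul_assoc a]
  exact h2

theorem Q_mem (k : ℤ) : Q Δ' d P a σ k ∈ G' 0 := by
  rw [Q, symP]
  split_ifs
  · exact h.r_mem k
  · exact h.hG'.star (h.r_mem _)
  · exact Submodule.sub_mem _ h.Δ'_mem (Submodule.sum_mem _ fun l _ =>
      Submodule.add_mem _ (h.r_mem l) (h.hG'.star (h.r_mem l)))
  · exact Submodule.zero_mem _

/-- `a` does not raise the weight -/
theorem a_fil : Fil P (Q Δ' d P a σ) 0 a := by
  intro j b hjb
  rw [mul_zero, add_zero] at hjb
  have hlow : ∀ b : ℤ, 0 ≤ b → b < d → j < b → Q Δ' d P a σ b * a * P j = 0 := by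
    intro b hb hbd hjb
    rw [h.Q_low hb hbd]
    by_cases hj : 0 ≤ j
    · have h1 : a * P b * σ * star a * a * P j = a * (P b * (σ * (star a * a) * P j)) := by
        simp only [mul_assoc]
      rw [h1, h.σw hj (by omega), h.P_gr.ne (by omega), mul_zero]
    · rw [h.P_gr.zero j (by omega), mul_zero]
  have hhigh : ∀ b : ℤ, (d : ℤ) < b → b ≤ 2 * d → j < b → Q Δ' d P a σ b * a * P j = 0 := by
    intro b hb hbd hjb
    rw [Q, symP_high hb hbd, h.star_r]
    have h1 : a * star σ * P (2 * n - (2 * d - b)) * star a * a * P j =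
        a * star σ * (P (2 * n - (2 * d - b)) * (star a * a) * P j) := by simp only [mul_assoc]
    rw [h1, h.w_fil j _ (by omega), mul_zero]
  rcases lt_trichotomy b d with hb | hb | hb
  · by_cases hb0 : 0 ≤ b
    · exact hlow b hb0 hb hjb
    · rw [h.gr.zero b (by omega), zero_mul, zero_mul]
  · subst hb
    by_cases hj : 0 ≤ j
    · rw [Q, symP_mid, sub_mul, sub_mul, h.left, Finset.sum_mul, Finset.sum_mul,
        Finset.sum_eq_single j]
      · have h2 := hhigh (2 * d - j) (by omega) (by omega) (by omega)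
        rw [Q, symP_high (by omega) (by omega), sub_sub_cancel] at h2
        rw [add_mul, add_mul, h2, add_zero]
        have h1 : r P a σ j * a * P j = a * (P j * (σ * (star a * a) * P j)) := by
          simp only [r, mul_assoc]
        rw [h1, h.σw hj hjb, h.P_gr.idem, sub_self]
      · intro l hl hlj
        rw [Finset.mem_Ico] at hl
        have h2 := hhigh (2 * d - l) (by omega) (by omega) (by omega)
        rw [Q, symP_high (by omega) (by omega), sub_sub_cancel] at h2
        rw [add_mul, add_mul, h2, add_zero]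
        have h1 : r P a σ l * a * P j = a * (P l * (σ * (star a * a) * P j)) := by
          simp only [r, mul_assoc]
        rw [h1, h.σw hj hjb, h.P_gr.ne hlj, mul_zero]
      · intro h1
        exact absurd (Finset.mem_Ico.2 ⟨hj, hjb⟩) h1
    · rw [h.P_gr.zero j (by omega), mul_zero]
  · by_cases hb2 : b ≤ 2 * d
    · exact hhigh b hb hb2 hjb
    · rw [h.gr.zero b (by omega), zero_mul, zero_mul]

theorem Q_a {k : ℤ} (hk : 0 ≤ k) (hkd : k < d) : Q Δ' d P a σ k * a * P k = a * P k := by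
  rw [h.Q_low hk hkd]
  have h1 : a * P k * σ * star a * a * P k = a * (P k * (σ * (star a * a) * P k)) := by
    simp only [mul_assoc]
  rw [h1, h.σw hk hkd, h.P_gr.idem]

/-- operators on `X` compatible with filtered operators on `Y` -/
theorem fil {E D : C} (hE : star E = E) (hEa : E * a = a * D) (hD : D ∈ G 1)
    (hDf : Fil P P 1 D) : Fil (Q Δ' d P a σ) (Q Δ' d P a σ) 1 E := by
  have hlow : ∀ k b : ℤ, 0 ≤ k → k < d → k + 2 < b →
      Q Δ' d P a σ b * E * Q Δ' d P a σ k = 0 := by
    intro k b hk hkd hkb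
    rw [h.Q_low hk hkd]
    have h1 : Q Δ' d P a σ b * E * (a * P k * σ * star a) =
        Q Δ' d P a σ b * (E * a) * P k * (σ * star a) := by simp only [mul_assoc]
    have h2 := Fil.mul h.P_gr h.a_fil hDf (h.hG.left hD)
    rw [h1, hEa, h2 k b (by omega), zero_mul]
  intro k b hkb
  by_cases hk : k < d
  · by_cases hk0 : 0 ≤ k
    · exact hlow k b hk0 hk (by omega)
    · rw [h.gr.zero k (by omega), mul_zero]
  · by_cases hb : b ≤ 2 * d
    · have h1 := hlow (2 * d - b) (2 * d - k) (by omega) (by omega) (by omega)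
      have h2 := congrArg star h1
      rw [star_mul, star_mul, h.Q_star, h.Q_star, star_zero, hE, sub_sub_cancel,
        sub_sub_cancel] at h2
      rw [mul_assoc]
      exact h2
    · rw [h.gr.zero b (by omega), zero_mul, zero_mul]

theorem same {E D E' D' : C} (hE : star E = E) (hEa : E * a = a * D) (hD : D ∈ G 1)
    (hDf : Fil P P 1 D) (hE' : star E' = E') (hEa' : E' * a = a * D') (hD' : D' ∈ G 1)
    (hDf' : Fil P P 1 D') (hDD : ∀ k, P (k + 2) * D * P k = P (k + 2) * D' * P k) (k : ℤ) :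
    Q Δ' d P a σ (k + 2) * E * Q Δ' d P a σ k = Q Δ' d P a σ (k + 2) * E' * Q Δ' d P a σ k := by
  have hlow : ∀ k : ℤ, 0 ≤ k → k < d →
      Q Δ' d P a σ (k + 2) * E * Q Δ' d P a σ k =
        Q Δ' d P a σ (k + 2) * E' * Q Δ' d P a σ k := by
    intro k hk hkd
    rw [h.Q_low hk hkd]
    have h1 : ∀ F : C, Q Δ' d P a σ (k + 2) * F * (a * P k * σ * star a) =
        Q Δ' d P a σ (k + 2) * (F * a) * P k * (σ * star a) := fun F => by
      simp only [mul_assoc]
    rw [h1, h1, hEa, hEa']
    have h2 := Fil.top h.P_gr h.a_fil hDf (h.hG.left hD) k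
    have h3 := Fil.top h.P_gr h.a_fil hDf' (h.hG.left hD') k
    rw [show k + 2 * (0 + 1) = k + 2 by ring, show k + 2 * (1 : ℤ) = k + 2 by ring] at h2 h3
    rw [h2, h3, hDD]
  by_cases hk : k < d
  · by_cases hk0 : 0 ≤ k
    · exact hlow k hk0 hk
    · rw [h.gr.zero k (by omega), mul_zero, mul_zero]
  · by_cases hb : k + 2 ≤ 2 * d
    · have h1 := hlow (2 * d - (k + 2)) (by omega) (by omega)
      have h2 := congrArg star h1
      rw [star_mul, star_mul, star_mul, star_mul, h.Q_star, h.Q_star, hE, hE', sub_sub_cancel,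
        show 2 * (d : ℤ) - (2 * d - (k + 2) + 2) = k by ring] at h2
      rw [mul_assoc, mul_assoc]
      exact h2
    · rw [h.gr.zero (k + 2) (by omega), zero_mul, zero_mul, zero_mul, zero_mul]

omit h in
/-- powers of `E` -/
theorem pow_a {E D : C} (hEa : E * a = a * D) (i : ℕ) : E ^ i * a = a * D ^ i := by
  induction i with
  | zero => rw [pow_zero, pow_zero, one_mul, mul_one]
  | succ i ih => rw [pow_succ, mul_assoc, hEa, ← mul_assoc, ih, pow_succ, mul_assoc]

/-- hard Lefschetz on `X` -/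
theorem hard {E D : C} (hEa : E * a = a * D) {k : ℤ} (hk : 0 ≤ k) (hkd : k < d) {M : C}
    (hMk : P k * M = M) (hkM : M * P (2 * n - k) = M) (i : ℕ)
    (hM : M * (star a * a) * D ^ i * P k = P k) :
    Q Δ' d P a σ k * (a * M * star a) * Q Δ' d P a σ (2 * d - k) * E ^ i * Q Δ' d P a σ k =
      Q Δ' d P a σ k := by
  have h1 : Q Δ' d P a σ k * (a * M) = a * M := by
    rw [← hMk]
    have h2 : Q Δ' d P a σ k * (a * (P k * M)) = Q Δ' d P a σ k * a * P k * M := by
      simp only [mul_assoc]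
    rw [h2, h.Q_a hk hkd, mul_assoc]
  have h3 : M * star a * Q Δ' d P a σ (2 * d - k) = M * star a := by
    have h4 : P (2 * n - k) * star a * Q Δ' d P a σ (2 * d - k) = P (2 * n - k) * star a := by
      have h5 := congrArg star (h.Q_a hk hkd)
      rw [star_mul, star_mul, star_mul, h.P_star, h.Q_star] at h5
      rw [mul_assoc]
      exact h5
    rw [← hkM]
    have h6 : M * P (2 * n - k) * star a * Q Δ' d P a σ (2 * d - k) =
        M * (P (2 * n - k) * star a * Q Δ' d P a σ (2 * d - k)) := by simp only [mul_assoc]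
    rw [h6, h4, mul_assoc]
  have h7 : Q Δ' d P a σ k * (a * M * star a) * Q Δ' d P a σ (2 * d - k) * E ^ i *
      Q Δ' d P a σ k = Q Δ' d P a σ k * (a * M) * star a * Q Δ' d P a σ (2 * d - k) * E ^ i *
      Q Δ' d P a σ k := by simp only [mul_assoc]
  have h8 : a * M * star a * Q Δ' d P a σ (2 * d - k) = a * M * star a := by
    rw [mul_assoc a M, mul_assoc a, h3]
  rw [h7, h1, h8]
  rw [h.Q_low hk hkd]
  have h9 : a * M * star a * E ^ i * (a * P k * σ * star a) =
      a * (M * star a * (E ^ i * a) * P k) * (σ * star a) := by simp only [mul_assoc]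
  have h10 : M * star a * (a * D ^ i) * P k = M * (star a * a) * D ^ i * P k := by
    simp only [mul_assoc]
  rw [h9, pow_a hEa, h10, hM]
  simp only [mul_assoc]

end Sect

end

end SDCK
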