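import Pool.Agent.LibSD67.Z
import Pool.Agent.LibLF72.Defs
import Pool.Agent.LibLF72.Sec

/-!
# Commuting Lefschetz structures
-/

set_option autoImplicit false

namespace SDCK

universe u v

namespace Cycles

variable (T : Cycles.{u, v})

/-- correspondences of degree `r` of `V y` -/
def Deg (y : T.ι) (r : ℤ) : Submodule ℚ T.C := T.CH y y (T.dim y + r)

/-- A self-dual Chow-Künneth decomposition `P` of `V y` together with `s` commuting gradings `e j`
with sum of the weights the weight for `P`, with commuting operators `L j` of degree `1`, each of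
which satisfies the hard Lefschetz theorem for `e j`, such that the members of `D j` are filtered
with component `L j` of highest weight. -/
structure LefData (y : T.ι) (s : ℕ) (D : Fin s → Set T.C) where
  P : ℤ → T.C
  P_mem : ∀ k, P k ∈ T.Deg y 0
  P_gr : IsGr (T.Δ y) (T.dim y) P
  P_star : ∀ k, star (P k) = P (2 * T.dim y - k)
  P_R : ∀ k : Fin (2 * T.dim y + 1), T.R (P ((k : ℕ) : ℤ)) = T.π y k
  n : Fin s → ℕ
  n_sum : ∑ j, n j = T.dim y
  e : Fin s → ℤ → T.C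
  e_mem : ∀ j k, e j k ∈ T.Deg y 0
  e_gr : ∀ j, IsGr (T.Δ y) (n j) (e j)
  weight : ∑ j, ∑ k ∈ Finset.Icc (0 : ℤ) (2 * n j), ((k : ℚ) - n j) • e j k =
    ∑ k ∈ Finset.Icc (0 : ℤ) (2 * T.dim y), ((k : ℚ) - T.dim y) • P k
  L : Fin s → T.C
  L_mem : ∀ j, L j ∈ T.Deg y 1
  L_star : ∀ j, star (L j) = L j
  L_shift : ∀ j k, L j * e j k = e j (k + 2) * L j
  L_P : ∀ j k, L j * P k = P (k + 2) * L j
  M : Fin s → ℤ → T.C
  M_mem : ∀ j k, M j k ∈ T.Deg y (k - n j)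
  M_left : ∀ j k, e j k * M j k = M j k
  M_inv : ∀ j, ∀ k : ℤ, 0 ≤ k → k ≤ n j → L j ^ ((n j : ℤ) - k).toNat * M j k = e j (2 * n j - k)
  comm_LL : ∀ i j, i ≠ j → L i * L j = L j * L i
  comm_Le : ∀ i j, i ≠ j → ∀ k, L i * e j k = e j k * L i
  comm_ee : ∀ i j, i ≠ j → ∀ k l, e i k * e j l = e j l * e i k
  comm_ML : ∀ i j, i ≠ j → ∀ k, M i k * L j = L j * M i k
  comm_Me : ∀ i j, i ≠ j → ∀ k l, M i k * e j l = e j l * M i k
  D_mem : ∀ j, ∀ E ∈ D j, E ∈ T.Deg y 1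
  D_star : ∀ j, ∀ E ∈ D j, star E = E
  D_fil : ∀ j, ∀ E ∈ D j, Fil P P 1 E
  D_top : ∀ j, ∀ E ∈ D j, ∀ k, P (k + 2) * E * P k = P (k + 2) * L j * P k

variable {T}

/-- the projectors indexed by all integers -/
noncomputable def toZ {y : T.ι} (p : Fin (2 * T.dim y + 1) → T.C) (k : ℤ) : T.C :=
  if h : 0 ≤ k ∧ k ≤ 2 * T.dim y then p ⟨k.toNat, by omega⟩ else 0

theorem toZ_coe {y : T.ι} (p : Fin (2 * T.dim y + 1) → T.C) (k : Fin (2 * T.dim y + 1)) :
    toZ p ((k : ℕ) : ℤ) = p k := by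
  have h := k.isLt
  rw [toZ, dif_pos (by omega)]
  congr 1

theorem toZ_out {y : T.ι} (p : Fin (2 * T.dim y + 1) → T.C) {k : ℤ}
    (hk : k < 0 ∨ 2 * (T.dim y : ℤ) < k) : toZ p k = 0 := by
  rw [toZ, dif_neg (by omega)]

theorem toZ_of {y : T.ι} (p : Fin (2 * T.dim y + 1) → T.C) {k : ℤ} (h0 : 0 ≤ k)
    (h1 : k ≤ 2 * T.dim y) : ∃ l : Fin (2 * T.dim y + 1), ((l : ℕ) : ℤ) = k ∧ toZ p k = p l :=
  ⟨⟨k.toNat, by omega⟩, by simp only; omega, by rw [toZ, dif_pos ⟨h0, h1⟩]⟩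

theorem deg_mgr (y : T.ι) : MGr (T.Δ y) (T.Deg y) where
  mul := fun {r s a b} ha hb => by
    have h := T.mul_mem ha hb
    have h1 : (T.dim y : ℤ) + r + (T.dim y + s) - T.dim y = T.dim y + (r + s) := by ring
    rwa [h1] at h
  star := fun ha => T.star_mem ha
  left := fun ha => T.Δ_mul ha
  right := fun ha => T.mul_Δ ha

theorem sum_Icc_eq {y : T.ι} (f : ℤ → T.C) :
    ∑ k ∈ Finset.Icc (0 : ℤ) (2 * T.dim y), f k = ∑ k : Fin (2 * T.dim y + 1), f ((k : ℕ) : ℤ) := by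
  symm
  refine Finset.sum_nbij' (fun k => ((k : ℕ) : ℤ)) (fun k => ⟨k.toNat % (2 * T.dim y + 1),
    Nat.mod_lt _ (by omega)⟩) ?_ ?_ ?_ ?_ ?_
  · intro k _
    have h := k.isLt
    rw [Finset.mem_Icc]
    omega
  · intro k _
    exact Finset.mem_univ _
  · intro k _
    have h := k.isLt
    ext
    simp only [Int.toNat_natCast]
    exact Nat.mod_eq_of_lt h
  · intro k hk
    rw [Finset.mem_Icc] at hk
    simp only
    rw [Nat.mod_eq_of_lt (by omega)]
    omega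
  · intro k _
    rfl

theorem toZ_gr {y : T.ι} {p : Fin (2 * T.dim y + 1) → T.C} (hp : T.IsCK y p) :
    IsGr (T.Δ y) (T.dim y) (toZ p) := by
  refine ⟨fun k l => ?_, fun k hk => toZ_out p hk, ?_⟩
  · by_cases hk : 0 ≤ k ∧ k ≤ 2 * T.dim y
    · obtain ⟨k', hk', hpk⟩ := toZ_of p hk.1 hk.2
      by_cases hl : 0 ≤ l ∧ l ≤ 2 * T.dim y
      · obtain ⟨l', hl', hpl⟩ := toZ_of p hl.1 hl.2
        rw [hpk, hpl, hp.2.1.mul_eq]
        by_cases h : k = l
        · have h2 : k' = l' := by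
            ext
            omega
          rw [if_pos h, if_pos h2]
        · have h2 : k' ≠ l' := fun h3 => h (by rw [← hk', ← hl', h3])
          rw [if_neg h, if_neg h2]
      · rw [toZ_out p (k := l) (by omega), mul_zero, if_neg (by omega)]
    · rw [toZ_out p (k := k) (by omega), zero_mul, ite_self]
  · rw [sum_Icc_eq, ← hp.2.2.1]
    exact Finset.sum_congr rfl fun k _ => toZ_coe p k

theorem toZ_star {y : T.ι} {p : Fin (2 * T.dim y + 1) → T.C} (hp : T.IsSelfDualCK y p) (k : ℤ) :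
    star (toZ p k) = toZ p (2 * T.dim y - k) := by
  by_cases hk : 0 ≤ k ∧ k ≤ 2 * T.dim y
  · obtain ⟨k', hk', hpk⟩ := toZ_of p hk.1 hk.2
    rw [hpk, hp.2, ← toZ_coe p]
    congr 1
    rw [Fin.val_rev]
    omega
  · rw [toZ_out p (k := k) (by omega), toZ_out p (by omega), star_zero]

theorem toZ_mem {y : T.ι} {p : Fin (2 * T.dim y + 1) → T.C} (hp : T.IsCK y p) (k : ℤ) :
    toZ p k ∈ T.Deg y 0 := by
  rw [toZ]
  split_ifs
  · rw [Deg, add_zero]
    exact hp.1 _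
  · exact Submodule.zero_mem _

/-- the self-dual Chow-Künneth decomposition -/
theorem LefData.ck {y : T.ι} {s : ℕ} {D : Fin s → Set T.C} (h : T.LefData y s D) :
    T.IsSelfDualCK y fun k => h.P ((k : ℕ) : ℤ) := by
  refine ⟨⟨fun k => ?_, ⟨fun k => h.P_gr.idem _, fun k l hkl => ?_⟩, ?_, h.P_R⟩, fun k => ?_⟩
  · have h1 := h.P_mem k
    rwa [Deg, add_zero] at h1
  · exact h.P_gr.ne fun h1 => hkl (by ext; omega)
  · rw [← h.P_gr.sum, sum_Icc_eq]
  · rw [h.P_star]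
    congr 1
    rw [Fin.val_rev]
    have h1 := k.isLt
    omega

end Cycles

end SDCK
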