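import Pool.Agent.LibLF72.Data

/-!
# From a Lefschetz structure to commuting Lefschetz structures
-/

set_option autoImplicit false

namespace SDCK

universe u v

section

variable {C : Type u} [Ring C] [Algebra ℚ C] [StarRing C] {Δ : C} {G : ℤ → Submodule ℚ C}
  {P : ℤ → C} {n : ℕ}

/-- the component of weight `2` -/
noncomputable def gr2 (n : ℕ) (P : ℤ → C) (E : C) : C :=
  ∑ k ∈ Finset.Icc (-2 : ℤ) (2 * n), P (k + 2) * E * P k

theorem gr2_mul (hP : IsGr Δ n P) (E : C) (k : ℤ) : gr2 n P E * P k = P (k + 2) * E * P k := by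
  rw [gr2, Finset.sum_mul]
  by_cases hk : k ∈ Finset.Icc (-2 : ℤ) (2 * n)
  · rw [Finset.sum_eq_single k]
    · rw [mul_assoc, hP.idem]
    · intro l _ hl
      rw [mul_assoc, hP.ne hl, mul_zero]
    · intro h
      exact absurd hk h
  · rw [Finset.mem_Icc] at hk
    rw [hP.zero k (by omega), mul_zero]
    exact Finset.sum_eq_zero fun l _ => by rw [mul_zero]

theorem mul_gr2 (hP : IsGr Δ n P) (E : C) (k : ℤ) :
    P (k + 2) * gr2 n P E = P (k + 2) * E * P k := by
  rw [gr2, Finset.mul_sum]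
  by_cases hk : k ∈ Finset.Icc (-2 : ℤ) (2 * n)
  · rw [Finset.sum_eq_single k]
    · rw [← mul_assoc, ← mul_assoc, hP.idem]
    · intro l _ hl
      rw [← mul_assoc, ← mul_assoc, hP.ne (by omega), zero_mul, zero_mul]
    · intro h
      exact absurd hk h
  · rw [Finset.mem_Icc] at hk
    rw [hP.zero (k + 2) (by omega), zero_mul, zero_mul]
    exact Finset.sum_eq_zero fun l _ => by rw [zero_mul]

theorem gr2_star (hs : ∀ k, star (P k) = P (2 * n - k)) {E : C} (hE : star E = E) :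
    star (gr2 n P E) = gr2 n P E := by
  rw [gr2, star_sum]
  refine Finset.sum_nbij' (fun k => 2 * (n : ℤ) - 2 - k) (fun k => 2 * (n : ℤ) - 2 - k)
    ?_ ?_ ?_ ?_ ?_
  · intro k hk
    rw [Finset.mem_Icc] at hk ⊢
    omega
  · intro k hk
    rw [Finset.mem_Icc] at hk ⊢
    omega
  · intro k _
    omega
  · intro k _
    omega
  · intro k _
    rw [star_mul, star_mul, hs, hs, hE, ← mul_assoc,
      show 2 * (n : ℤ) - (k + 2) = 2 * n - 2 - k by ring,
      show 2 * (n : ℤ) - k = 2 * n - 2 - k + 2 by ring]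

theorem gr2_mem (hG : MGr Δ G) (hP : ∀ k, P k ∈ G 0) {E : C} (hE : E ∈ G 1) :
    gr2 n P E ∈ G 1 := by
  refine Submodule.sum_mem _ fun k _ => ?_
  have h1 := hG.mul (hG.mul (hP (k + 2)) hE) (hP k)
  rwa [zero_add, add_zero] at h1

/-- powers of a filtered operator -/
theorem pow_top (hG : MGr Δ G) (hΔ : Δ ∈ G 0) (hP : IsGr Δ n P) {E L : C} (hE : E ∈ G 1)
    (hEf : Fil P P 1 E) (hLP : ∀ k, L * P k = P (k + 2) * E * P k)
    (hPL : ∀ k, P (k + 2) * L = P (k + 2) * E * P k) (m : ℕ) :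
    E ^ m * Δ ∈ G m ∧ Fil P P m (E ^ m * Δ) ∧
      (∀ k, P (k + 2 * m) * (E ^ m * Δ) * P k = L ^ m * P k) ∧
      ∀ k, P (k + 2 * m) * L ^ m = L ^ m * P k := by
  induction m with
  | zero =>
    refine ⟨?_, ?_, ?_, ?_⟩
    · rw [pow_zero, one_mul]
      exact hΔ
    · rw [pow_zero, one_mul]
      intro a b hab
      rw [hP.mul_Δ]
      exact hP.ne (by push_cast at hab; omega)
    · intro k
      simp only [pow_zero, one_mul, Nat.cast_zero, mul_zero, add_zero]
      rw [hP.mul_Δ, hP.idem]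
    · intro k
      simp only [pow_zero, one_mul, mul_one, Nat.cast_zero, mul_zero, add_zero]
  | succ m ih =>
    obtain ⟨h1, h2, h3, h4⟩ := ih
    have hc : ((m + 1 : ℕ) : ℤ) = 1 + m := by push_cast; ring
    refine ⟨?_, ?_, ?_, ?_⟩
    · rw [pow_succ', mul_assoc, hc]
      exact hG.mul hE h1
    · rw [pow_succ', mul_assoc, hc]
      exact Fil.mul hP hEf h2 (hG.left h1)
    · intro k
      rw [pow_succ', pow_succ', mul_assoc E, hc, Fil.top hP hEf h2 (hG.left h1), h3]
      have h5 : P (k + 2 * (1 + (m : ℤ))) * E * P (k + 2 * m) = L * P (k + 2 * m) := by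
        rw [hLP]
        congr 3
        ring
      rw [h5, mul_assoc, ← mul_assoc (P (k + 2 * (m : ℤ))), h4, mul_assoc (L ^ m), hP.idem,
        mul_assoc]
    · intro k
      rw [pow_succ', ← mul_assoc, hc, show k + 2 * (1 + (m : ℤ)) = k + 2 * m + 2 by ring, hPL,
        ← hLP, mul_assoc, h4, mul_assoc]

end

namespace Cycles

variable {T : Cycles.{u, v}} {y : T.ι}

theorem IsLef.fil' {D : Set T.C} {p : Fin (2 * T.dim y + 1) → T.C} (h : T.IsLef y D p) {E : T.C}
    (hE : E ∈ D) : Fil (toZ p) (toZ p) 1 E := by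
  intro a b hab
  by_cases ha : 0 ≤ a ∧ a ≤ 2 * T.dim y
  · by_cases hb : 0 ≤ b ∧ b ≤ 2 * T.dim y
    · obtain ⟨k, hk, hpk⟩ := toZ_of p ha.1 ha.2
      obtain ⟨l, hl, hpl⟩ := toZ_of p hb.1 hb.2
      rw [hpk, hpl]
      exact h.fil E hE k l (by omega)
    · rw [toZ_out p (k := b) (by omega), zero_mul, zero_mul]
  · rw [toZ_out p (k := a) (by omega), mul_zero]

theorem IsLef.same' {D : Set T.C} {p : Fin (2 * T.dim y + 1) → T.C} (h : T.IsLef y D p)
    {E E' : T.C} (hE : E ∈ D) (hE' : E' ∈ D) (a : ℤ) :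
    toZ p (a + 2) * E * toZ p a = toZ p (a + 2) * E' * toZ p a := by
  by_cases ha : 0 ≤ a ∧ a ≤ 2 * T.dim y
  · by_cases hb : 0 ≤ a + 2 ∧ a + 2 ≤ 2 * T.dim y
    · obtain ⟨k, hk, hpk⟩ := toZ_of p ha.1 ha.2
      obtain ⟨l, hl, hpl⟩ := toZ_of p hb.1 hb.2
      rw [hpk, hpl]
      exact h.same E hE E' hE' k l (by omega)
    · rw [toZ_out p (k := a + 2) (by omega), zero_mul, zero_mul, zero_mul, zero_mul]
  · rw [toZ_out p (k := a) (by omega), mul_zero, mul_zero]

/-- right inverses of the powers of the graded component -/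
theorem IsLef.exists_inv {D : Set T.C} {p : Fin (2 * T.dim y + 1) → T.C} (h : T.IsLef y D p)
    {E : T.C} (hE : E ∈ D) (k : ℤ) :
    ∃ M ∈ T.Deg y (k - T.dim y), toZ p k * M = M ∧ (0 ≤ k → k ≤ T.dim y →
      gr2 (T.dim y) (toZ p) E ^ ((T.dim y : ℤ) - k).toNat * M = toZ p (2 * T.dim y - k)) := by
  by_cases hk : 0 ≤ k ∧ k ≤ T.dim y
  · obtain ⟨l, hl, hpl⟩ := toZ_of p hk.1 (by omega)
    obtain ⟨M, hM, hML⟩ := h.hard l (by omega)
    have hgr := toZ_gr h.ck.1
    have hG := deg_mgr (T := T) y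
    have hE1 : E ∈ T.Deg y 1 := h.mem E hE
    have hΔ : T.Δ y ∈ T.Deg y 0 := by
      rw [Deg, add_zero]
      exact T.Δ_mem y
    have hpt := pow_top hG hΔ hgr hE1 (h.fil' hE) (gr2_mul hgr E) (mul_gr2 hgr E)
      ((T.dim y : ℤ) - k).toNat
    have hm : ((((T.dim y : ℤ) - k).toNat : ℕ) : ℤ) = T.dim y - k := by omega
    have hm' : T.dim y - (l : ℕ) = ((T.dim y : ℤ) - k).toNat := by omega
    set m := ((T.dim y : ℤ) - k).toNat with hmdef
    set L := gr2 (T.dim y) (toZ p) E with hL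
    have hrev : p l.rev = toZ p (2 * T.dim y - k) := by
      rw [← toZ_coe p]
      congr 1
      rw [Fin.val_rev]
      omega
    have h1 := hML E hE
    rw [← hpl, hrev, hm'] at h1
    -- `A E ^ m P k = P k`
    have h2 : toZ p k * M * toZ p (2 * T.dim y - k) * L ^ m = toZ p k := by
      have h3 : toZ p (2 * T.dim y - k) * L ^ m = toZ p (2 * T.dim y - k) * E ^ m * toZ p k := by
        have h4 := hpt.2.2.1 k
        have h5 := hpt.2.2.2 k
        rw [show k + 2 * (m : ℤ) = 2 * T.dim y - k by rw [hm]; ring] at h4 h5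
        rw [h5, ← h4, ← mul_assoc, mul_assoc _ (T.Δ y), hgr.Δ_mul]
      have h6 : toZ p k * M * toZ p (2 * T.dim y - k) * L ^ m =
          toZ p k * M * (toZ p (2 * T.dim y - k) * L ^ m) := by simp only [mul_assoc]
      rw [h6, h3]
      have h7 : toZ p k * M * (toZ p (2 * T.dim y - k) * E ^ m * toZ p k) =
          toZ p k * M * toZ p (2 * T.dim y - k) * E ^ m * toZ p k := by simp only [mul_assoc]
      rw [h7, h1]
    have hMd : M ∈ T.Deg y (k - T.dim y) := by
      rw [Deg, add_sub_cancel, ← hl]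
      exact hM
    refine ⟨star (toZ p k * M * toZ p (2 * T.dim y - k)), ?_, ?_, fun _ _ => ?_⟩
    · have h3 := hG.mul (hG.mul (toZ_mem h.ck.1 k) hMd) (toZ_mem h.ck.1 (2 * T.dim y - k))
      rw [zero_add, add_zero] at h3
      exact hG.star h3
    · rw [star_mul, star_mul, toZ_star h.ck, toZ_star h.ck, sub_sub_cancel, ← mul_assoc,
        hgr.idem]
    · have h3 := congrArg star h2
      rw [star_mul, star_pow, gr2_star (toZ_star h.ck) (h.symm E hE), toZ_star h.ck] at h3
      exact h3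
  · exact ⟨0, Submodule.zero_mem _, mul_zero _, fun h1 h2 => absurd ⟨h1, h2⟩ hk⟩

theorem IsLef.data {D : Set T.C} {p : Fin (2 * T.dim y + 1) → T.C} (h : T.IsLef y D p) :
    Nonempty (T.LefData y 1 fun _ => D) := by
  obtain ⟨E, hE⟩ := h.nonempty
  have hgr := toZ_gr h.ck.1
  have hG := deg_mgr (T := T) y
  choose M hM hMl hMi using h.exists_inv hE
  exact ⟨{
    P := toZ p
    P_mem := toZ_mem h.ck.1
    P_gr := hgr
    P_star := toZ_star h.ck
    P_R := fun k => by rw [toZ_coe]; exact h.ck.1.2.2.2 k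
    n := fun _ => T.dim y
    n_sum := by simp
    e := fun _ => toZ p
    e_mem := fun _ => toZ_mem h.ck.1
    e_gr := fun _ => hgr
    weight := by simp
    L := fun _ => gr2 (T.dim y) (toZ p) E
    L_mem := fun _ => gr2_mem hG (toZ_mem h.ck.1) (h.mem E hE)
    L_star := fun _ => gr2_star (toZ_star h.ck) (h.symm E hE)
    L_shift := fun _ k => by rw [gr2_mul hgr, mul_gr2 hgr]
    L_P := fun _ k => by rw [gr2_mul hgr, mul_gr2 hgr]
    M := fun _ => M
    M_mem := fun _ => hM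
    M_left := fun _ => hMl
    M_inv := fun _ => hMi
    comm_LL := fun i j hij => absurd (Subsingleton.elim i j) hij
    comm_Le := fun i j hij => absurd (Subsingleton.elim i j) hij
    comm_ee := fun i j hij => absurd (Subsingleton.elim i j) hij
    comm_ML := fun i j hij => absurd (Subsingleton.elim i j) hij
    comm_Me := fun i j hij => absurd (Subsingleton.elim i j) hij
    D_mem := fun _ F hF => h.mem F hF
    D_star := fun _ F hF => h.symm F hF
    D_fil := fun _ F hF => h.fil' hF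
    D_top := fun _ F hF k => by
      rw [h.same' hF hE k, ← gr2_mul hgr, mul_assoc, gr2_mul hgr, ← mul_assoc, ← mul_assoc,
        hgr.idem] }⟩

end Cycles

end SDCK
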