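import Pool.Agent.LibLF72.ProdL

/-!
# Products of commuting Lefschetz structures
-/

set_option autoImplicit false

namespace SDCK

universe u v

section conv

variable {C : Type u} [Ring C] {Δ : C} {n m : ℕ} {A B : ℤ → C}

theorem sum_supp {M : Type u} [AddCommMonoid M] {f : ℤ → M} {a b c d : ℤ}
    (h : ∀ k, k < a ∨ k < c ∨ b < k ∨ d < k → f k = 0) :
    ∑ k ∈ Finset.Icc a b, f k = ∑ k ∈ Finset.Icc c d, f k := by
  have h1 : ∑ k ∈ Finset.Icc a b ∩ Finset.Icc c d, f k = ∑ k ∈ Finset.Icc a b, f k := by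
    refine Finset.sum_subset Finset.inter_subset_left fun k hk hk' => h k ?_
    rw [Finset.mem_inter, Finset.mem_Icc, Finset.mem_Icc] at hk'
    rw [Finset.mem_Icc] at hk
    by_contra h2
    push Not at h2
    exact hk' ⟨hk, h2.2.1, h2.2.2.2⟩
  have h2 : ∑ k ∈ Finset.Icc a b ∩ Finset.Icc c d, f k = ∑ k ∈ Finset.Icc c d, f k := by
    refine Finset.sum_subset Finset.inter_subset_right fun k hk hk' => h k ?_
    rw [Finset.mem_inter, Finset.mem_Icc, Finset.mem_Icc] at hk'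
    rw [Finset.mem_Icc] at hk
    by_contra h2
    push Not at h2
    exact hk' ⟨⟨h2.1, h2.2.2.1⟩, hk⟩
  rw [← h1, h2]

theorem sum_shift {M : Type u} [AddCommMonoid M] (f : ℤ → M) (a b l : ℤ) :
    ∑ k ∈ Finset.Icc a b, f (k - l) = ∑ k ∈ Finset.Icc (a - l) (b - l), f k := by
  refine Finset.sum_nbij' (fun k => k - l) (fun k => k + l) ?_ ?_ ?_ ?_ ?_
  · intro k hk
    rw [Finset.mem_Icc] at hk ⊢
    omega
  · intro k hk
    rw [Finset.mem_Icc] at hk ⊢
    omega
  · intro k _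
    ring
  · intro k _
    ring
  · intro k _
    rfl

theorem sum_conv {M : Type u} [AddCommMonoid M] (F : ℤ → ℤ → M) (n m : ℕ)
    (h : ∀ l t, t < 0 ∨ 2 * (m : ℤ) < t → F l t = 0) :
    ∑ k ∈ Finset.Icc (0 : ℤ) (2 * ((n + m : ℕ) : ℤ)), ∑ l ∈ Finset.Icc (0 : ℤ) (2 * n), F l (k - l) =
      ∑ l ∈ Finset.Icc (0 : ℤ) (2 * n), ∑ t ∈ Finset.Icc (0 : ℤ) (2 * m), F l t := by
  rw [Finset.sum_comm]
  refine Finset.sum_congr rfl fun l hl => ?_
  rw [Finset.mem_Icc] at hl
  rw [sum_shift (fun t => F l t)]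
  refine sum_supp fun k hk => h l k ?_
  push_cast at hk
  omega

/-- The projectors of a product. -/
noncomputable def conv (n : ℕ) (A B : ℤ → C) (k : ℤ) : C := ∑ l ∈ Finset.Icc (0 : ℤ) (2 * n), A l * B (k - l)

theorem conv_mul_conv (hc : ∀ k l, A k * B l = B l * A k) (X : C)
    (a b : ℤ) (hX : ∀ k, B k * X = X * B k) (hB : ∀ k l, B k * B l = if k = l then B k else 0) :
    conv n A B b * X * conv n A B a = ∑ l ∈ Finset.Icc (0 : ℤ) (2 * n),
      ∑ l' ∈ Finset.Icc (0 : ℤ) (2 * n), if b - l = a - l' then (A l * X * A l') * B (b - l) else 0 := by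
  unfold conv
  rw [Finset.sum_mul, Finset.sum_mul]
  refine Finset.sum_congr rfl fun l _ => ?_
  rw [Finset.mul_sum]
  refine Finset.sum_congr rfl fun l' _ => ?_
  have h1 : A l * B (b - l) * X * (A l' * B (a - l')) = A l * X * A l' * (B (b - l) * B (a - l')) := by
    rw [mul_assoc (A l) (B (b - l)) X, hX]
    simp only [mul_assoc]
    congr 2
    rw [← mul_assoc (B (b - l)) (A l'), ← hc, mul_assoc]
  rw [h1, hB]
  split_ifs with h
  · rfl
  · rw [mul_zero]

theorem conv_mul_conv' (hA : IsGr Δ n A) (hc : ∀ k l, A k * B l = B l * A k) (Y : C)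
    (a b : ℤ) (hY : ∀ k, A k * Y = Y * A k) :
    conv n A B b * Y * conv n A B a = ∑ l ∈ Finset.Icc (0 : ℤ) (2 * n),
      A l * (B (b - l) * Y * B (a - l)) := by
  unfold conv
  rw [Finset.sum_mul, Finset.sum_mul]
  refine Finset.sum_congr rfl fun l hl => ?_
  rw [Finset.mul_sum, Finset.sum_eq_single l]
  · have h1 : A l * B (b - l) * Y * (A l * B (a - l)) = A l * A l * (B (b - l) * Y * B (a - l)) := by
      have h2 : B (b - l) * Y * A l = A l * (B (b - l) * Y) := by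
        rw [mul_assoc, ← hY, ← mul_assoc, ← hc, mul_assoc]
      calc A l * B (b - l) * Y * (A l * B (a - l)) = A l * (B (b - l) * Y * A l) * B (a - l) := by
            simp only [mul_assoc]
        _ = A l * A l * (B (b - l) * Y * B (a - l)) := by
            rw [h2]
            simp only [mul_assoc]
    rw [h1, hA.idem]
  · intro l' _ hne
    have h2 : B (b - l) * Y * A l' = A l' * (B (b - l) * Y) := by
      rw [mul_assoc, ← hY, ← mul_assoc, ← hc, mul_assoc]
    calc A l * B (b - l) * Y * (A l' * B (a - l')) = A l * (B (b - l) * Y * A l') * B (a - l') := by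
          simp only [mul_assoc]
      _ = A l * A l' * (B (b - l) * Y) * B (a - l') := by
          rw [h2]
          simp only [mul_assoc]
      _ = 0 := by rw [hA.ne hne.symm, zero_mul, zero_mul]
  · intro h
    exact absurd hl h

theorem conv_gr (hA : IsGr Δ n A) (hB : IsGr Δ m B) (hc : ∀ k l, A k * B l = B l * A k) :
    IsGr Δ (n + m) (conv n A B) := by
  refine ⟨fun k l => ?_, fun k hk => ?_, ?_⟩
  · have h1 := conv_mul_conv' (B := B) hA hc Δ l k fun t => by rw [hA.mul_Δ, hA.Δ_mul]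
    have h2 : conv n A B k * Δ = conv n A B k := by
      unfold conv
      rw [Finset.sum_mul]
      exact Finset.sum_congr rfl fun t _ => by rw [mul_assoc, hB.mul_Δ]
    rw [h2] at h1
    rw [h1]
    split_ifs with h
    · subst h
      unfold conv
      exact Finset.sum_congr rfl fun t _ => by rw [hB.mul_Δ, hB.idem]
    · refine Finset.sum_eq_zero fun t _ => ?_
      rw [hB.mul_Δ, hB.ne (by omega), mul_zero]
  · unfold conv
    refine Finset.sum_eq_zero fun l hl => ?_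
    rw [Finset.mem_Icc] at hl
    rw [hB.zero _ (by push_cast at hk; omega), mul_zero]
  · have h1 := sum_conv (fun l t => A l * B t) n m fun l t ht => by rw [hB.zero t ht, mul_zero]
    unfold conv
    rw [h1]
    have h2 : ∀ l ∈ Finset.Icc (0 : ℤ) (2 * n), ∑ t ∈ Finset.Icc (0 : ℤ) (2 * m), A l * B t = A l := by
      intro l _
      rw [← Finset.mul_sum, hB.sum, hA.mul_Δ]
    rw [Finset.sum_congr rfl h2, hA.sum]

theorem conv_weight [Algebra ℚ C] (hA : IsGr Δ n A) (hB : IsGr Δ m B) :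
    ∑ k ∈ Finset.Icc (0 : ℤ) (2 * ((n + m : ℕ) : ℤ)), ((k : ℚ) - ((n + m : ℕ) : ℚ)) • conv n A B k =
      ∑ k ∈ Finset.Icc (0 : ℤ) (2 * n), ((k : ℚ) - n) • A k +
        ∑ k ∈ Finset.Icc (0 : ℤ) (2 * m), ((k : ℚ) - m) • B k := by
  have h1 := sum_conv (fun l t => (((l : ℚ) - n) + ((t : ℚ) - m)) • (A l * B t)) n m
    fun l t ht => by rw [hB.zero t ht, mul_zero, smul_zero]
  have h2 : ∑ k ∈ Finset.Icc (0 : ℤ) (2 * ((n + m : ℕ) : ℤ)),
      ((k : ℚ) - ((n + m : ℕ) : ℚ)) • conv n A B k =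
      ∑ k ∈ Finset.Icc (0 : ℤ) (2 * ((n + m : ℕ) : ℤ)), ∑ l ∈ Finset.Icc (0 : ℤ) (2 * n),
        (((l : ℚ) - n) + (((k - l : ℤ) : ℚ) - m)) • (A l * B (k - l)) := by
    refine Finset.sum_congr rfl fun k _ => ?_
    unfold conv
    rw [Finset.smul_sum]
    refine Finset.sum_congr rfl fun l _ => ?_
    congr 1
    push_cast
    ring
  rw [h2, h1]
  have h3 : ∀ l ∈ Finset.Icc (0 : ℤ) (2 * n), ∑ t ∈ Finset.Icc (0 : ℤ) (2 * m),
      (((l : ℚ) - n) + ((t : ℚ) - m)) • (A l * B t) =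
      ((l : ℚ) - n) • A l + A l * ∑ t ∈ Finset.Icc (0 : ℤ) (2 * m), ((t : ℚ) - m) • B t := by
    intro l _
    have h4 : ∀ t ∈ Finset.Icc (0 : ℤ) (2 * m), (((l : ℚ) - n) + ((t : ℚ) - m)) • (A l * B t) =
        ((l : ℚ) - n) • (A l * B t) + A l * (((t : ℚ) - m) • B t) := by
      intro t _
      rw [add_smul, mul_smul_comm]
    rw [Finset.sum_congr rfl h4, Finset.sum_add_distrib, ← Finset.smul_sum, ← Finset.mul_sum, hB.sum,
      hA.mul_Δ, ← Finset.mul_sum]
  rw [Finset.sum_congr rfl h3, Finset.sum_add_distrib, ← Finset.sum_mul, hA.sum, Finset.mul_sum]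
  congr 1
  refine Finset.sum_congr rfl fun t _ => ?_
  rw [mul_smul_comm, hB.Δ_mul]

theorem conv_star [StarRing C] (hA : ∀ k, star (A k) = A (2 * n - k))
    (hB : ∀ k, star (B k) = B (2 * m - k)) (hc : ∀ k l, A k * B l = B l * A k) (k : ℤ) :
    star (conv n A B k) = conv n A B (2 * ((n + m : ℕ) : ℤ) - k) := by
  unfold conv
  rw [star_sum]
  refine Finset.sum_nbij' (fun l => 2 * n - l) (fun l => 2 * n - l) ?_ ?_ ?_ ?_ ?_
  · intro l hl
    rw [Finset.mem_Icc] at hl ⊢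
    omega
  · intro l hl
    rw [Finset.mem_Icc] at hl ⊢
    omega
  · intro l _
    ring
  · intro l _
    ring
  · intro l _
    rw [star_mul, hA, hB, ← hc]
    congr 2
    push_cast
    ring

theorem conv_shift (hA : IsGr Δ n A) (X : C) (hX : ∀ k, X * A k = A (k + 2) * X)
    (hXB : ∀ k, B k * X = X * B k) (k : ℤ) : X * conv n A B k = conv n A B (k + 2) * X := by
  unfold conv
  rw [Finset.mul_sum, Finset.sum_mul]
  have h1 : ∑ l ∈ Finset.Icc (0 : ℤ) (2 * n), A l * B (k + 2 - l) * X =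
      ∑ l ∈ Finset.Icc (0 : ℤ) (2 * n), (fun t => X * (A t * B (k - t))) (l - 2) := by
    refine Finset.sum_congr rfl fun l _ => ?_
    have h2 := hX (l - 2)
    rw [sub_add_cancel] at h2
    simp only
    rw [mul_assoc, hXB, ← mul_assoc, ← h2, mul_assoc]
    congr 3
    ring
  rw [h1, sum_shift (fun t => X * (A t * B (k - t)))]
  refine sum_supp fun t ht => ?_
  rw [← mul_assoc]
  by_cases h3 : t < 0
  · rw [hA.zero t (Or.inl h3), mul_zero, zero_mul]
  · rw [hX, hA.zero (t + 2) (by omega), zero_mul, zero_mul]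

theorem conv_shift' (X : C) (hX : ∀ k, X * B k = B (k + 2) * X)
    (hXA : ∀ k, A k * X = X * A k) (k : ℤ) : X * conv n A B k = conv n A B (k + 2) * X := by
  unfold conv
  rw [Finset.mul_sum, Finset.sum_mul]
  refine Finset.sum_congr rfl fun l _ => ?_
  have h2 := hX (k - l)
  rw [← mul_assoc, ← hXA, mul_assoc, h2, ← mul_assoc]
  congr 3
  ring

end conv

namespace Cycles

variable {T : Cycles.{u, v}}

section maps

variable {i j y : T.ι} {θ θ' : T.C →ₗ[ℚ] T.C}

theorem IsProdL.deg (hθ : T.IsProdL i j y θ θ') {r : ℤ} {a : T.C} (ha : a ∈ T.Deg i r) :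
    θ a ∈ T.Deg y r := hθ.mem r a ha

theorem IsProdL.deg' (hθ : T.IsProdL i j y θ θ') {r : ℤ} {a : T.C} (ha : a ∈ T.Deg j r) :
    θ' a ∈ T.Deg y r := hθ.mem' r a ha

theorem IsProdL.map_mul (hθ : T.IsProdL i j y θ θ') {r s : ℤ} {a b : T.C} (ha : a ∈ T.Deg i r)
    (hb : b ∈ T.Deg i s) : θ (a * b) = θ a * θ b := hθ.mul _ _ a ha b hb

theorem IsProdL.map_mul' (hθ : T.IsProdL i j y θ θ') {r s : ℤ} {a b : T.C} (ha : a ∈ T.Deg j r)
    (hb : b ∈ T.Deg j s) : θ' (a * b) = θ' a * θ' b := hθ.mul' _ _ a ha b hb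

theorem IsProdL.map_comm (hθ : T.IsProdL i j y θ θ') {r s : ℤ} {a b : T.C} (ha : a ∈ T.Deg i r)
    (hb : b ∈ T.Deg j s) : θ a * θ' b = θ' b * θ a := hθ.comm _ _ a ha b hb

theorem IsProdL.map_pow (hθ : T.IsProdL i j y θ θ') {r s : ℤ} {a b : T.C} (ha : a ∈ T.Deg i r)
    (hb : b ∈ T.Deg i s) (t : ℕ) : θ (a ^ t * b) = θ a ^ t * θ b ∧ ∃ q, a ^ t * b ∈ T.Deg i q := by
  induction t with
  | zero => exact ⟨by simp, s, by simpa using hb⟩
  | succ t ih =>
    obtain ⟨h1, q, h2⟩ := ih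
    refine ⟨?_, r + q, ?_⟩
    · rw [pow_succ', mul_assoc, hθ.map_mul ha h2, h1, pow_succ', mul_assoc]
    · rw [pow_succ', mul_assoc]
      exact (deg_mgr i).mul ha h2

theorem IsProdL.map_pow' (hθ : T.IsProdL i j y θ θ') {r s : ℤ} {a b : T.C} (ha : a ∈ T.Deg j r)
    (hb : b ∈ T.Deg j s) (t : ℕ) : θ' (a ^ t * b) = θ' a ^ t * θ' b ∧ ∃ q, a ^ t * b ∈ T.Deg j q := by
  induction t with
  | zero => exact ⟨by simp, s, by simpa using hb⟩
  | succ t ih =>
    obtain ⟨h1, q, h2⟩ := ih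
    refine ⟨?_, r + q, ?_⟩
    · rw [pow_succ', mul_assoc, hθ.map_mul' ha h2, h1, pow_succ', mul_assoc]
    · rw [pow_succ', mul_assoc]
      exact (deg_mgr j).mul ha h2

theorem IsProdL.gr (hθ : T.IsProdL i j y θ θ') {n : ℕ} {P : ℤ → T.C} (hP : IsGr (T.Δ i) n P)
    (hm : ∀ k, P k ∈ T.Deg i 0) : IsGr (T.Δ y) n fun k => θ (P k) := by
  refine ⟨fun k l => ?_, fun k hk => ?_, ?_⟩
  · rw [← hθ.map_mul (hm k) (hm l), hP.ortho]
    split_ifs
    · rfl
    · rw [map_zero]
  · rw [hP.zero k hk, map_zero]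
  · rw [← map_sum, hP.sum, hθ.one]

theorem IsProdL.gr' (hθ : T.IsProdL i j y θ θ') {n : ℕ} {P : ℤ → T.C} (hP : IsGr (T.Δ j) n P)
    (hm : ∀ k, P k ∈ T.Deg j 0) : IsGr (T.Δ y) n fun k => θ' (P k) := by
  refine ⟨fun k l => ?_, fun k hk => ?_, ?_⟩
  · rw [← hθ.map_mul' (hm k) (hm l), hP.ortho]
    split_ifs
    · rfl
    · rw [map_zero]
  · rw [hP.zero k hk, map_zero]
  · rw [← map_sum, hP.sum, hθ.one']

end maps

section prod

variable {i j y : T.ι} {s : ℕ} {D : Fin s → Set T.C} {D' : Fin 1 → Set T.C}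
  {θ θ' : T.C →ₗ[ℚ] T.C}

/-- The projectors of the product. -/
noncomputable def prodP (h : T.LefData i s D) (h' : T.LefData j 1 D') (θ θ' : T.C →ₗ[ℚ] T.C)
    (k : ℤ) : T.C := conv (T.dim i) (fun l => θ (h.P l)) (fun l => θ' (h'.P l)) k

theorem prodP_comm (h : T.LefData i s D) (h' : T.LefData j 1 D') (hθ : T.IsProdL i j y θ θ')
    (k l : ℤ) : θ (h.P k) * θ' (h'.P l) = θ' (h'.P l) * θ (h.P k) :=
  hθ.map_comm (h.P_mem k) (h'.P_mem l)

theorem prodP_R (h : T.LefData i s D) (h' : T.LefData j 1 D') (hθ : T.IsProdL i j y θ θ')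
    (k : Fin (2 * T.dim y + 1)) : T.R (prodP h h' θ θ' ((k : ℕ) : ℤ)) = T.π y k := by
  rw [← hθ.kunneth _ _ h.ck.1 h'.ck.1 k]
  congr 1
  unfold prodP conv
  rw [sum_Icc_eq (y := i) (fun l => θ (h.P l) * θ' (h'.P (((k : ℕ) : ℤ) - l)))]
  refine Finset.sum_congr rfl fun l _ => ?_
  by_cases hl : 0 ≤ ((k : ℕ) : ℤ) - (l : ℕ) ∧ ((k : ℕ) : ℤ) - (l : ℕ) ≤ 2 * T.dim j
  · rw [Finset.sum_eq_single (⟨(k : ℕ) - (l : ℕ), by omega⟩ : Fin (2 * T.dim j + 1))]
    · rw [if_pos (by simp only; omega)]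
      congr 3
      simp only
      omega
    · intro m _ hm
      rw [if_neg]
      intro h1
      apply hm
      ext
      simp only
      omega
    · intro h1
      exact absurd (Finset.mem_univ _) h1
  · rw [h'.P_gr.zero _ (by omega), map_zero, mul_zero]
    symm
    refine Finset.sum_eq_zero fun m _ => ?_
    rw [if_neg]
    intro h1
    have := m.isLt
    omega

/-- The product of two Lefschetz structures. -/
noncomputable def LefData.prod (h : T.LefData i s D) (h' : T.LefData j 1 D')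
    (hθ : T.IsProdL i j y θ θ') :
    T.LefData y (s + 1) (Fin.cons (θ' '' D' 0) fun l => θ '' D l) where
  P := prodP h h' θ θ'
  P_mem k := by
    unfold prodP conv
    refine Submodule.sum_mem _ fun l _ => ?_
    have := (deg_mgr y).mul (hθ.deg (h.P_mem l)) (hθ.deg' (h'.P_mem (k - l)))
    rwa [add_zero] at this
  P_gr := by
    have := conv_gr (hθ.gr h.P_gr h.P_mem) (hθ.gr' h'.P_gr h'.P_mem) (prodP_comm h h' hθ)
    rw [hθ.dim]
    exact this
  P_star k := by
    have := conv_star (n := T.dim i) (m := T.dim j) (A := fun l => θ (h.P l))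
      (B := fun l => θ' (h'.P l)) (fun k => by rw [← hθ.star_eq _ _ (h.P_mem k), h.P_star])
      (fun k => by rw [← hθ.star_eq' _ _ (h'.P_mem k), h'.P_star]) (prodP_comm h h' hθ) k
    rw [hθ.dim]
    exact this
  P_R := prodP_R h h' hθ
  n := Fin.cons (h'.n 0) h.n
  n_sum := by
    have h1 := h'.n_sum
    rw [Fin.sum_univ_one] at h1
    rw [Fin.sum_univ_succ, Fin.cons_zero]
    simp only [Fin.cons_succ]
    rw [h.n_sum, h1, hθ.dim, add_comm]
  e := Fin.cons (fun k => θ' (h'.e 0 k)) fun l k => θ (h.e l k)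
  e_mem := by
    refine Fin.cases (fun k => ?_) fun l k => ?_
    · exact hθ.deg' (h'.e_mem 0 k)
    · exact hθ.deg (h.e_mem l k)
  e_gr := by
    refine Fin.cases ?_ fun l => ?_
    · exact hθ.gr' (h'.e_gr 0) (h'.e_mem 0)
    · exact hθ.gr (h.e_gr l) (h.e_mem l)
  weight := by
    have h1 := conv_weight (hθ.gr h.P_gr h.P_mem) (hθ.gr' h'.P_gr h'.P_mem)
    have h2 := congrArg θ h.weight
    have h3 := congrArg θ' h'.weight
    rw [Fin.sum_univ_one] at h3
    simp only [map_sum, map_smul] at h2 h3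
    rw [Fin.sum_univ_succ]
    simp only [Fin.cons_zero, Fin.cons_succ]
    rw [h2, h3, hθ.dim]
    exact (add_comm _ _).trans h1.symm
  L := Fin.cons (θ' (h'.L 0)) fun l => θ (h.L l)
  L_mem := by
    refine Fin.cases ?_ fun l => ?_
    · exact hθ.deg' (h'.L_mem 0)
    · exact hθ.deg (h.L_mem l)
  L_star := by
    refine Fin.cases ?_ fun l => ?_
    · simp only [Fin.cons_zero]
      rw [← hθ.star_eq' _ _ (h'.L_mem 0), h'.L_star]
    · simp only [Fin.cons_succ]
      rw [← hθ.star_eq _ _ (h.L_mem l), h.L_star]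
  L_shift := by
    refine Fin.cases (fun k => ?_) fun l k => ?_
    · simp only [Fin.cons_zero]
      rw [← hθ.map_mul' (h'.L_mem 0) (h'.e_mem 0 k), h'.L_shift,
        hθ.map_mul' (h'.e_mem 0 (k + 2)) (h'.L_mem 0)]
    · simp only [Fin.cons_succ]
      rw [← hθ.map_mul (h.L_mem l) (h.e_mem l k), h.L_shift,
        hθ.map_mul (h.e_mem l (k + 2)) (h.L_mem l)]
  L_P := by
    refine Fin.cases (fun k => ?_) fun l k => ?_
    · simp only [Fin.cons_zero]
      refine conv_shift' _ (fun t => ?_) (fun t => ?_) k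
      · rw [← hθ.map_mul' (h'.L_mem 0) (h'.P_mem t), h'.L_P,
          hθ.map_mul' (h'.P_mem (t + 2)) (h'.L_mem 0)]
      · exact hθ.map_comm (h.P_mem t) (h'.L_mem 0)
    · simp only [Fin.cons_succ]
      refine conv_shift (hθ.gr h.P_gr h.P_mem) _ (fun t => ?_) (fun t => ?_) k
      · rw [← hθ.map_mul (h.L_mem l) (h.P_mem t), h.L_P,
          hθ.map_mul (h.P_mem (t + 2)) (h.L_mem l)]
      · exact (hθ.map_comm (h.L_mem l) (h'.P_mem t)).symm
  M := Fin.cons (fun k => θ' (h'.M 0 k)) fun l k => θ (h.M l k)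
  M_mem := by
    refine Fin.cases (fun k => ?_) fun l k => ?_
    · exact hθ.deg' (h'.M_mem 0 k)
    · exact hθ.deg (h.M_mem l k)
  M_left := by
    refine Fin.cases (fun k => ?_) fun l k => ?_
    · simp only [Fin.cons_zero]
      rw [← hθ.map_mul' (h'.e_mem 0 k) (h'.M_mem 0 k), h'.M_left]
    · simp only [Fin.cons_succ]
      rw [← hθ.map_mul (h.e_mem l k) (h.M_mem l k), h.M_left]
  M_inv := by
    refine Fin.cases (fun k hk hk' => ?_) fun l k hk hk' => ?_
    · simp only [Fin.cons_zero] at hk' ⊢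
      rw [← (hθ.map_pow' (h'.L_mem 0) (h'.M_mem 0 k) _).1, h'.M_inv 0 k hk hk']
    · simp only [Fin.cons_succ] at hk' ⊢
      rw [← (hθ.map_pow (h.L_mem l) (h.M_mem l k) _).1, h.M_inv l k hk hk']
  comm_LL := by
    refine Fin.cases (Fin.cases (fun h0 => absurd rfl h0) fun l _ => ?_)
      fun l => Fin.cases (fun _ => ?_) fun l' hne => ?_
    · simp only [Fin.cons_zero, Fin.cons_succ]
      exact (hθ.map_comm (h.L_mem l) (h'.L_mem 0)).symm
    · simp only [Fin.cons_zero, Fin.cons_succ]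
      exact hθ.map_comm (h.L_mem l) (h'.L_mem 0)
    · simp only [Fin.cons_succ]
      rw [← hθ.map_mul (h.L_mem l) (h.L_mem l'), h.comm_LL l l' fun h0 => hne (by rw [h0]),
        hθ.map_mul (h.L_mem l') (h.L_mem l)]
  comm_Le := by
    refine Fin.cases (Fin.cases (fun h0 => absurd rfl h0) fun l _ k => ?_)
      fun l => Fin.cases (fun _ k => ?_) fun l' hne k => ?_
    · simp only [Fin.cons_zero, Fin.cons_succ]
      exact (hθ.map_comm (h.e_mem l k) (h'.L_mem 0)).symm
    · simp only [Fin.cons_zero, Fin.cons_succ]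
      exact hθ.map_comm (h.L_mem l) (h'.e_mem 0 k)
    · simp only [Fin.cons_succ]
      rw [← hθ.map_mul (h.L_mem l) (h.e_mem l' k), h.comm_Le l l' (fun h0 => hne (by rw [h0])) k,
        hθ.map_mul (h.e_mem l' k) (h.L_mem l)]
  comm_ee := by
    refine Fin.cases (Fin.cases (fun h0 => absurd rfl h0) fun l _ k k' => ?_)
      fun l => Fin.cases (fun _ k k' => ?_) fun l' hne k k' => ?_
    · simp only [Fin.cons_zero, Fin.cons_succ]
      exact (hθ.map_comm (h.e_mem l k') (h'.e_mem 0 k)).symm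
    · simp only [Fin.cons_zero, Fin.cons_succ]
      exact hθ.map_comm (h.e_mem l k) (h'.e_mem 0 k')
    · simp only [Fin.cons_succ]
      rw [← hθ.map_mul (h.e_mem l k) (h.e_mem l' k'),
        h.comm_ee l l' (fun h0 => hne (by rw [h0])) k k',
        hθ.map_mul (h.e_mem l' k') (h.e_mem l k)]
  comm_ML := by
    refine Fin.cases (Fin.cases (fun h0 => absurd rfl h0) fun l _ k => ?_)
      fun l => Fin.cases (fun _ k => ?_) fun l' hne k => ?_
    · simp only [Fin.cons_zero, Fin.cons_succ]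
      exact (hθ.map_comm (h.L_mem l) (h'.M_mem 0 k)).symm
    · simp only [Fin.cons_zero, Fin.cons_succ]
      exact hθ.map_comm (h.M_mem l k) (h'.L_mem 0)
    · simp only [Fin.cons_succ]
      rw [← hθ.map_mul (h.M_mem l k) (h.L_mem l'), h.comm_ML l l' (fun h0 => hne (by rw [h0])) k,
        hθ.map_mul (h.L_mem l') (h.M_mem l k)]
  comm_Me := by
    refine Fin.cases (Fin.cases (fun h0 => absurd rfl h0) fun l _ k k' => ?_)
      fun l => Fin.cases (fun _ k k' => ?_) fun l' hne k k' => ?_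
    · simp only [Fin.cons_zero, Fin.cons_succ]
      exact (hθ.map_comm (h.e_mem l k') (h'.M_mem 0 k)).symm
    · simp only [Fin.cons_zero, Fin.cons_succ]
      exact hθ.map_comm (h.M_mem l k) (h'.e_mem 0 k')
    · simp only [Fin.cons_succ]
      rw [← hθ.map_mul (h.M_mem l k) (h.e_mem l' k'),
        h.comm_Me l l' (fun h0 => hne (by rw [h0])) k k',
        hθ.map_mul (h.e_mem l' k') (h.M_mem l k)]
  D_mem := by
    refine Fin.cases (fun E hE => ?_) fun l E hE => ?_
    · obtain ⟨E, hE, rfl⟩ := hE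
      exact hθ.deg' (h'.D_mem 0 E hE)
    · obtain ⟨E, hE, rfl⟩ := hE
      exact hθ.deg (h.D_mem l E hE)
  D_star := by
    refine Fin.cases (fun E hE => ?_) fun l E hE => ?_
    · obtain ⟨E, hE, rfl⟩ := hE
      rw [← hθ.star_eq' _ _ (h'.D_mem 0 E hE), h'.D_star 0 E hE]
    · obtain ⟨E, hE, rfl⟩ := hE
      rw [← hθ.star_eq _ _ (h.D_mem l E hE), h.D_star l E hE]
  D_fil := by
    refine Fin.cases (fun E hE => ?_) fun l E hE => ?_
    · obtain ⟨E, hE, rfl⟩ := hE
      intro a b hab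
      refine (conv_mul_conv' (hθ.gr h.P_gr h.P_mem) (prodP_comm h h' hθ) (θ' E) a b
        fun t => hθ.map_comm (h.P_mem t) (h'.D_mem 0 E hE)).trans ?_
      refine Finset.sum_eq_zero fun t _ => ?_
      have h1 := h'.D_fil 0 E hE (a - t) (b - t) (by omega)
      have h2 := congrArg θ' h1
      rw [map_zero, hθ.map_mul' ((deg_mgr j).mul (h'.P_mem _) (h'.D_mem 0 E hE)) (h'.P_mem _),
        hθ.map_mul' (h'.P_mem _) (h'.D_mem 0 E hE)] at h2
      rw [h2, mul_zero]
    · obtain ⟨E, hE, rfl⟩ := hE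
      intro a b hab
      refine (conv_mul_conv (prodP_comm h h' hθ) (θ E) a b
        (fun t => (hθ.map_comm (h.D_mem l E hE) (h'.P_mem t)).symm)
        (hθ.gr' h'.P_gr h'.P_mem).ortho).trans ?_
      refine Finset.sum_eq_zero fun t _ => Finset.sum_eq_zero fun t' _ => ?_
      split_ifs with h0
      · have h1 := h.D_fil l E hE t' t (by omega)
        have h2 := congrArg θ h1
        rw [map_zero, hθ.map_mul ((deg_mgr i).mul (h.P_mem _) (h.D_mem l E hE)) (h.P_mem _),
          hθ.map_mul (h.P_mem _) (h.D_mem l E hE)] at h2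
        rw [h2, zero_mul]
      · rfl
  D_top := by
    refine Fin.cases (fun E hE k => ?_) fun l E hE k => ?_
    · obtain ⟨E, hE, rfl⟩ := hE
      refine (conv_mul_conv' (hθ.gr h.P_gr h.P_mem) (prodP_comm h h' hθ) (θ' E) k (k + 2)
        fun t => hθ.map_comm (h.P_mem t) (h'.D_mem 0 E hE)).trans ?_
      refine Eq.trans ?_ (conv_mul_conv' (hθ.gr h.P_gr h.P_mem) (prodP_comm h h' hθ)
        (θ' (h'.L 0)) k (k + 2) fun t => hθ.map_comm (h.P_mem t) (h'.L_mem 0)).symm
      refine Finset.sum_congr rfl fun t _ => ?_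
      have h1 := h'.D_top 0 E hE (k - t)
      have h2 := congrArg θ' h1
      rw [hθ.map_mul' ((deg_mgr j).mul (h'.P_mem _) (h'.D_mem 0 E hE)) (h'.P_mem _),
        hθ.map_mul' (h'.P_mem _) (h'.D_mem 0 E hE),
        hθ.map_mul' ((deg_mgr j).mul (h'.P_mem _) (h'.L_mem 0)) (h'.P_mem _),
        hθ.map_mul' (h'.P_mem _) (h'.L_mem 0)] at h2
      have h3 : k + 2 - t = k - t + 2 := by ring
      rw [h3, h2]
    · obtain ⟨E, hE, rfl⟩ := hE
      refine (conv_mul_conv (prodP_comm h h' hθ) (θ E) k (k + 2)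
        (fun t => (hθ.map_comm (h.D_mem l E hE) (h'.P_mem t)).symm)
        (hθ.gr' h'.P_gr h'.P_mem).ortho).trans ?_
      refine Eq.trans ?_ (conv_mul_conv (prodP_comm h h' hθ)
        (θ (h.L l)) k (k + 2)
        (fun t => (hθ.map_comm (h.L_mem l) (h'.P_mem t)).symm)
        (hθ.gr' h'.P_gr h'.P_mem).ortho).symm
      refine Finset.sum_congr rfl fun t _ => Finset.sum_congr rfl fun t' _ => ?_
      split_ifs with h0
      · have h3 : t = t' + 2 := by omega
        subst h3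
        have h1 := h.D_top l E hE t'
        have h2 := congrArg θ h1
        rw [hθ.map_mul ((deg_mgr i).mul (h.P_mem _) (h.D_mem l E hE)) (h.P_mem _),
          hθ.map_mul (h.P_mem _) (h.D_mem l E hE),
          hθ.map_mul ((deg_mgr i).mul (h.P_mem _) (h.L_mem l)) (h.P_mem _),
          hθ.map_mul (h.P_mem _) (h.L_mem l)] at h2
        rw [h2]
      · rfl

end prod

end Cycles

end SDCK
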