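import Pool.Agent.LibLF72.Mixed

/-!
# The section step for cycles
-/

set_option autoImplicit false

namespace SDCK

universe u v

namespace Cycles

variable {T : Cycles.{u, v}} {x y : T.ι} {s : ℕ} {D : Fin s → Set T.C}

theorem LefData.Δ_mem (T : Cycles.{u, v}) (y : T.ι) : T.Δ y ∈ T.Deg y 0 := by
  rw [Deg, add_zero]
  exact T.Δ_mem y

/-- two lists with the same graded components -/
theorem LefData.same_list (h : T.LefData y s D) {k : ℤ} {M : T.C}
    (hM : M * h.P (2 * T.dim y - k) = M) {E E' E₀ : List T.C}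
    (hE : List.Forall₂ h.Combo E E₀) (hE' : List.Forall₂ h.Combo E' E₀)
    (hlen : (E.length : ℤ) = T.dim y - k) :
    M * (E.prod * T.Δ y) * h.P k = M * (E'.prod * T.Δ y) * h.P k := by
  have h1 := h.list_top hE k
  have h2 := h.list_top hE' k
  have hl : E'.length = E.length := by rw [hE.length_eq, hE'.length_eq]
  rw [hl] at h2
  rw [show k + 2 * (E.length : ℤ) = 2 * T.dim y - k by rw [hlen]; ring] at h1 h2
  have e : ∀ Z : T.C, M * Z * h.P k = M * (h.P (2 * T.dim y - k) * Z * h.P k) := fun Z => by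
    conv_lhs => rw [← hM]
    simp only [mul_assoc]
  rw [e, e, h1, h2]

theorem LefData.inv_fil (h : T.LefData y s D) {k : ℤ} {M : T.C} (hkM : h.P k * M = M)
    (hM : M * h.P (2 * T.dim y - k) = M) : Fil h.P h.P (k - T.dim y) M := by
  intro a b hab
  by_cases hb : b = k
  · subst hb
    have h1 : h.P b * M * h.P a = h.P b * M * (h.P (2 * T.dim y - b) * h.P a) := by
      conv_lhs => rw [← hM]
      simp only [mul_assoc]
    rw [h1, h.P_gr.ne (by omega), mul_zero]
  · rw [← hkM, ← mul_assoc, h.P_gr.ne hb, zero_mul, zero_mul]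

theorem forall₂_ofFn {A B : Type*} {r : A → B → Prop} {t : ℕ} (f : Fin t → A) (g : Fin t → B)
    (h : ∀ l, r (f l) (g l)) : List.Forall₂ r (List.ofFn f) (List.ofFn g) := by
  induction t with
  | zero => simp
  | succ t ih =>
    rw [List.ofFn_succ, List.ofFn_succ]
    exact .cons (h 0) (ih _ _ fun l => h l.succ)

theorem sect_lef (hdeg : T.Small) (h : T.LefData y s D) (t : ℕ) (ht : T.dim x + t = T.dim y)
    (a : T.C) (ha : a ∈ T.CH y x (T.dim y)) (c : ℚ) (hc : c ≠ 0) (r : Fin t → Fin s → ℚ)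
    (hr : ∀ l j, 0 < r l j) (L : Fin t → Fin s → T.C) (hL : ∀ l j, L l j ∈ D j)
    (hsect : star a * a = c • (List.ofFn fun l => ∑ j, r l j • L l j).prod * T.Δ y)
    (hweak : ∀ k : Fin (2 * T.dim x + 1), (k : ℕ) < T.dim x → ∃ b : T.H, T.π x k = T.R a * b)
    (r' : Fin s → ℚ) (hr' : ∀ j, 0 < r' j) (D' : Set T.C) (hne : D'.Nonempty)
    (hD' : ∀ E ∈ D', E ∈ T.CH x x (T.dim x + 1) ∧ star E = E ∧
      ∃ L' : Fin s → T.C, (∀ j, L' j ∈ D j) ∧ E * a = a * ∑ j, r' j • L' j) :
    ∃ p, T.IsLef x D' p := by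
  have hG := deg_mgr (T := T) y
  have hG' := deg_mgr (T := T) x
  obtain ⟨E₁, hE₁⟩ := hne
  obtain ⟨hE₁m, hE₁s, L₁, hL₁, hE₁a⟩ := hD' E₁ hE₁
  set F : T.C := ∑ j, r' j • L₁ j with hF
  set F₀ : T.C := ∑ j, r' j • h.L j with hF₀
  have hcombo : ∀ L' : Fin s → T.C, (∀ j, L' j ∈ D j) → h.Combo (∑ j, r' j • L' j) F₀ :=
    fun L' hL' => ⟨r', hr', L', hL', rfl, rfl⟩
  have hFc : h.Combo F F₀ := hcombo L₁ hL₁
  set W : List T.C := List.ofFn fun l => ∑ j, r l j • L l j with hW
  set W₀ : List T.C := List.ofFn fun l => ∑ j, r l j • h.L j with hW₀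
  have hWW : List.Forall₂ h.Combo W W₀ :=
    forall₂_ofFn _ _ fun l => ⟨_, hr l, _, hL l, rfl, rfl⟩
  have hWl : W.length = t := by rw [hW, List.length_ofFn]
  have hrep : ∀ (i : ℕ) (L' : Fin s → T.C), (∀ j, L' j ∈ D j) →
      List.Forall₂ h.Combo (List.replicate i (∑ j, r' j • L' j)) (List.replicate i F₀) := by
    intro i L' hL'
    induction i with
    | zero => simp
    | succ i ih => rw [List.replicate_succ, List.replicate_succ]; exact .cons (hcombo L' hL') ih
  -- `w`
  set w : T.C := star a * a with hw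
  have hwW : w = c • (W.prod * T.Δ y) := by rw [hsect, smul_mul_assoc]
  have htn : (t : ℤ) = T.dim y - T.dim x := by rw [← ht]; push_cast; ring
  have hWm : W.prod * T.Δ y ∈ T.Deg y (T.dim y - T.dim x) := by
    have h1 := h.list_mem hWW
    rwa [hWl, htn] at h1
  have hwm : w ∈ T.Deg y (T.dim y - T.dim x) := by
    rw [hwW]
    exact Submodule.smul_mem _ _ hWm
  have hwf : Fil h.P h.P (T.dim y - T.dim x) w := by
    rw [hwW]
    have h1 := h.list_fil hWW
    rw [hWl, htn] at h1
    exact h1.smul c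
  have hws : star w = w := by rw [hw, star_mul, star_star]
  -- left inverses of `w`
  have hs : ∀ k : ℤ, ∃ sk : T.C, 0 ≤ k → k < T.dim x →
      sk ∈ T.Deg y (-(T.dim y - T.dim x)) ∧ h.P k * sk = sk ∧
      Fil h.P h.P (-(T.dim y - T.dim x)) sk ∧ sk * w * h.P k = h.P k := by
    intro k
    by_cases hk : 0 ≤ k ∧ k < T.dim x
    · obtain ⟨hk0, hkd⟩ := hk
      set i : ℕ := (T.dim x - k).toNat with hi
      have hi' : (i : ℤ) = T.dim x - k := by omega
      have hR := hrep i L₁ hL₁
      have hRW : List.Forall₂ h.Combo (List.replicate i F ++ W) (List.replicate i F₀ ++ W₀) :=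
        List.rel_append hR hWW
      obtain ⟨M, hM, hkM, hMk, hMP⟩ := h.mixed hk0 (by omega) hRW (by
        rw [List.length_append, List.length_replicate, hWl]
        push_cast
        rw [hi', htn]
        ring)
      rw [List.prod_append, List.prod_replicate] at hMP
      have hFm : F ^ i * T.Δ y ∈ T.Deg y i := by
        have h1 := h.list_mem hR
        rwa [List.prod_replicate, List.length_replicate] at h1
      have hFf : Fil h.P h.P i (F ^ i * T.Δ y) := by
        have h1 := h.list_fil hR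
        rwa [List.prod_replicate, List.length_replicate] at h1
      refine ⟨c⁻¹ • (M * (F ^ i * T.Δ y)), fun _ _ => ⟨?_, ?_, ?_, ?_⟩⟩
      · have h1 := hG.mul hM hFm
        rw [show k - T.dim y + (i : ℤ) = -(T.dim y - T.dim x) by rw [hi']; ring] at h1
        exact Submodule.smul_mem _ _ h1
      · rw [mul_smul_comm, ← mul_assoc, hkM]
      · have h1 := Fil.mul h.P_gr (h.inv_fil hkM hMk) hFf (hG.left hFm)
        rw [show k - T.dim y + (i : ℤ) = -(T.dim y - T.dim x) by rw [hi']; ring] at h1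
        exact h1.smul _
      · rw [hwW, smul_mul_assoc, mul_smul_comm, smul_mul_assoc, smul_mul_assoc, smul_smul,
          inv_mul_cancel₀ hc, one_smul]
        have h1 : M * (F ^ i * T.Δ y) * (W.prod * T.Δ y) * h.P k =
            M * (F ^ i * (T.Δ y * (W.prod * T.Δ y))) * h.P k := by simp only [mul_assoc]
        rw [h1, hG.left hWm]
        have h2 : M * (F ^ i * (W.prod * T.Δ y)) * h.P k =
            M * (F ^ i * W.prod * T.Δ y) * h.P k := by simp only [mul_assoc]
        rw [h2, hMP]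
    · exact ⟨0, fun h1 h2 => absurd ⟨h1, h2⟩ hk⟩
  choose sk hsk using hs
  obtain ⟨σ, hσm, hσl, hσi, hσf, hσo⟩ := exists_sigma hG (n := T.dim y) (d := T.dim x)
    (by omega) h.P_gr h.P_mem h.P_star hwm hws hwf sk hsk
  have hxn : ∀ (r : ℤ), ∀ g ∈ T.Deg y r, a * g * star a ∈ T.Deg x (r + (T.dim y - T.dim x)) := by
    intro r g hg
    have h1 := T.mul_mem (T.mul_mem ha hg) (T.star_mem ha)
    rw [show (T.dim y : ℤ) + (T.dim y + r) - T.dim y + T.dim y - T.dim y =
      T.dim x + (r + (T.dim y - T.dim x)) by ring] at h1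
    exact h1
  have hS : Sect (T.Δ y) (T.Δ x) (T.Deg y) (T.Deg x) (T.dim y) (T.dim x) h.P a σ :=
    { hG := hG
      hG' := hG'
      dn := by omega
      P_gr := h.P_gr
      P_mem := h.P_mem
      P_star := h.P_star
      Δ'_mem := LefData.Δ_mem T x
      Δ'_star := star_Δ x
      conj := hxn
      right := T.mul_Δ ha
      left := T.Δ_mul ha
      w_mem := hwm
      w_fil := hwf
      σ_mem := hσm
      σ_fil := hσf
      low := hσl
      inv := hσi
      iso := hσo }
  set Q := Sect.Q (T.Δ x) (T.dim x) h.P a σ with hQ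
  -- cohomology
  have hQm : ∀ k : ℤ, Q k ∈ T.CH x x (T.dim x) := fun k => by
    have h1 := hS.Q_mem k
    rwa [Deg, add_zero] at h1
  have hcoh : ∀ k : Fin (2 * T.dim x + 1), (k : ℕ) < T.dim x →
      T.R (Q ((k : ℕ) : ℤ)) = T.π x k := by
    intro k hk
    obtain ⟨b, hb⟩ := hweak k hk
    have hkk : T.π x k * T.π x k = T.π x k := (T.π_ortho x).idem k
    let m : Fin (2 * T.dim y + 1) := ⟨k, by omega⟩
    have hm : ((m : ℕ) : ℤ) = (k : ℕ) := rfl
    -- `R a π m = π k R a`
    have hcomm : T.R a * T.π y m = T.π x k * T.R a := by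
      have e1 : T.R a * T.π y m = T.π x k * T.R a * T.π y m := by
        have e2 : T.R a * T.π y m = ∑ l, T.π x l * T.R a * T.π y m := by
          rw [← Finset.sum_mul, ← Finset.sum_mul, T.π_sum, ← map_mul, T.Δ_mul ha]
        rw [e2, Finset.sum_eq_single k]
        · intro l _ hl
          refine hdeg.deg ha m l ?_
          rw [hm]
          intro h3
          apply hl
          ext
          omega
        · intro h3
          exact absurd (Finset.mem_univ k) h3
      have e3 : T.π x k * T.R a = T.π x k * T.R a * T.π y m := by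
        have e4 : T.π x k * T.R a = ∑ l, T.π x k * T.R a * T.π y l := by
          rw [← Finset.mul_sum, T.π_sum, mul_assoc, ← map_mul, T.mul_Δ ha]
        conv_lhs => rw [e4]
        rw [Finset.sum_eq_single m]
        · intro l _ hl
          refine hdeg.deg ha l k ?_
          intro h3
          apply hl
          ext
          change (l : ℕ) = k
          omega
        · intro h3
          exact absurd (Finset.mem_univ m) h3
      exact e1.trans e3.symm
    have hPm : T.R (h.P ((k : ℕ) : ℤ)) = T.π y m := h.P_R m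
    have hπ : T.π x k = T.R a * T.π y m * b := by
      rw [hcomm, mul_assoc, ← hb, hkk]
    have h1 : T.R (Q ((k : ℕ) : ℤ)) * T.π x k = T.π x k := by
      have h2 := hS.Q_a (k := ((k : ℕ) : ℤ)) (by omega) (by omega)
      have h3 := congrArg T.R h2
      rw [map_mul, map_mul, map_mul, hPm] at h3
      rw [hπ, ← mul_assoc, ← mul_assoc, h3]
    have h2 : T.R (Q ((k : ℕ) : ℤ)) = T.π x k * T.R (Q ((k : ℕ) : ℤ)) := by
      rw [hQ, hS.Q_low (by omega) (by omega)]
      have h3 : T.R (a * h.P ((k : ℕ) : ℤ) * σ * star a) =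
          T.R a * T.π y m * (T.R σ * T.R (star a)) := by
        rw [map_mul, map_mul, map_mul, hPm]
        simp only [mul_assoc]
      rw [h3, hcomm]
      have h4 : T.π x k * (T.π x k * T.R a * (T.R σ * T.R (star a))) =
          T.π x k * T.π x k * T.R a * (T.R σ * T.R (star a)) := by simp only [mul_assoc]
      rw [h4, hkk]
    have h3 : T.R (Q ((k : ℕ) : ℤ)) = ∑ l, T.R (Q ((k : ℕ) : ℤ)) * T.π x l := by
      rw [← Finset.mul_sum, T.π_sum, ← map_mul, T.mul_Δ (hQm _)]
    rw [h3, Finset.sum_eq_single k, h1]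
    · intro l _ hl
      rw [h2]
      refine hdeg.deg (hQm _) l k ?_
      intro h4
      apply hl
      ext
      omega
    · intro h4
      exact absurd (Finset.mem_univ k) h4
  have hsum : ∑ k : Fin (2 * T.dim x + 1), Q ((k : ℕ) : ℤ) = T.Δ x := by
    rw [← hS.gr.sum, sum_Icc_eq]
  have hhigh : ∀ k : Fin (2 * T.dim x + 1), T.dim x < (k : ℕ) →
      T.R (Q ((k : ℕ) : ℤ)) = T.π x k := by
    intro k hk
    have hkl := k.isLt
    have h1 : Q ((k : ℕ) : ℤ) = star (Q ((k.rev : ℕ) : ℤ)) := by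
      rw [hQ, hS.Q_star]
      congr 1
      rw [Fin.val_rev]
      omega
    rw [h1, T.R_star, hcoh k.rev (by rw [Fin.val_rev]; omega), T.π_star, Fin.rev_rev]
  have hR : ∀ k : Fin (2 * T.dim x + 1), T.R (Q ((k : ℕ) : ℤ)) = T.π x k := by
    intro k
    rcases lt_trichotomy (k : ℕ) (T.dim x) with h1 | h1 | h1
    · exact hcoh k h1
    · have h2 := congrArg T.R hsum
      rw [map_sum, ← T.π_sum] at h2
      have h3 : ∑ l : Fin (2 * T.dim x + 1), (T.R (Q ((l : ℕ) : ℤ)) - T.π x l) = 0 := by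
        rw [Finset.sum_sub_distrib, h2, sub_self]
      rw [Finset.sum_eq_single k] at h3
      · exact sub_eq_zero.1 h3
      · intro l _ hl
        have h4 : (l : ℕ) ≠ T.dim x := fun h5 => hl (by ext; omega)
        rcases lt_or_gt_of_ne h4 with h5 | h5
        · rw [hcoh l h5, sub_self]
        · rw [hhigh l h5, sub_self]
      · intro h4
        exact absurd (Finset.mem_univ k) h4
    · exact hhigh k h1
  have hck : T.IsSelfDualCK x fun k => Q ((k : ℕ) : ℤ) := by
    refine ⟨⟨fun k => hQm _, ⟨fun k => hS.gr.idem _, fun k l hkl => ?_⟩, hsum, hR⟩, fun k => ?_⟩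
    · exact hS.gr.ne fun h1 => hkl (by ext; omega)
    · have hkl := k.isLt
      change star (Q ((k : ℕ) : ℤ)) = Q ((k.rev : ℕ) : ℤ)
      rw [hQ, hS.Q_star]
      congr 1
      rw [Fin.val_rev]
      omega
  refine ⟨fun k => Q ((k : ℕ) : ℤ), hck, ⟨E₁, hE₁⟩, fun E hE => (hD' E hE).1,
    fun E hE => (hD' E hE).2.1, fun E hE k l hkl => ?_, fun E hE E' hE' k l hkl => ?_,
    fun k hk => ?_⟩
  · obtain ⟨hEm, hEs, L', hL', hEa⟩ := hD' E hE
    exact hS.fil hEs hEa (hcombo L' hL').mem (hcombo L' hL').fil _ _ (by omega)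
  · obtain ⟨hEm, hEs, L', hL', hEa⟩ := hD' E hE
    obtain ⟨hEm', hEs', L'', hL'', hEa'⟩ := hD' E' hE'
    have h1 := hS.same hEs hEa (hcombo L' hL').mem (hcombo L' hL').fil hEs' hEa'
      (hcombo L'' hL'').mem (hcombo L'' hL'').fil
      (fun k => by rw [(hcombo L' hL').top, (hcombo L'' hL'').top]) ((k : ℕ) : ℤ)
    rw [show ((l : ℕ) : ℤ) = (k : ℕ) + 2 by omega]
    exact h1
  · rcases hk.lt_or_eq with hk | hk
    · set i : ℕ := T.dim x - k with hi
      have hi' : (i : ℤ) = T.dim x - (k : ℕ) := by omega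
      have hrev : ((k.rev : ℕ) : ℤ) = 2 * T.dim x - (k : ℕ) := by
        rw [Fin.val_rev]
        omega
      have hWR : ∀ (L' : Fin s → T.C), (∀ j, L' j ∈ D j) → List.Forall₂ h.Combo
          (W ++ List.replicate i (∑ j, r' j • L' j)) (W₀ ++ List.replicate i F₀) :=
        fun L' hL' => List.rel_append hWW (hrep i L' hL')
      have hlen : ∀ z : T.C, ((W ++ List.replicate i z).length : ℤ) = T.dim y - (k : ℕ) := by
        intro z
        rw [List.length_append, List.length_replicate, hWl]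
        push_cast
        rw [hi', htn]
        ring
      obtain ⟨M, hM, hkM, hMk, hMP⟩ := h.mixed (k := ((k : ℕ) : ℤ)) (by omega) (by omega)
        (hWR L₁ hL₁) (hlen _)
      refine ⟨a * (c⁻¹ • M) * star a, ?_, fun E hE => ?_⟩
      · have h1 := hxn _ _ (Submodule.smul_mem _ c⁻¹ hM)
        rw [Deg, show (T.dim x : ℤ) + ((k : ℕ) - T.dim y + (T.dim y - T.dim x)) = (k : ℕ) by
          ring] at h1
        exact h1
      · obtain ⟨hEm, hEs, L', hL', hEa⟩ := hD' E hE
        have h1 := h.same_list hMk (hWR L' hL') (hWR L₁ hL₁) (hlen _)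
        rw [hMP, List.prod_append, List.prod_replicate] at h1
        have hFm : (∑ j, r' j • L' j) ^ i * T.Δ y ∈ T.Deg y i := by
          have h2 := h.list_mem (hrep i L' hL')
          rwa [List.prod_replicate, List.length_replicate] at h2
        have h2 : c⁻¹ • M * (star a * a) * (∑ j, r' j • L' j) ^ i * h.P ((k : ℕ) : ℤ) =
            h.P ((k : ℕ) : ℤ) := by
          rw [← hw, hwW, smul_mul_assoc, mul_smul_comm, smul_smul, inv_mul_cancel₀ hc, one_smul]
          have h3 : M * (W.prod * T.Δ y) * (∑ j, r' j • L' j) ^ i * h.P ((k : ℕ) : ℤ) =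
              M * W.prod * (T.Δ y * ((∑ j, r' j • L' j) ^ i * T.Δ y)) * h.P ((k : ℕ) : ℤ) := by
            rw [← h.P_gr.Δ_mul ((k : ℕ) : ℤ)]
            simp only [mul_assoc]
            rw [← mul_assoc (T.Δ y) (T.Δ y), h.P_gr.Δ_Δ]
          rw [h3, hG.left hFm]
          have h4 : M * W.prod * ((∑ j, r' j • L' j) ^ i * T.Δ y) * h.P ((k : ℕ) : ℤ) =
              M * (W.prod * (∑ j, r' j • L' j) ^ i * T.Δ y) * h.P ((k : ℕ) : ℤ) := by
            simp only [mul_assoc]
          rw [h4]
          exact h1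
        have h3 := hS.hard hEa (k := ((k : ℕ) : ℤ)) (by omega) (by omega)
          (M := c⁻¹ • M) (by rw [mul_smul_comm, hkM]) (by rw [smul_mul_assoc, hMk]) i h2
        rw [← hrev] at h3
        exact h3
    · refine ⟨Q ((k : ℕ) : ℤ), ?_, fun E hE => ?_⟩
      · rw [hk]
        exact hQm _
      · have h1 : k.rev = k := by
          ext
          rw [Fin.val_rev]
          omega
        change Q ((k : ℕ) : ℤ) * Q ((k : ℕ) : ℤ) * Q ((k.rev : ℕ) : ℤ) * E ^ (T.dim x - (k : ℕ)) *
          Q ((k : ℕ) : ℤ) = Q ((k : ℕ) : ℤ)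
        rw [h1, hk, Nat.sub_self, pow_zero, mul_one, hS.gr.idem, hS.gr.idem, hS.gr.idem]

end Cycles

end SDCK
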