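import Pool.Agent.LibLF72.Base
import Pool.Agent.LibLF72.OfLef
import Pool.Agent.LibLF72.SectStep
import Pool.Agent.LibLF72.Prod

/-!
# The Lefschetz class
-/

set_option autoImplicit false

namespace SDCK

universe u v

namespace Cycles

variable {T : Cycles.{u, v}}

theorem pol_data (hT : T.Small) {y : T.ι} {s : ℕ} {D : Fin s → Set T.C} (h : T.Pol y s D) :
    Nonempty (T.LefData y s D) := by
  induction h with
  | small i D h =>
    obtain ⟨p, hp⟩ := small_lef hT i D h.dim h.nonempty h.mem h.symm h.same h.hard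
    exact hp.data
  | given i D p h => exact h.data
  | prod i j y s D D' _ _ θ θ' h ih ih' =>
    obtain ⟨d⟩ := ih
    obtain ⟨d'⟩ := ih'
    exact ⟨d.prod d' h.lin⟩
  | sect x y s D _ a ha r D' h ih =>
    obtain ⟨d⟩ := ih
    obtain ⟨ham, hweak, t, c, L, ht, hc, hL, hsect⟩ := ha
    choose q hq L' hL' hLL using hL
    have hLE : L = fun l => ∑ j, q l j • L' l j := funext hLL
    rw [hLE] at hsect
    obtain ⟨⟨E₀, hE₀⟩, hD'⟩ := h
    obtain ⟨-, -, z₀, ⟨hr, -⟩, -⟩ := hD' E₀ hE₀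
    obtain ⟨p, hp⟩ := sect_lef hT d t ht a ham c hc q hq L' hL' hsect hweak r hr D' ⟨E₀, hE₀⟩
      (fun E hE => by
        obtain ⟨h1, h2, z, ⟨-, F, hF, hz⟩, h3⟩ := hD' E hE
        exact ⟨h1, h2, F, hF, by rw [h3, hz]⟩)
    exact hp.data

/-- every variety of the class has a self-dual Chow-Künneth decomposition -/
theorem pol_ck (hT : T.Small) {y : T.ι} {s : ℕ} {D : Fin s → Set T.C} (h : T.Pol y s D) :
    ∃ p, T.IsSelfDualCK y p := by
  obtain ⟨d⟩ := pol_data hT h
  exact ⟨_, d.ck⟩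

end Cycles

end SDCK
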