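import Mathlib

/-!
# Gradings by orthogonal projectors and filtered elements
-/

set_option autoImplicit false

namespace SDCK

universe u

section gr

variable {C : Type u} [Ring C]

/-- orthogonal projectors `P k`, `0 ≤ k ≤ 2 n`, with sum `Δ` -/
structure IsGr (Δ : C) (n : ℕ) (P : ℤ → C) : Prop where
  ortho : ∀ k l, P k * P l = if k = l then P k else 0
  zero : ∀ k, k < 0 ∨ 2 * (n : ℤ) < k → P k = 0
  sum : ∑ k ∈ Finset.Icc (0 : ℤ) (2 * n), P k = Δ

/-- `x` raises the weight at most by `2 r` -/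
def Fil (P Q : ℤ → C) (r : ℤ) (x : C) : Prop := ∀ a b, a + 2 * r < b → Q b * x * P a = 0

variable {Δ : C} {n : ℕ} {P : ℤ → C}

theorem IsGr.idem (h : IsGr Δ n P) (k : ℤ) : P k * P k = P k := by rw [h.ortho, if_pos rfl]

theorem IsGr.ne (h : IsGr Δ n P) {k l : ℤ} (hkl : k ≠ l) : P k * P l = 0 := by
  rw [h.ortho, if_neg hkl]

theorem IsGr.mul_Δ (h : IsGr Δ n P) (k : ℤ) : P k * Δ = P k := by
  by_cases hk : k < 0 ∨ 2 * (n : ℤ) < k
  · rw [h.zero k hk, zero_mul]
  · rw [← h.sum, Finset.mul_sum, Finset.sum_eq_single k]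
    · exact h.idem k
    · intro l _ hl
      exact h.ne hl.symm
    · intro hk'
      exfalso
      apply hk'
      rw [Finset.mem_Icc]
      omega

theorem IsGr.Δ_mul (h : IsGr Δ n P) (k : ℤ) : Δ * P k = P k := by
  by_cases hk : k < 0 ∨ 2 * (n : ℤ) < k
  · rw [h.zero k hk, mul_zero]
  · rw [← h.sum, Finset.sum_mul, Finset.sum_eq_single k]
    · exact h.idem k
    · intro l _ hl
      exact h.ne hl
    · intro hk'
      exfalso
      apply hk'
      rw [Finset.mem_Icc]
      omega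

theorem IsGr.Δ_Δ (h : IsGr Δ n P) : Δ * Δ = Δ := by
  conv_lhs => rw [← h.sum]
  rw [Finset.sum_mul]
  rw [← h.sum]
  refine Finset.sum_congr rfl fun k _ => ?_
  rw [h.sum, h.mul_Δ]

/-- an element is determined by its components -/
theorem IsGr.ext_left (h : IsGr Δ n P) {x : C} (hx : Δ * x = x) (h0 : ∀ k, P k * x = 0) :
    x = 0 := by
  rw [← hx, ← h.sum, Finset.sum_mul]
  exact Finset.sum_eq_zero fun k _ => h0 k

theorem IsGr.ext_right (h : IsGr Δ n P) {x : C} (hx : x * Δ = x) (h0 : ∀ k, x * P k = 0) :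
    x = 0 := by
  rw [← hx, ← h.sum, Finset.mul_sum]
  exact Finset.sum_eq_zero fun k _ => h0 k

theorem Fil.zero' (P Q : ℤ → C) (r : ℤ) : Fil P Q r 0 := fun a b _ => by rw [mul_zero, zero_mul]

theorem Fil.add {P Q : ℤ → C} {r : ℤ} {x y : C} (hx : Fil P Q r x) (hy : Fil P Q r y) :
    Fil P Q r (x + y) := fun a b h => by rw [mul_add, add_mul, hx a b h, hy a b h, add_zero]

theorem Fil.neg {P Q : ℤ → C} {r : ℤ} {x : C} (hx : Fil P Q r x) : Fil P Q r (-x) :=
  fun a b h => by rw [mul_neg, neg_mul, hx a b h, neg_zero]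

theorem Fil.sub {P Q : ℤ → C} {r : ℤ} {x y : C} (hx : Fil P Q r x) (hy : Fil P Q r y) :
    Fil P Q r (x - y) := by rw [sub_eq_add_neg]; exact hx.add hy.neg

theorem Fil.smul [Algebra ℚ C] {P Q : ℤ → C} {r : ℤ} {x : C} (q : ℚ) (hx : Fil P Q r x) :
    Fil P Q r (q • x) := fun a b h => by
  rw [mul_smul_comm, smul_mul_assoc, hx a b h, smul_zero]

theorem Fil.sum {P Q : ℤ → C} {r : ℤ} {ι : Type} (s : Finset ι) (f : ι → C)
    (h : ∀ i ∈ s, Fil P Q r (f i)) : Fil P Q r (∑ i ∈ s, f i) := by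
  intro a b hab
  rw [Finset.mul_sum, Finset.sum_mul]
  exact Finset.sum_eq_zero fun i hi => h i hi a b hab

theorem Fil.mono {P Q : ℤ → C} {r s : ℤ} {x : C} (hrs : r ≤ s) (hx : Fil P Q r x) :
    Fil P Q s x := fun a b h => hx a b (by omega)

theorem IsGr.fil (h : IsGr Δ n P) (k : ℤ) : Fil P P 0 (P k) := by
  intro a b hab
  rw [h.ortho b k]
  split_ifs with h1
  · exact h.ne (by omega)
  · rw [zero_mul]

/-- filtered elements compose -/
theorem Fil.mul {P Q S : ℤ → C} {r s : ℤ} {x y : C} (hQ : IsGr Δ n Q) (hy : Fil Q S s y)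
    (hx : Fil P Q r x) (hΔ : Δ * x = x) : Fil P S (s + r) (y * x) := by
  intro a b hab
  rw [← hΔ, ← hQ.sum, Finset.sum_mul, Finset.mul_sum, Finset.mul_sum, Finset.sum_mul]
  refine Finset.sum_eq_zero fun c _ => ?_
  by_cases hc : a + 2 * r < c
  · have h1 : S b * (y * (Q c * x)) * P a = S b * y * (Q c * x * P a) := by
      simp only [mul_assoc]
    rw [h1, hx a c hc, mul_zero]
  · have h1 : S b * (y * (Q c * x)) * P a = S b * y * Q c * (x * P a) := by
      simp only [mul_assoc]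
    rw [h1, hy c b (by omega), zero_mul]

/-- the components of highest weight multiply -/
theorem Fil.top {P Q S : ℤ → C} {r s : ℤ} {x y : C} (hQ : IsGr Δ n Q) (hy : Fil Q S s y)
    (hx : Fil P Q r x) (hΔ : Δ * x = x) (a : ℤ) :
    S (a + 2 * (s + r)) * (y * x) * P a =
      S (a + 2 * (s + r)) * y * Q (a + 2 * r) * (Q (a + 2 * r) * x * P a) := by
  have h0 : S (a + 2 * (s + r)) * (y * x) * P a =
      ∑ c ∈ Finset.Icc (0 : ℤ) (2 * n), S (a + 2 * (s + r)) * y * Q c * (Q c * x * P a) := by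
    conv_lhs => rw [← hΔ, ← hQ.sum, Finset.sum_mul, Finset.mul_sum, Finset.mul_sum,
      Finset.sum_mul]
    refine Finset.sum_congr rfl fun c _ => ?_
    have h1 : S (a + 2 * (s + r)) * y * Q c * (Q c * x * P a) =
        S (a + 2 * (s + r)) * y * (Q c * Q c) * x * P a := by simp only [mul_assoc]
    rw [h1, hQ.idem]
    simp only [mul_assoc]
  rw [h0]
  have h2 : ∀ c, c ≠ a + 2 * r →
      S (a + 2 * (s + r)) * y * Q c * (Q c * x * P a) = 0 := by
    intro c hc
    rcases lt_or_gt_of_ne hc with h | h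
    · rw [hy c _ (by omega), zero_mul]
    · rw [hx a c h, mul_zero]
  by_cases hm : a + 2 * r ∈ Finset.Icc (0 : ℤ) (2 * n)
  · exact Finset.sum_eq_single _ (fun c _ hc => h2 c hc) (fun h => absurd hm h)
  · rw [Finset.sum_eq_zero fun c hc => h2 c fun h => hm (h ▸ hc)]
    rw [hQ.zero (a + 2 * r) (by rw [Finset.mem_Icc] at hm; omega), mul_zero, zero_mul]

theorem Fil.star [StarRing C] {r : ℤ} {x : C} (hs : ∀ k, star (P k) = P (2 * n - k))
    (hx : Fil P P r x) : Fil P P r (star x) := by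
  intro a b hab
  have h1 := hx (2 * n - b) (2 * n - a) (by omega)
  have h2 := congrArg Star.star h1
  rw [star_mul, star_mul, hs, hs, star_zero] at h2
  rw [sub_sub_cancel, sub_sub_cancel] at h2
  rw [mul_assoc]
  exact h2

end gr

end SDCK
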