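import Pool.Agent.LibLF72.M2b

/-!
A right inverse of a product of positive combinations of commuting Lefschetz operators.
-/

set_option autoImplicit false

namespace SDCK

variable {C : Type*} [Ring C] [Algebra ℚ C]
variable {s : ℕ} {n : Fin s → ℕ} {e : Fin s → ℤ → C} {L : Fin s → C} {M : Fin s → ℤ → C} {Δ : C}
  {G : ℤ → Submodule ℚ C}

namespace LefSys

theorem Lpow_e (H : LefSys n e L M Δ G) (j : Fin s) (b : Fin s →₀ ℕ) (k : ℤ) :
    Lpow L H.commL' b * e j k = e j (k + 2 * b j) * Lpow L H.commL' b := by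
  induction b using Finsupp.induction_linear generalizing k with
  | zero => simp [Lpow_zero]
  | add f g hf hg =>
    rw [Lpow_add, mul_assoc, hg, ← mul_assoc, hf, mul_assoc]
    congr 2
    rw [Finsupp.add_apply]
    push_cast
    ring
  | single i a =>
    rw [Lpow_single]
    by_cases hij : i = j
    · subst hij
      rw [e_Lpow (H.shift i), Finsupp.single_eq_same]
    · rw [Finsupp.single_eq_of_ne (Ne.symm hij)]
      have hc : Commute (L i ^ a) (e j k) := Commute.pow_left (H.comm_Le i j hij k) a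
      rw [hc.eq]
      simp

theorem Lpow_G (H : LefSys n e L M Δ G) (b : Fin s →₀ ℕ) (r : ℤ) (u : C) (hu : u ∈ G r) :
    Lpow L H.commL' b * u ∈ G (r + ∑ j, (b j : ℤ)) := by
  induction b using Finsupp.induction_linear generalizing r u with
  | zero => simpa [Lpow_zero] using hu
  | add f g hf hg =>
    rw [Lpow_add, mul_assoc]
    have h := hf _ _ (hg r u hu)
    have h1 : r + ∑ j, (g j : ℤ) + ∑ j, (f j : ℤ) = r + ∑ j, (((f + g) j : ℕ) : ℤ) := by
      simp only [Finsupp.add_apply, Nat.cast_add, Finset.sum_add_distrib]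
      ring
    rw [h1] at h
    exact h
  | single i a =>
    rw [Lpow_single]
    have h := S_Lpow (fun r u hu => H.G_L i r u hu) a r u hu
    have h1 : ∑ j, (((Finsupp.single i a : Fin s →₀ ℕ) j : ℕ) : ℤ) = a := by
      have := sum_single (0 : Fin s →₀ ℕ) i a
      simpa using this
    rw [h1]
    exact h

theorem Lpow_kill (H : LefSys n e L M Δ G) (b : Fin s →₀ ℕ) (j : Fin s) (μ : ℕ) (hb : μ < b j)
    (u : C) (hu : L j ^ (μ + 1) * u = 0) : Lpow L H.commL' b * u = 0 := by
  have h : b = (b - Finsupp.single j (μ + 1)) + Finsupp.single j (μ + 1) := by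
    ext i
    rw [Finsupp.add_apply, Finsupp.tsub_apply]
    by_cases hij : i = j
    · subst hij
      rw [Finsupp.single_eq_same]
      omega
    · rw [Finsupp.single_eq_of_ne hij]
      omega
  rw [h, Lpow_add, Lpow_single, mul_assoc, hu, mul_zero]

theorem eval_mem (H : LefSys n e L M Δ G) (g : MvPolynomial (Fin s) ℚ) (i : ℕ)
    (hg : g.IsHomogeneous i) (r : ℤ) (u : C) (hu : u ∈ G r) :
    evalL L H.commL' g * u ∈ G (r + i) := by
  rw [evalL_sum, Finset.sum_mul]
  refine Submodule.sum_mem _ fun b hb => ?_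
  rw [smul_mul_assoc]
  refine Submodule.smul_mem _ _ ?_
  have h1 := H.Lpow_G b r u hu
  have h2 : ∑ j, b j = i := by
    by_contra hne
    rw [← Finsupp.degree_eq_sum] at hne
    exact (MvPolynomial.mem_support_iff.1 hb) (hg.coeff_eq_zero hne)
  have h3 : ∑ j, (b j : ℤ) = i := by exact_mod_cast h2
  rw [h3] at h1
  exact h1

/-- On the monomials of total weight `l`. -/
theorem gen_step (H : LefSys n e L M Δ G) (N : ℕ) (hN : ∑ j, n j = N) {P : ℤ → C}
    (hPo : ∀ k l, P k * P l = if k = l then P k else 0)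
    (hPs : ∑ k ∈ Finset.Icc (0 : ℤ) (2 * N), P k = Δ)
    (hw : ∑ j, ∑ k ∈ Finset.Icc (0 : ℤ) (2 * n j), ((k : ℚ) - n j) • e j k =
      ∑ k ∈ Finset.Icc (0 : ℤ) (2 * N), ((k : ℚ) - N) • P k)
    (k : ℤ) (h0 : 0 ≤ k) (hk : k ≤ N) (m : ℕ) (hm : (m : ℤ) = N - k) (c : Fin m → Fin s → ℚ)
    (hc : ∀ t j, 0 < c t j) (v : C) (hv : v ∈ H.Gen Finset.univ 0) :
    ∃ X ∈ G (-m), (List.ofFn fun t => ∑ j, c t j • L j).prod * X = P (2 * N - k) * v := by
  obtain ⟨b, μ, u, hμ, hu, rfl⟩ := hv
  set v := Lpow L H.commL' b * u with hvdef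
  by_cases hv0 : v = 0
  · exact ⟨0, Submodule.zero_mem _, by rw [hv0, mul_zero, mul_zero]⟩
  have hbμ : ∀ j, b j ≤ μ j := by
    intro j
    by_contra hlt
    push Not at hlt
    exact hv0 (H.Lpow_kill b j (μ j) hlt u (hu.2.2 j (Finset.mem_univ j)).2)
  let w : Fin s → ℤ := fun j => (n j : ℤ) - μ j + 2 * b j
  have hev : ∀ j, e j (w j) * v = v := by
    intro j
    rw [hvdef, ← mul_assoc]
    have := H.Lpow_e j b ((n j : ℤ) - μ j)
    change e j ((n j : ℤ) - μ j + 2 * b j) * Lpow L H.commL' b * u = _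
    rw [← this, mul_assoc, (hu.2.2 j (Finset.mem_univ j)).1]
  have hwmem : ∀ j, w j ∈ Finset.Icc (0 : ℤ) (2 * n j) := by
    intro j
    by_contra hnot
    apply hv0
    rw [← hev j, H.zero j _ (by rw [Finset.mem_Icc] at hnot; omega), zero_mul]
  have hej : ∀ j k', e j k' * v = if k' = w j then v else 0 := by
    intro j k'
    rw [← hev j, ← mul_assoc, H.ortho]
    by_cases hkk : k' = w j
    · rw [if_pos hkk, if_pos hkk, hkk]
    · rw [if_neg hkk, if_neg hkk, zero_mul]
  have hH : (∑ j, ∑ k ∈ Finset.Icc (0 : ℤ) (2 * n j), ((k : ℚ) - n j) • e j k) * v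
      = ((∑ j, (w j : ℚ)) - N) • v := by
    rw [Finset.sum_mul]
    have h1 : ∀ j, (∑ k ∈ Finset.Icc (0 : ℤ) (2 * n j), ((k : ℚ) - n j) • e j k) * v
        = ((w j : ℚ) - n j) • v := by
      intro j
      rw [Finset.sum_mul, Finset.sum_eq_single (w j)]
      · rw [smul_mul_assoc, hej, if_pos rfl]
      · intro k' _ hk'
        rw [smul_mul_assoc, hej, if_neg hk', smul_zero]
      · intro h
        exact absurd (hwmem j) h
    rw [Finset.sum_congr rfl fun j _ => h1 j, ← Finset.sum_smul, Finset.sum_sub_distrib]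
    congr 2
    rw [← hN]
    push_cast
    rfl
  have hP0 : ∀ l' ∈ Finset.Icc (0 : ℤ) (2 * N), l' ≠ ∑ j, w j → P l' * v = 0 := by
    intro l' hl' hne
    have h1 : P l' * ((∑ k ∈ Finset.Icc (0 : ℤ) (2 * N), ((k : ℚ) - N) • P k) * v)
        = ((l' : ℚ) - N) • (P l' * v) := by
      rw [Finset.sum_mul, Finset.mul_sum, Finset.sum_eq_single l']
      · rw [smul_mul_assoc, mul_smul_comm, ← mul_assoc, hPo, if_pos rfl]
      · intro k' _ hk'
        rw [smul_mul_assoc, mul_smul_comm, ← mul_assoc, hPo, if_neg (Ne.symm hk'), zero_mul,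
          smul_zero]
      · intro h
        exact absurd hl' h
    rw [← hw, hH, mul_smul_comm] at h1
    have h2 : ((∑ j, (w j : ℚ)) - l') • (P l' * v) = 0 := by
      have : ((∑ j, (w j : ℚ)) - l') • (P l' * v)
          = ((∑ j, (w j : ℚ)) - N) • (P l' * v) - ((l' : ℚ) - N) • (P l' * v) := by
        rw [← sub_smul]
        congr 1
        ring
      rw [this, h1, sub_self]
    rcases smul_eq_zero.1 h2 with h3 | h3
    · exfalso
      apply hne
      have h4 : ((∑ j, w j : ℤ) : ℚ) = (l' : ℚ) := by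
        push_cast
        linarith
      exact_mod_cast h4.symm
    · exact h3
  have hΔv : Δ * v = v := by
    by_cases hs : s = 0
    · subst hs
      have hb0 : b = 0 := Subsingleton.elim _ _
      rw [hvdef, hb0, Lpow_zero, one_mul]
      exact hu.2.1
    · have j : Fin s := ⟨0, Nat.pos_of_ne_zero hs⟩
      rw [← hev j, ← mul_assoc, H.Δ_e]
  have hl : 2 * (N : ℤ) - k ∈ Finset.Icc (0 : ℤ) (2 * N) := by
    rw [Finset.mem_Icc]
    omega
  by_cases hmatch : 2 * (N : ℤ) - k = ∑ j, w j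
  · have hPv : P (2 * N - k) * v = v := by
      conv_rhs => rw [← hΔv, ← hPs, Finset.sum_mul]
      rw [Finset.sum_eq_single (2 * (N : ℤ) - k)]
      · intro k' hk' hne
        exact hP0 k' hk' (fun h => hne (by rw [h, hmatch]))
      · intro h
        exact absurd hl h
    rw [hPv]
    -- the numbers
    have hsum : ∑ j, w j = (N : ℤ) - ∑ j, (μ j : ℤ) + 2 * ∑ j, (b j : ℤ) := by
      simp only [w, Finset.sum_add_distrib, Finset.sum_sub_distrib, ← Finset.mul_sum]
      rw [← hN]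
      push_cast
      ring
    have hle : ∑ j, b j ≤ ∑ j, μ j := Finset.sum_le_sum fun j _ => hbμ j
    have hB : 2 * (∑ j, b j) = m + ∑ j, μ j := by
      have h1 : (2 : ℤ) * ∑ j, (b j : ℤ) = m + ∑ j, (μ j : ℤ) := by
        rw [hsum] at hmatch
        linarith
      exact_mod_cast h1
    obtain ⟨i, hi⟩ : ∃ i, i + m = ∑ j, b j := ⟨∑ j, b j - m, by omega⟩
    obtain ⟨g, hg, hgc⟩ := LibMHL5.mhl_surj μ (i := i) (m := m) (by omega) c hc b hbμ
      hi.symm
    refine ⟨evalL L H.commL' g * u, ?_, ?_⟩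
    · have h1 := H.eval_mem g i hg _ u hu.1
      have h2 : (0 : ℤ) - ∑ j, (b j : ℤ) + i = -m := by
        have h3 : (i : ℤ) + m = ∑ j, (b j : ℤ) := by exact_mod_cast hi
        rw [← h3]
        ring
      rw [h2] at h1
      exact h1
    · set ℓ : MvPolynomial (Fin s) ℚ := ∏ t, ∑ j, MvPolynomial.C (c t j) * MvPolynomial.X j
        with hℓ
      have h1 : evalL L H.commL' ℓ = (List.ofFn fun t => ∑ j, c t j • L j).prod := by
        rw [hℓ, ← List.prod_ofFn, map_list_prod, List.map_ofFn]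
        congr 2
        funext t
        simp only [Function.comp_apply, map_sum, map_mul, evalL_X]
        refine Finset.sum_congr rfl fun j _ => ?_
        have h2 : evalL L H.commL' (MvPolynomial.C (c t j)) = algebraMap ℚ C (c t j) :=
          AlgHom.commutes _ _
        rw [h2, Algebra.smul_def]
      have h2 : evalL L H.commL' (MvPolynomial.monomial b 1 - g * ℓ) * u = 0 := by
        rw [evalL_sum, Finset.sum_mul]
        refine Finset.sum_eq_zero fun b' _ => ?_
        by_cases hb' : ∀ j, b' j ≤ μ j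
        · rw [hgc b' hb', zero_smul, zero_mul]
        · push Not at hb'
          obtain ⟨j, hj⟩ := hb'
          rw [smul_mul_assoc, H.Lpow_kill b' j (μ j) hj u (hu.2.2 j (Finset.mem_univ j)).2,
            smul_zero]
      rw [map_sub, evalL_monomial, one_smul, mul_comm g ℓ, map_mul, h1, sub_mul, sub_eq_zero]
        at h2
      rw [hvdef, h2, mul_assoc]
  · refine ⟨0, Submodule.zero_mem _, ?_⟩
    rw [mul_zero, hP0 _ hl hmatch]

/-- **Right inverse.** -/
theorem right_inverse (H : LefSys n e L M Δ G) (N : ℕ) (hN : ∑ j, n j = N) {P : ℤ → C}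
    (hPo : ∀ k l, P k * P l = if k = l then P k else 0)
    (hPs : ∑ k ∈ Finset.Icc (0 : ℤ) (2 * N), P k = Δ) (hPG : ∀ k, P k ∈ G 0)
    (hw : ∑ j, ∑ k ∈ Finset.Icc (0 : ℤ) (2 * n j), ((k : ℚ) - n j) • e j k =
      ∑ k ∈ Finset.Icc (0 : ℤ) (2 * N), ((k : ℚ) - N) • P k)
    (k : ℤ) (h0 : 0 ≤ k) (hk : k ≤ N) (m : ℕ) (hm : (m : ℤ) = N - k) (c : Fin m → Fin s → ℚ)
    (hc : ∀ t j, 0 < c t j) :
    ∃ X ∈ G (-m), (List.ofFn fun t => ∑ j, c t j • L j).prod * X = P (2 * N - k) := by
  have hl : 2 * (N : ℤ) - k ∈ Finset.Icc (0 : ℤ) (2 * N) := by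
    rw [Finset.mem_Icc]
    omega
  have hΔ : Δ * P (2 * N - k) = P (2 * N - k) := by
    rw [← hPs, Finset.sum_mul, Finset.sum_eq_single (2 * (N : ℤ) - k)]
    · rw [hPo, if_pos rfl]
    · intro k' _ hne
      rw [hPo, if_neg hne]
    · intro h
      exact absurd hl h
  have hspan := H.decomp Finset.univ 0 (P (2 * N - k)) (hPG _) hΔ
  have key : ∀ v ∈ Submodule.span ℚ (H.Gen Finset.univ 0), ∃ X ∈ G (-m),
      (List.ofFn fun t => ∑ j, c t j • L j).prod * X = P (2 * N - k) * v := by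
    intro v hv
    induction hv using Submodule.span_induction with
    | mem v hv => exact H.gen_step N hN hPo hPs hw k h0 hk m hm c hc v hv
    | zero => exact ⟨0, Submodule.zero_mem _, by rw [mul_zero, mul_zero]⟩
    | add x y _ _ hx hy =>
      obtain ⟨X, hX, hX'⟩ := hx
      obtain ⟨Y, hY, hY'⟩ := hy
      exact ⟨X + Y, Submodule.add_mem _ hX hY, by rw [mul_add, mul_add, hX', hY']⟩
    | smul r x _ hx =>
      obtain ⟨X, hX, hX'⟩ := hx
      exact ⟨r • X, Submodule.smul_mem _ _ hX, by rw [mul_smul_comm, mul_smul_comm, hX']⟩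
  obtain ⟨X, hX, hX'⟩ := key _ hspan
  refine ⟨X, hX, ?_⟩
  rw [hX', hPo, if_pos rfl]

end LefSys

end SDCK
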