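import Mathlib

/-!
Evaluation of polynomials at commuting elements of a noncommutative algebra, and the Lefschetz
decomposition in one variable.
-/

set_option autoImplicit false

namespace SDCK

section Eval

variable {C : Type*} [Ring C] [Algebra ℚ C] {s : ℕ}

omit [Algebra ℚ C] in
theorem commL (L : Fin s → C) (hL : ∀ i j, i ≠ j → Commute (L i) (L j)) :
    Pairwise fun i j => ∀ x y : Multiplicative ℕ,
      Commute (powersHom C (L i) x) (powersHom C (L j) y) := by
  intro i j hij x y
  rw [powersHom_apply, powersHom_apply]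
  exact (hL i j hij).pow_pow _ _

/-- The monomial `L ^ b` as a monoid homomorphism. -/
noncomputable def powHom (L : Fin s → C) (hL : ∀ i j, i ≠ j → Commute (L i) (L j)) :
    Multiplicative (Fin s →₀ ℕ) →* C :=
  (MonoidHom.noncommPiCoprod (fun i => powersHom C (L i)) (commL L hL)).comp
    { toFun := fun b i => Multiplicative.ofAdd (b.toAdd i)
      map_one' := rfl
      map_mul' := fun _ _ => rfl }

/-- The monomial `L ^ b`. -/
noncomputable def Lpow (L : Fin s → C) (hL : ∀ i j, i ≠ j → Commute (L i) (L j))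
    (b : Fin s →₀ ℕ) : C := powHom L hL (Multiplicative.ofAdd b)

variable {L : Fin s → C} {hL : ∀ i j, i ≠ j → Commute (L i) (L j)}

omit [Algebra ℚ C] in
theorem Lpow_zero : Lpow L hL 0 = 1 := by
  unfold Lpow
  exact map_one _

omit [Algebra ℚ C] in
theorem Lpow_add (b b' : Fin s →₀ ℕ) : Lpow L hL (b + b') = Lpow L hL b * Lpow L hL b' := by
  unfold Lpow
  rw [ofAdd_add, map_mul]

omit [Algebra ℚ C] in
theorem Lpow_single (j : Fin s) (k : ℕ) : Lpow L hL (Finsupp.single j k) = L j ^ k := by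
  have h : (fun i => Multiplicative.ofAdd ((Finsupp.single j k : Fin s →₀ ℕ) i))
      = (Pi.mulSingle j (Multiplicative.ofAdd k) : Fin s → Multiplicative ℕ) := by
    funext i
    by_cases h : i = j
    · subst h
      simp
    · rw [Pi.mulSingle_eq_of_ne h, Finsupp.single_eq_of_ne h]
      rfl
  have h1 : Lpow L hL (Finsupp.single j k) = (MonoidHom.noncommPiCoprod
    (fun i => powersHom C (L i)) (commL L hL))
      (fun i => Multiplicative.ofAdd ((Finsupp.single j k : Fin s →₀ ℕ) i)) := rfl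
  rw [h1, h, MonoidHom.noncommPiCoprod_mulSingle]
  rfl

/-- Evaluation of a polynomial at the commuting elements. -/
noncomputable def evalL (L : Fin s → C) (hL : ∀ i j, i ≠ j → Commute (L i) (L j)) :
    MvPolynomial (Fin s) ℚ →ₐ[ℚ] C :=
  AddMonoidAlgebra.lift ℚ C (Fin s →₀ ℕ) (powHom L hL)

theorem evalL_monomial (b : Fin s →₀ ℕ) (r : ℚ) :
    evalL L hL (MvPolynomial.monomial b r) = r • Lpow L hL b :=
  AddMonoidAlgebra.lift_single _ _ _

theorem evalL_X (j : Fin s) : evalL L hL (MvPolynomial.X j) = L j := by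
  have h : (MvPolynomial.X j : MvPolynomial (Fin s) ℚ)
      = MvPolynomial.monomial (Finsupp.single j 1) 1 := rfl
  rw [h, evalL_monomial, one_smul, Lpow_single, pow_one]

theorem evalL_sum (p : MvPolynomial (Fin s) ℚ) :
    evalL L hL p = ∑ b ∈ p.support, MvPolynomial.coeff b p • Lpow L hL b := by
  conv_lhs => rw [p.as_sum]
  rw [map_sum]
  exact Finset.sum_congr rfl fun b _ => evalL_monomial b _

end Eval

section One

variable {C : Type*} [Ring C] [Algebra ℚ C]

/-- The elements `L ^ a u` with `u` primitive. -/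
def PrimSet (n : ℕ) (e : ℤ → C) (L : C) (S : ℤ → Submodule ℚ C) (r : ℤ) : Set C :=
  {v | ∃ (a μ : ℕ) (u : C), μ ≤ n ∧ u ∈ S (r - a) ∧ e ((n : ℤ) - μ) * u = u ∧
    L ^ (μ + 1) * u = 0 ∧ v = L ^ a * u}

theorem span_L {n : ℕ} {e : ℤ → C} {L : C} {S : ℤ → Submodule ℚ C} {r : ℤ} {v : C} (a : ℕ)
    (hv : v ∈ Submodule.span ℚ (PrimSet n e L S r)) :
    L ^ a * v ∈ Submodule.span ℚ (PrimSet n e L S (r + a)) := by
  induction hv using Submodule.span_induction with
  | mem v hv =>
    obtain ⟨a', μ, u, h1, h2, h3, h4, rfl⟩ := hv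
    apply Submodule.subset_span
    refine ⟨a + a', μ, u, h1, ?_, h3, h4, ?_⟩
    · have : r + (a : ℤ) - ((a + a' : ℕ) : ℤ) = r - a' := by push_cast; ring
      rw [this]
      exact h2
    · rw [← mul_assoc, ← pow_add]
  | zero => rw [mul_zero]; exact Submodule.zero_mem _
  | add x y _ _ hx hy => rw [mul_add]; exact Submodule.add_mem _ hx hy
  | smul c x _ hx => rw [mul_smul_comm]; exact Submodule.smul_mem _ c hx

variable {n : ℕ} {e : ℤ → C} {L : C} {M : ℤ → C} {S : ℤ → Submodule ℚ C}

omit [Algebra ℚ C] in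
theorem e_Lpow (hLe : ∀ k, L * e k = e (k + 2) * L) (k : ℤ) (a : ℕ) :
    L ^ a * e k = e (k + 2 * a) * L ^ a := by
  induction a with
  | zero => simp
  | succ a ih =>
    rw [pow_succ', mul_assoc, ih, ← mul_assoc, hLe, mul_assoc, ← pow_succ']
    congr 2
    push_cast
    ring

theorem S_Lpow (hSL : ∀ r, ∀ u ∈ S r, L * u ∈ S (r + 1)) (a : ℕ) (r : ℤ) (u : C) (hu : u ∈ S r) :
    L ^ a * u ∈ S (r + a) := by
  induction a with
  | zero => simpa using hu
  | succ a ih =>
    rw [pow_succ', mul_assoc]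
    have := hSL _ _ ih
    have h : r + ((a + 1 : ℕ) : ℤ) = r + a + 1 := by push_cast; ring
    rw [h]
    exact this

theorem lef_low (he0 : ∀ k : ℤ, k < 0 ∨ 2 * (n : ℤ) < k → e k = 0)
    (hLe : ∀ k, L * e k = e (k + 2) * L)
    (hLM : ∀ k : ℤ, 0 ≤ k → k ≤ n → L ^ ((n : ℤ) - k).toNat * M k = e (2 * n - k))
    (heM : ∀ k : ℤ, 0 ≤ k → k ≤ n → e k * M k = M k)
    (hSL : ∀ r, ∀ u ∈ S r, L * u ∈ S (r + 1))
    (hSM : ∀ (r k : ℤ), 0 ≤ k → k ≤ n → ∀ u ∈ S r, M k * u ∈ S (r - n + k))
    (k : ℕ) : k ≤ n → ∀ (r : ℤ) (z : C), z ∈ S r → e k * z = z →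
      z ∈ Submodule.span ℚ (PrimSet n e L S r) := by
  induction k using Nat.strong_induction_on with
  | _ k ih =>
    intro hk r z hz hez
    by_cases hk2 : k < 2
    · -- primitive
      apply Submodule.subset_span
      refine ⟨0, n - k, z, by omega, by simpa using hz, ?_, ?_, by simp⟩
      · have : (n : ℤ) - ((n - k : ℕ) : ℤ) = k := by omega
        rw [this]
        exact hez
      · rw [← hez, ← mul_assoc, e_Lpow hLe, he0 _ (Or.inr (by push_cast; omega)), zero_mul,
          zero_mul]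
    · push Not at hk2
      set lam : C := M ((k : ℤ) - 2) * (L ^ (n - k + 1) * z) with hlam
      have hlamS : lam ∈ S (r - 1) := by
        have h1 := S_Lpow hSL (n - k + 1) r z hz
        have h2 := hSM _ ((k : ℤ) - 2) (by omega) (by omega) _ h1
        have h3 : r + ((n - k + 1 : ℕ) : ℤ) - (n : ℤ) + ((k : ℤ) - 2) = r - 1 := by
          push_cast [Nat.cast_sub hk]
          ring
        rw [h3] at h2
        exact h2
      have hlame : e ((k - 2 : ℕ) : ℤ) * lam = lam := by
        have h1 : (((k - 2 : ℕ) : ℤ)) = (k : ℤ) - 2 := by omega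
        rw [h1, hlam, ← mul_assoc, heM _ (by omega) (by omega)]
      have hlamspan := ih (k - 2) (by omega) (by omega) (r - 1) lam hlamS hlame
      have h4 := span_L 1 hlamspan
      rw [pow_one] at h4
      have h5 : r - 1 + ((1 : ℕ) : ℤ) = r := by push_cast; ring
      rw [h5] at h4
      -- the primitive part
      have hu : z - L * lam ∈ Submodule.span ℚ (PrimSet n e L S r) := by
        apply Submodule.subset_span
        refine ⟨0, n - k, z - L * lam, by omega, ?_, ?_, ?_, by simp⟩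
        · have h6 := hSL _ _ hlamS
          have h7 : r - 1 + 1 = r := by ring
          rw [h7] at h6
          have h8 : r - ((0 : ℕ) : ℤ) = r := by simp
          rw [h8]
          exact Submodule.sub_mem _ hz h6
        · have h6 : (n : ℤ) - ((n - k : ℕ) : ℤ) = k := by omega
          have h7 : (k : ℤ) = ((k - 2 : ℕ) : ℤ) + 2 := by omega
          rw [h6, mul_sub, hez]
          congr 1
          rw [h7, ← mul_assoc, ← hLe, mul_assoc, hlame]
        · have h6 : L ^ (n - k + 1) * (L * lam) = L ^ (n - k + 1) * z := by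
            have h7 : L ^ (n - k + 1) * (L * lam)
                = (L ^ (n - k + 2) * M ((k : ℤ) - 2)) * (L ^ (n - k + 1) * z) := by
              rw [hlam, pow_succ L (n - k + 1)]
              simp only [mul_assoc]
            have h8 : ((n : ℤ) - ((k : ℤ) - 2)).toNat = n - k + 2 := by omega
            have h9 := hLM ((k : ℤ) - 2) (by omega) (by omega)
            rw [h8] at h9
            have h10 : 2 * (n : ℤ) - ((k : ℤ) - 2) = (k : ℤ) + 2 * ((n - k + 1 : ℕ) : ℤ) := by
              push_cast [Nat.cast_sub hk]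
              ring
            rw [h7, h9, h10, ← mul_assoc, ← e_Lpow hLe, mul_assoc, hez]
          rw [mul_sub, h6, sub_self]
      have : z = (z - L * lam) + L * lam := by rw [sub_add_cancel]
      rw [this]
      exact Submodule.add_mem _ hu h4

theorem lef_one (he0 : ∀ k : ℤ, k < 0 ∨ 2 * (n : ℤ) < k → e k = 0)
    (hLe : ∀ k, L * e k = e (k + 2) * L)
    (hLM : ∀ k : ℤ, 0 ≤ k → k ≤ n → L ^ ((n : ℤ) - k).toNat * M k = e (2 * n - k))
    (heM : ∀ k : ℤ, 0 ≤ k → k ≤ n → e k * M k = M k)
    (hSL : ∀ r, ∀ u ∈ S r, L * u ∈ S (r + 1))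
    (hSM : ∀ (r k : ℤ), 0 ≤ k → k ≤ n → ∀ u ∈ S r, M k * u ∈ S (r - n + k))
    (k r : ℤ) (z : C) (hz : z ∈ S r) (hez : e k * z = z) :
      z ∈ Submodule.span ℚ (PrimSet n e L S r) := by
  by_cases hk : k < 0 ∨ 2 * (n : ℤ) < k
  · rw [← hez, he0 k hk, zero_mul]
    exact Submodule.zero_mem _
  push Not at hk
  by_cases hkn : k ≤ n
  · obtain ⟨k', rfl⟩ : ∃ k' : ℕ, (k' : ℤ) = k := ⟨k.toNat, by omega⟩
    exact lef_low he0 hLe hLM heM hSL hSM k' (by omega) r z hz hez
  · have h1 := hSM r (2 * n - k) (by omega) (by omega) z hz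
    have h2 := lef_low he0 hLe hLM heM hSL hSM (2 * (n : ℤ) - k).toNat (by omega)
      (r - n + (2 * n - k)) (M (2 * n - k) * z) h1 (by
        have : (((2 * (n : ℤ) - k).toNat : ℕ) : ℤ) = 2 * n - k := by omega
        rw [this, ← mul_assoc, heM _ (by omega) (by omega)])
    have h3 := span_L (k - n).toNat h2
    have h4 : r - (n : ℤ) + (2 * n - k) + ((k - n).toNat : ℕ) = r := by omega
    rw [h4] at h3
    have h5 := hLM (2 * n - k) (by omega) (by omega)
    have h6 : ((n : ℤ) - (2 * n - k)).toNat = (k - n).toNat := by congr 1; ring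
    have h7 : 2 * (n : ℤ) - (2 * n - k) = k := by ring
    rw [h6, h7] at h5
    rw [← mul_assoc, h5, hez] at h3
    exact h3

end One

end SDCK
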