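import Pool.Agent.LibLF72.M2a
import Pool.Agent.LibMHL5.MP

/-!
The Lefschetz decomposition for several commuting Lefschetz structures, and a right inverse of a
product of positive combinations of the Lefschetz operators.
-/

set_option autoImplicit false

namespace SDCK

variable {C : Type*} [Ring C] [Algebra ℚ C]

/-- Commuting Lefschetz structures (hypotheses only). -/
structure LefSys {s : ℕ} (n : Fin s → ℕ) (e : Fin s → ℤ → C) (L : Fin s → C)
    (M : Fin s → ℤ → C) (Δ : C) (G : ℤ → Submodule ℚ C) : Prop where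
  ortho : ∀ j k l, e j k * e j l = if k = l then e j k else 0
  zero : ∀ j (k : ℤ), k < 0 ∨ 2 * (n j : ℤ) < k → e j k = 0
  sum : ∀ j, ∑ k ∈ Finset.Icc (0 : ℤ) (2 * n j), e j k = Δ
  shift : ∀ j k, L j * e j k = e j (k + 2) * L j
  inv : ∀ j (k : ℤ), 0 ≤ k → k ≤ n j → L j ^ ((n j : ℤ) - k).toNat * M j k = e j (2 * n j - k)
  left : ∀ j (k : ℤ), 0 ≤ k → k ≤ n j → e j k * M j k = M j k
  comm_LL : ∀ i j, i ≠ j → L i * L j = L j * L i
  comm_Le : ∀ i j, i ≠ j → ∀ k, L i * e j k = e j k * L i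
  comm_ee : ∀ i j, i ≠ j → ∀ k l, e i k * e j l = e j l * e i k
  comm_ML : ∀ i j, i ≠ j → ∀ k, M i k * L j = L j * M i k
  comm_Me : ∀ i j, i ≠ j → ∀ k l, M i k * e j l = e j l * M i k
  G_L : ∀ j r u, u ∈ G r → L j * u ∈ G (r + 1)
  G_e : ∀ j k r u, u ∈ G r → e j k * u ∈ G r
  G_M : ∀ j (k : ℤ) r u, 0 ≤ k → k ≤ n j → u ∈ G r → M j k * u ∈ G (r - n j + k)

variable {s : ℕ} {n : Fin s → ℕ} {e : Fin s → ℤ → C} {L : Fin s → C} {M : Fin s → ℤ → C} {Δ : C}
  {G : ℤ → Submodule ℚ C}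

namespace LefSys

theorem commL' (H : LefSys n e L M Δ G) : ∀ i j, i ≠ j → Commute (L i) (L j) := H.comm_LL

theorem Δ_e (H : LefSys n e L M Δ G) (j : Fin s) (l : ℤ) : Δ * e j l = e j l := by
  by_cases hl : l ∈ Finset.Icc (0 : ℤ) (2 * n j)
  · rw [← H.sum j, Finset.sum_mul, Finset.sum_eq_single l]
    · rw [H.ortho, if_pos rfl]
    · intro k _ hk
      rw [H.ortho, if_neg hk]
    · intro h
      exact absurd hl h
  · rw [H.zero j l (by
      rw [Finset.mem_Icc] at hl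
      omega), mul_zero]

theorem Δ_L (H : LefSys n e L M Δ G) (j : Fin s) (u : C) (hu : Δ * u = u) :
    Δ * (L j * u) = L j * u := by
  have h1 : L j * u = ∑ k ∈ Finset.Icc (0 : ℤ) (2 * n j), e j (k + 2) * (L j * u) := by
    conv_lhs => rw [← hu, ← H.sum j, Finset.sum_mul, Finset.mul_sum]
    refine Finset.sum_congr rfl fun k _ => ?_
    rw [← mul_assoc, H.shift, mul_assoc]
  rw [h1, Finset.mul_sum]
  refine Finset.sum_congr rfl fun k _ => ?_
  rw [← mul_assoc, H.Δ_e]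

theorem Δ_M (H : LefSys n e L M Δ G) (j : Fin s) (k : ℤ) (h0 : 0 ≤ k) (h1 : k ≤ n j) (u : C) :
    Δ * (M j k * u) = M j k * u := by
  rw [← H.left j k h0 h1, mul_assoc, ← mul_assoc Δ, H.Δ_e]

/-- The primitive elements for the indices in `A`. -/
def Sub (_H : LefSys n e L M Δ G) (A : Finset (Fin s)) (μ : Fin s → ℕ) (r : ℤ) :
    Submodule ℚ C where
  carrier := {w | w ∈ G r ∧ Δ * w = w ∧ ∀ j ∈ A, e j ((n j : ℤ) - μ j) * w = w ∧
    L j ^ (μ j + 1) * w = 0}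
  add_mem' := by
    rintro a b ⟨ha1, ha2, ha3⟩ ⟨hb1, hb2, hb3⟩
    refine ⟨Submodule.add_mem _ ha1 hb1, by rw [mul_add, ha2, hb2], fun j hj => ⟨?_, ?_⟩⟩
    · rw [mul_add, (ha3 j hj).1, (hb3 j hj).1]
    · rw [mul_add, (ha3 j hj).2, (hb3 j hj).2, add_zero]
  zero_mem' := ⟨Submodule.zero_mem _, mul_zero _, fun _ _ => ⟨mul_zero _, mul_zero _⟩⟩
  smul_mem' := by
    rintro c a ⟨ha1, ha2, ha3⟩
    refine ⟨Submodule.smul_mem _ _ ha1, by rw [mul_smul_comm, ha2], fun j hj => ⟨?_, ?_⟩⟩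
    · rw [mul_smul_comm, (ha3 j hj).1]
    · rw [mul_smul_comm, (ha3 j hj).2, smul_zero]

theorem mem_Sub (H : LefSys n e L M Δ G) (A : Finset (Fin s)) (μ : Fin s → ℕ) (r : ℤ) (w : C) :
    w ∈ H.Sub A μ r ↔ w ∈ G r ∧ Δ * w = w ∧ ∀ j ∈ A, e j ((n j : ℤ) - μ j) * w = w ∧
      L j ^ (μ j + 1) * w = 0 := Iff.rfl

/-- The generators. -/
def Gen (H : LefSys n e L M Δ G) (A : Finset (Fin s)) (r : ℤ) : Set C :=
  {v | ∃ (b : Fin s →₀ ℕ) (μ : Fin s → ℕ) (u : C), (∀ j ∈ A, μ j ≤ n j) ∧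
    u ∈ H.Sub A μ (r - ∑ j, (b j : ℤ)) ∧ v = Lpow L H.commL' b * u}

theorem Sub_L (H : LefSys n e L M Δ G) {A : Finset (Fin s)} {j₀ : Fin s} (hj₀ : j₀ ∉ A)
    (μ : Fin s → ℕ) (r : ℤ) (u : C) (hu : u ∈ H.Sub A μ r) : L j₀ * u ∈ H.Sub A μ (r + 1) := by
  obtain ⟨h1, h2, h3⟩ := hu
  refine ⟨H.G_L j₀ r u h1, H.Δ_L j₀ u h2, fun j hj => ?_⟩
  have hne : j₀ ≠ j := fun h => hj₀ (h ▸ hj)
  constructor
  · rw [← mul_assoc, ← H.comm_Le j₀ j hne, mul_assoc, (h3 j hj).1]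
  · have hc : Commute (L j ^ (μ j + 1)) (L j₀) := (H.commL' j j₀ hne.symm).pow_left _
    rw [← mul_assoc, hc.eq, mul_assoc, (h3 j hj).2, mul_zero]

theorem Sub_M (H : LefSys n e L M Δ G) {A : Finset (Fin s)} {j₀ : Fin s} (hj₀ : j₀ ∉ A)
    (μ : Fin s → ℕ) (r k : ℤ) (hk0 : 0 ≤ k) (hk1 : k ≤ n j₀) (u : C) (hu : u ∈ H.Sub A μ r) :
    M j₀ k * u ∈ H.Sub A μ (r - n j₀ + k) := by
  obtain ⟨h1, h2, h3⟩ := hu
  refine ⟨H.G_M j₀ k r u hk0 hk1 h1, H.Δ_M j₀ k hk0 hk1 u, fun j hj => ?_⟩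
  have hne : j₀ ≠ j := fun h => hj₀ (h ▸ hj)
  constructor
  · rw [← mul_assoc, ← H.comm_Me j₀ j hne, mul_assoc, (h3 j hj).1]
  · have hc : Commute (L j ^ (μ j + 1)) (M j₀ k) := by
      apply Commute.pow_left
      exact (H.comm_ML j₀ j hne k).symm
    rw [← mul_assoc, hc.eq, mul_assoc, (h3 j hj).2, mul_zero]

theorem Sub_e (H : LefSys n e L M Δ G) {A : Finset (Fin s)} {j₀ : Fin s} (hj₀ : j₀ ∉ A)
    (μ : Fin s → ℕ) (r k : ℤ) (u : C) (hu : u ∈ H.Sub A μ r) :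
    e j₀ k * u ∈ H.Sub A μ r := by
  obtain ⟨h1, h2, h3⟩ := hu
  refine ⟨H.G_e j₀ k r u h1, ?_, fun j hj => ?_⟩
  · rw [← mul_assoc, H.Δ_e]
  have hne : j₀ ≠ j := fun h => hj₀ (h ▸ hj)
  constructor
  · rw [← mul_assoc, ← H.comm_ee j₀ j hne, mul_assoc, (h3 j hj).1]
  · have hc : Commute (L j ^ (μ j + 1)) (e j₀ k) := by
      apply Commute.pow_left
      exact H.comm_Le j j₀ hne.symm k
    rw [← mul_assoc, hc.eq, mul_assoc, (h3 j hj).2, mul_zero]

theorem sum_single (b : Fin s →₀ ℕ) (j₀ : Fin s) (a : ℕ) :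
    ∑ j, (((b + Finsupp.single j₀ a) j : ℕ) : ℤ) = (∑ j, (b j : ℤ)) + a := by
  simp only [Finsupp.add_apply, Nat.cast_add, Finset.sum_add_distrib]
  congr 1
  rw [Finset.sum_eq_single j₀]
  · simp
  · intro j _ hj
    rw [Finsupp.single_eq_of_ne hj]
    rfl
  · intro h
    exact absurd (Finset.mem_univ _) h

/-- The Lefschetz decomposition with respect to the indices in `A`. -/
theorem decomp (H : LefSys n e L M Δ G) (A : Finset (Fin s)) (r : ℤ) (z : C) (hz : z ∈ G r)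
    (hΔ : Δ * z = z) : z ∈ Submodule.span ℚ (H.Gen A r) := by
  induction A using Finset.induction_on with
  | empty =>
    apply Submodule.subset_span
    refine ⟨0, fun _ => 0, z, by simp, ⟨by simpa using hz, hΔ, by simp⟩, ?_⟩
    rw [Lpow_zero, one_mul]
  | insert j₀ A hj₀ ih =>
    refine (Submodule.span_le.2 ?_) ih
    rintro v ⟨b, μ, u, hμ, hu, rfl⟩
    -- decompose `u` in weights for `j₀`
    have hsum : Lpow L H.commL' b * u
        = ∑ k ∈ Finset.Icc (0 : ℤ) (2 * n j₀), Lpow L H.commL' b * (e j₀ k * u) := by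
      rw [← Finset.mul_sum, ← Finset.sum_mul, H.sum j₀, hu.2.1]
    rw [hsum]
    refine Submodule.sum_mem _ fun k _ => ?_
    have h1 := lef_one (n := n j₀) (e := e j₀) (L := L j₀) (M := M j₀)
      (S := H.Sub A μ) (H.zero j₀) (H.shift j₀) (H.inv j₀) (H.left j₀)
      (fun r u hu => H.Sub_L hj₀ μ r u hu)
      (fun r k h0 h1 u hu => H.Sub_M hj₀ μ r k h0 h1 u hu)
      k (r - ∑ j, (b j : ℤ)) (e j₀ k * u) (H.Sub_e hj₀ μ _ k u hu)
      (by rw [← mul_assoc, H.ortho, if_pos rfl])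
    -- multiply by the monomial
    generalize e j₀ k * u = w at h1
    induction h1 using Submodule.span_induction with
    | mem v hv =>
      obtain ⟨a, μ₀, u', hμ₀, hu', h3, h4, rfl⟩ := hv
      apply Submodule.subset_span
      refine ⟨b + Finsupp.single j₀ a, Function.update μ j₀ μ₀, u', ?_, ?_, ?_⟩
      · intro j hj
        by_cases hjj : j = j₀
        · subst hjj
          rw [Function.update_self]
          exact hμ₀
        · rw [Function.update_of_ne hjj]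
          exact hμ j ((Finset.mem_insert.1 hj).resolve_left hjj)
      · refine ⟨?_, hu'.2.1, ?_⟩
        · have h5 := hu'.1
          rw [sum_single]
          have h6 : r - ∑ j, (b j : ℤ) - a = r - (∑ j, (b j : ℤ) + a) := by ring
          rw [← h6]
          exact h5
        · intro j hj
          by_cases hjj : j = j₀
          · subst hjj
            rw [Function.update_self]
            exact ⟨h3, h4⟩
          · rw [Function.update_of_ne hjj]
            exact hu'.2.2 j ((Finset.mem_insert.1 hj).resolve_left hjj)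
      · rw [Lpow_add, Lpow_single, mul_assoc]
    | zero => rw [mul_zero]; exact Submodule.zero_mem _
    | add x y _ _ hx hy => rw [mul_add]; exact Submodule.add_mem _ hx hy
    | smul c x _ hx => rw [mul_smul_comm]; exact Submodule.smul_mem _ c hx

end LefSys

end SDCK
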