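import Pool.Agent.LibLF72.Data
import Pool.Agent.LibLF72.M2

/-!
# Mixed hard Lefschetz for commuting Lefschetz structures
-/

set_option autoImplicit false

namespace SDCK

universe u v

namespace Cycles

variable {T : Cycles.{u, v}} {y : T.ι} {s : ℕ} {D : Fin s → Set T.C}

theorem LefData.right_inv (h : T.LefData y s D) {k : ℤ} (hk0 : 0 ≤ k) (hk : k ≤ T.dim y)
    {m : ℕ} (hm : (m : ℤ) = T.dim y - k) (c : Fin m → Fin s → ℚ) (hc : ∀ t j, 0 < c t j) :
    ∃ N ∈ T.Deg y (-(m : ℤ)),
      (List.ofFn fun t => ∑ j, c t j • h.L j).prod * N = h.P (2 * T.dim y - k) := by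
  have hG := deg_mgr (T := T) y
  have H : LefSys h.n h.e h.L h.M (T.Δ y) (T.Deg y) :=
    { ortho := fun j => (h.e_gr j).ortho
      zero := fun j => (h.e_gr j).zero
      sum := fun j => (h.e_gr j).sum
      shift := h.L_shift
      inv := h.M_inv
      left := fun j k _ _ => h.M_left j k
      comm_LL := h.comm_LL
      comm_Le := h.comm_Le
      comm_ee := h.comm_ee
      comm_ML := h.comm_ML
      comm_Me := h.comm_Me
      G_L := fun j r u hu => by
        have h1 := hG.mul (h.L_mem j) hu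
        rwa [add_comm 1 r] at h1
      G_e := fun j k r u hu => by
        have h1 := hG.mul (h.e_mem j k) hu
        rwa [zero_add] at h1
      G_M := fun j k r u _ _ hu => by
        have h1 := hG.mul (h.M_mem j k) hu
        rwa [show k - (h.n j : ℤ) + r = r - h.n j + k by ring] at h1 }
  exact H.right_inverse (T.dim y) h.n_sum h.P_gr.ortho h.P_gr.sum h.P_mem h.weight k hk0 hk m hm
    c hc

/-- `x` is a combination with positive coefficients of divisors, `x₀` its graded component -/
def LefData.Combo (h : T.LefData y s D) (x x₀ : T.C) : Prop :=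
  ∃ r : Fin s → ℚ, (∀ j, 0 < r j) ∧ ∃ F : Fin s → T.C, (∀ j, F j ∈ D j) ∧
    x = ∑ j, r j • F j ∧ x₀ = ∑ j, r j • h.L j

theorem LefData.Combo.mem {h : T.LefData y s D} {x x₀ : T.C} (hx : h.Combo x x₀) :
    x ∈ T.Deg y 1 := by
  obtain ⟨r, -, F, hF, rfl, -⟩ := hx
  exact Submodule.sum_mem _ fun j _ => Submodule.smul_mem _ _ (h.D_mem j _ (hF j))

theorem LefData.Combo.star {h : T.LefData y s D} {x x₀ : T.C} (hx : h.Combo x x₀) :
    star x = x := by
  obtain ⟨r, -, F, hF, rfl, -⟩ := hx
  rw [star_sum]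
  exact Finset.sum_congr rfl fun j _ => by rw [star_rat_smul, h.D_star j _ (hF j)]

theorem LefData.Combo.star₀ {h : T.LefData y s D} {x x₀ : T.C} (hx : h.Combo x x₀) :
    Star.star x₀ = x₀ := by
  obtain ⟨r, -, F, hF, -, rfl⟩ := hx
  rw [star_sum]
  exact Finset.sum_congr rfl fun j _ => by rw [star_rat_smul, h.L_star j]

theorem LefData.Combo.fil {h : T.LefData y s D} {x x₀ : T.C} (hx : h.Combo x x₀) :
    Fil h.P h.P 1 x := by
  obtain ⟨r, -, F, hF, rfl, -⟩ := hx
  exact Fil.sum _ _ fun j _ => (h.D_fil j _ (hF j)).smul _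

theorem LefData.Combo.shift {h : T.LefData y s D} {x x₀ : T.C} (hx : h.Combo x x₀) (k : ℤ) :
    x₀ * h.P k = h.P (k + 2) * x₀ := by
  obtain ⟨r, -, F, hF, -, rfl⟩ := hx
  rw [Finset.sum_mul, Finset.mul_sum]
  exact Finset.sum_congr rfl fun j _ => by rw [smul_mul_assoc, mul_smul_comm, h.L_P]

theorem LefData.Combo.top {h : T.LefData y s D} {x x₀ : T.C} (hx : h.Combo x x₀) (k : ℤ) :
    h.P (k + 2) * x * h.P k = x₀ * h.P k := by
  have h1 : h.P (k + 2) * x * h.P k = h.P (k + 2) * x₀ * h.P k := by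
    obtain ⟨r, -, F, hF, rfl, rfl⟩ := hx
    rw [Finset.mul_sum, Finset.mul_sum, Finset.sum_mul, Finset.sum_mul]
    exact Finset.sum_congr rfl fun j _ => by
      rw [mul_smul_comm, mul_smul_comm, smul_mul_assoc, smul_mul_assoc, h.D_top j _ (hF j)]
  rw [h1, ← hx.shift, mul_assoc, h.P_gr.idem]

theorem LefData.list_mem (h : T.LefData y s D) {E E₀ : List T.C}
    (hE : List.Forall₂ h.Combo E E₀) : E.prod * T.Δ y ∈ T.Deg y E.length := by
  induction hE with
  | nil =>
    rw [List.prod_nil, one_mul, Deg, List.length_nil]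
    have h1 := T.Δ_mem y
    simpa using h1
  | cons hx _ ih =>
    rw [List.prod_cons, mul_assoc, List.length_cons]
    have h1 := (deg_mgr y).mul hx.mem ih
    rw [show ((_ + 1 : ℕ) : ℤ) = 1 + _ by push_cast; ring]
    exact h1

theorem LefData.list_fil (h : T.LefData y s D) {E E₀ : List T.C}
    (hE : List.Forall₂ h.Combo E E₀) : Fil h.P h.P E.length (E.prod * T.Δ y) := by
  induction hE with
  | nil =>
    rw [List.prod_nil, one_mul, List.length_nil]
    intro a b hab
    rw [h.P_gr.mul_Δ]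
    exact h.P_gr.ne (by push_cast at hab; omega)
  | cons hx hl ih =>
    rw [List.prod_cons, mul_assoc, List.length_cons]
    have h1 := Fil.mul h.P_gr hx.fil ih ((deg_mgr y).left (h.list_mem hl))
    rw [show ((_ + 1 : ℕ) : ℤ) = 1 + _ by push_cast; ring]
    exact h1

theorem LefData.list_top (h : T.LefData y s D) {E E₀ : List T.C}
    (hE : List.Forall₂ h.Combo E E₀) (k : ℤ) :
    h.P (k + 2 * E.length) * (E.prod * T.Δ y) * h.P k = E₀.prod * h.P k := by
  induction hE with
  | nil =>
    simp only [List.prod_nil, one_mul, List.length_nil, Nat.cast_zero, mul_zero, add_zero]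
    rw [h.P_gr.mul_Δ, h.P_gr.idem]
  | @cons x x₀ l l₀ hx hl ih =>
    rw [List.prod_cons, List.prod_cons, mul_assoc x, List.length_cons]
    have h1 := Fil.top h.P_gr hx.fil (h.list_fil hl) ((deg_mgr y).left (h.list_mem hl)) k
    have h2 : k + 2 * (((l.length + 1 : ℕ) : ℕ) : ℤ) = k + 2 * (1 + (l.length : ℤ)) := by
      push_cast
      ring
    rw [h2, h1, ih]
    have h3 : h.P (k + 2 * (1 + (l.length : ℤ))) * x * h.P (k + 2 * l.length) =
        x₀ * h.P (k + 2 * l.length) := by
      have h4 := hx.top (k + 2 * l.length)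
      rw [show k + 2 * (l.length : ℤ) + 2 = k + 2 * (1 + (l.length : ℤ)) by ring] at h4
      exact h4
    have h5 : h.P (k + 2 * l.length) * (l₀.prod * h.P k) = l₀.prod * h.P k := by
      rw [← ih, ← mul_assoc, ← mul_assoc, h.P_gr.idem]
    rw [h3, mul_assoc, h5, mul_assoc]

theorem LefData.star_list (h : T.LefData y s D) {E E₀ : List T.C}
    (hE : List.Forall₂ h.Combo E E₀) : star E₀.prod = E₀.reverse.prod := by
  induction hE with
  | nil => simp
  | cons hx _ ih => rw [List.prod_cons, star_mul, ih, hx.star₀, List.reverse_cons,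
      List.prod_append, List.prod_singleton]

/-- a left inverse of a product of combinations -/
theorem LefData.mixed (h : T.LefData y s D) {k : ℤ} (hk0 : 0 ≤ k) (hk : k ≤ T.dim y)
    {E E₀ : List T.C} (hE : List.Forall₂ h.Combo E E₀) (hlen : (E.length : ℤ) = T.dim y - k) :
    ∃ M ∈ T.Deg y (k - T.dim y), h.P k * M = M ∧ M * h.P (2 * T.dim y - k) = M ∧
      M * (E.prod * T.Δ y) * h.P k = h.P k := by
  have hrev : List.Forall₂ h.Combo E.reverse E₀.reverse := List.forall₂_reverse_iff.2 hE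
  -- the coefficients
  have hcoef : ∀ (A A₀ : List T.C), List.Forall₂ h.Combo A A₀ →
      ∃ m : ℕ, m = A.length ∧ ∃ c : Fin m → Fin s → ℚ, (∀ t j, 0 < c t j) ∧
        A₀ = List.ofFn fun t => ∑ j, c t j • h.L j := by
    intro A A₀ hA
    induction hA with
    | nil => exact ⟨0, rfl, fun t => t.elim0, fun t => t.elim0, by simp⟩
    | cons hx _ ih =>
      obtain ⟨m, hm, c, hc, hcE⟩ := ih
      obtain ⟨r, hr, F, hF, -, hx0⟩ := hx
      refine ⟨m + 1, by rw [hm, List.length_cons],
        Fin.cons (α := fun _ => Fin s → ℚ) r c, fun t => ?_, ?_⟩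
      · refine Fin.cases ?_ (fun t => ?_) t
        · intro j
          rw [Fin.cons_zero]
          exact hr j
        · intro j
          rw [Fin.cons_succ]
          exact hc t j
      · rw [List.ofFn_succ, hcE, hx0]
        simp only [Fin.cons_zero, Fin.cons_succ]
  obtain ⟨m, hm, c, hc, hcE⟩ := hcoef _ _ hrev
  rw [List.length_reverse] at hm
  have hmk : (m : ℤ) = T.dim y - k := by rw [hm, hlen]
  obtain ⟨N, hN, hEN⟩ := h.right_inv hk0 hk hmk c hc
  rw [← hcE] at hEN
  have h1 : star N * E₀.prod = h.P k := by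
    have h2 := congrArg star hEN
    rw [star_mul, h.P_star, sub_sub_cancel, ← h.star_list hE, star_star] at h2
    exact h2
  refine ⟨h.P k * star N * h.P (2 * T.dim y - k), ?_, ?_, ?_, ?_⟩
  · have h2 := (deg_mgr y).mul ((deg_mgr y).mul (h.P_mem k) ((deg_mgr y).star hN))
      (h.P_mem (2 * T.dim y - k))
    rw [show (0 : ℤ) + -(m : ℤ) + 0 = k - T.dim y by rw [hmk]; ring] at h2
    exact h2
  · rw [← mul_assoc, ← mul_assoc, h.P_gr.idem]
  · rw [mul_assoc, h.P_gr.idem]
  · have h2 := h.list_top hE k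
    rw [show k + 2 * (E.length : ℤ) = 2 * T.dim y - k by rw [hlen]; ring] at h2
    have h3 : h.P k * star N * h.P (2 * T.dim y - k) * (E.prod * T.Δ y) * h.P k =
        h.P k * star N * (h.P (2 * T.dim y - k) * (E.prod * T.Δ y) * h.P k) := by
      simp only [mul_assoc]
    rw [h3, h2]
    have h4 : h.P k * star N * (E₀.prod * h.P k) = h.P k * (star N * E₀.prod) * h.P k := by
      simp only [mul_assoc]
    rw [h4, h1, h.P_gr.idem, h.P_gr.idem]

end Cycles

end SDCK
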