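import Pool.Agent.LibLF72.Data

/-!
# Products, with linear maps
-/

set_option autoImplicit false

namespace SDCK

universe u v

namespace Cycles

variable (T : Cycles.{u, v})

/-- (linear version) `V y` is the product of `V i` and `V j`: `θ a = a × Δ`, `θ' b = Δ × b` for correspondences `a` of
`V i` and `b` of `V j`, of any degree. -/
structure IsProdL (i j y : T.ι) (θ θ' : T.C →ₗ[ℚ] T.C) : Prop where
  dim : T.dim y = T.dim i + T.dim j
  mem : ∀ (r : ℤ), ∀ a ∈ T.CH i i (T.dim i + r), θ a ∈ T.CH y y (T.dim y + r)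
  mem' : ∀ (r : ℤ), ∀ b ∈ T.CH j j (T.dim j + r), θ' b ∈ T.CH y y (T.dim y + r)
  one : θ (T.Δ i) = T.Δ y
  one' : θ' (T.Δ j) = T.Δ y
  mul : ∀ (r s : ℤ), ∀ a ∈ T.CH i i r, ∀ b ∈ T.CH i i s, θ (a * b) = θ a * θ b
  mul' : ∀ (r s : ℤ), ∀ a ∈ T.CH j j r, ∀ b ∈ T.CH j j s, θ' (a * b) = θ' a * θ' b
  star_eq : ∀ (r : ℤ), ∀ a ∈ T.CH i i r, θ (star a) = star (θ a)
  star_eq' : ∀ (r : ℤ), ∀ b ∈ T.CH j j r, θ' (star b) = star (θ' b)
  comm : ∀ (r s : ℤ), ∀ a ∈ T.CH i i r, ∀ b ∈ T.CH j j s, θ a * θ' b = θ' b * θ a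
  /-- Künneth formula -/
  kunneth : ∀ p p', T.IsCK i p → T.IsCK j p' → ∀ k : Fin (2 * T.dim y + 1),
    T.R (∑ l : Fin (2 * T.dim i + 1), ∑ m : Fin (2 * T.dim j + 1),
      if (l : ℕ) + m = k then θ (p l) * θ' (p' m) else 0) = T.π y k

variable {T}

/-- the linear map of a factor -/
def IsFactor.lin {i y : T.ι} {θ : T.C → T.C} (h : T.IsFactor i y θ) : T.C →ₗ[ℚ] T.C where
  toFun := θ
  map_add' := h.add
  map_smul' := h.smul

theorem IsProd.lin {i j y : T.ι} {θ θ' : T.C → T.C} (h : T.IsProd i j y θ θ') :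
    T.IsProdL i j y h.left.lin h.right.lin where
  dim := h.dim
  mem := h.left.mem
  mem' := h.right.mem
  one := h.left.one
  one' := h.right.one
  mul := h.left.mul
  mul' := h.right.mul
  star_eq := h.left.star_eq
  star_eq' := h.right.star_eq
  comm := h.comm
  kunneth := h.kunneth

end Cycles

end SDCK
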