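import Pool.Agent.LibLF72.Gr

/-!
# A filtered left inverse
-/

set_option autoImplicit false

namespace SDCK

universe u v

/-- a graded star ring with unit `Δ` inside `C`: `G r` are the elements of degree `r` -/
structure MGr {C : Type u} [Ring C] [Algebra ℚ C] [StarRing C] (Δ : C)
    (G : ℤ → Submodule ℚ C) : Prop where
  mul : ∀ {r s : ℤ} {a b : C}, a ∈ G r → b ∈ G s → a * b ∈ G (r + s)
  star : ∀ {r : ℤ} {a : C}, a ∈ G r → star a ∈ G r
  left : ∀ {r : ℤ} {a : C}, a ∈ G r → Δ * a = a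
  right : ∀ {r : ℤ} {a : C}, a ∈ G r → a * Δ = a

section

variable {C : Type u} [Ring C] [Algebra ℚ C] [StarRing C] {Δ : C} {G : ℤ → Submodule ℚ C}
  {P : ℤ → C}

theorem MGr.pow (hG : MGr Δ G) {r : ℤ} {a : C} (ha : a ∈ G r) (i : ℕ) {s : ℤ} {b : C}
    (hb : b ∈ G s) : a ^ i * b ∈ G (i * r + s) := by
  induction i with
  | zero =>
    rw [pow_zero, one_mul]
    push_cast
    rwa [zero_mul, zero_add]
  | succ i ih =>
    rw [pow_succ', mul_assoc]
    have h1 := hG.mul ha ih
    have h2 : r + (i * r + s) = ((i + 1 : ℕ) : ℤ) * r + s := by push_cast; ring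
    rwa [h2] at h1

/-- `E_< = ∑_{k < d} P k` -/
theorem sum_mul_P {n : ℕ} (hP : IsGr Δ n P) {d : ℕ} {l : ℤ} (hl : 0 ≤ l) (hld : l < d) :
    (∑ k ∈ Finset.Ico (0 : ℤ) d, P k) * P l = P l := by
  rw [Finset.sum_mul, Finset.sum_eq_single l]
  · exact hP.idem l
  · intro k _ hk
    exact hP.ne hk
  · intro h
    exfalso
    apply h
    rw [Finset.mem_Ico]
    omega

theorem P_mul_sum {n : ℕ} (hP : IsGr Δ n P) {d : ℕ} {l : ℤ} (hl : 0 ≤ l) (hld : l < d) :
    P l * (∑ k ∈ Finset.Ico (0 : ℤ) d, P k) = P l := by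
  rw [Finset.mul_sum, Finset.sum_eq_single l]
  · exact hP.idem l
  · intro k _ hk
    exact hP.ne hk.symm
  · intro h
    exfalso
    apply h
    rw [Finset.mem_Ico]
    omega

theorem sum_mul_P' {n : ℕ} (hP : IsGr Δ n P) {d : ℕ} {l : ℤ} (hl : l < 0 ∨ d ≤ l) :
    (∑ k ∈ Finset.Ico (0 : ℤ) d, P k) * P l = 0 := by
  rw [Finset.sum_mul]
  refine Finset.sum_eq_zero fun k hk => hP.ne ?_
  rw [Finset.mem_Ico] at hk
  omega

theorem P_mul_sum' {n : ℕ} (hP : IsGr Δ n P) {d : ℕ} {l : ℤ} (hl : l < 0 ∨ d ≤ l) :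
    P l * (∑ k ∈ Finset.Ico (0 : ℤ) d, P k) = 0 := by
  rw [Finset.mul_sum]
  refine Finset.sum_eq_zero fun k hk => hP.ne ?_
  rw [Finset.mem_Ico] at hk
  omega

/-- a strictly lower triangular element is nilpotent -/
theorem lower_pow {n : ℕ} (hP : IsGr Δ n P) {ν : C} (hν : ν * Δ = ν)
    (hlow : ∀ a b : ℤ, a ≤ b → P b * ν * P a = 0) (i : ℕ) :
    ∀ a b : ℤ, a < b + i → P b * ν ^ i * P a = 0 ∨ i = 0 := by
  induction i with
  | zero => intro a b _; right; rfl
  | succ i ih =>
    intro a b hab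
    left
    rcases Nat.eq_zero_or_pos i with h0 | h0
    · subst h0
      rw [zero_add, pow_one]
      exact hlow a b (by push_cast at hab; omega)
    · rw [pow_succ']
      have h1 : P b * (ν * ν ^ i) * P a =
          ∑ c ∈ Finset.Icc (0 : ℤ) (2 * n), P b * ν * P c * (P c * ν ^ i * P a) := by
        have h3 : P b * (ν * ν ^ i) * P a = P b * ν * Δ * (ν ^ i * P a) := by
          rw [mul_assoc (P b) ν Δ, hν]
          simp only [mul_assoc]
        rw [h3, ← hP.sum, Finset.mul_sum, Finset.sum_mul]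
        refine Finset.sum_congr rfl fun c _ => ?_
        have h2 : P b * ν * P c * (P c * ν ^ i * P a) =
            P b * ν * (P c * P c) * (ν ^ i * P a) := by simp only [mul_assoc]
        rw [h2, hP.idem]
      rw [h1]
      refine Finset.sum_eq_zero fun c _ => ?_
      by_cases hc : c ≤ b
      · rw [hlow c b hc, zero_mul]
      · rcases ih a c (by push_cast at hab; omega) with h2 | h2
        · rw [h2, mul_zero]
        · omega

theorem exists_sigma (hG : MGr Δ G) {n d : ℕ} (hd : d ≤ n) (hP : IsGr Δ n P)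
    (hP0 : ∀ k, P k ∈ G 0) (hstar : ∀ k, star (P k) = P (2 * n - k)) {w : C}
    (hw : w ∈ G (n - d)) (hws : star w = w) (hwf : Fil P P (n - d) w) (s : ℤ → C)
    (hs : ∀ k : ℤ, 0 ≤ k → k < d → s k ∈ G (-(n - d)) ∧ P k * s k = s k ∧
      Fil P P (-(n - d)) (s k) ∧ s k * w * P k = P k) :
    ∃ σ ∈ G (-(n - d)), (∑ k ∈ Finset.Ico (0 : ℤ) d, P k) * σ = σ ∧
      σ * w * (∑ k ∈ Finset.Ico (0 : ℤ) d, P k) = ∑ k ∈ Finset.Ico (0 : ℤ) d, P k ∧
      Fil P P (-(n - d)) σ ∧ σ * w * star σ = 0 := by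
  set E : C := ∑ k ∈ Finset.Ico (0 : ℤ) d, P k with hE
  set S : C := ∑ k ∈ Finset.Ico (0 : ℤ) d, s k with hS
  have hlt : ∀ {k : ℤ}, k ∈ Finset.Ico (0 : ℤ) d → 0 ≤ k ∧ k < d := fun h => by
    rwa [Finset.mem_Ico] at h
  have hEE : E * E = E := by
    conv_lhs => rw [hE, Finset.mul_sum]
    exact Finset.sum_congr rfl fun k hk => sum_mul_P hP (hlt hk).1 (hlt hk).2
  have hE0 : E ∈ G 0 := Submodule.sum_mem _ fun k _ => hP0 k
  have hEf : Fil P P 0 E := Fil.sum _ _ fun k _ => hP.fil k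
  have hSG : S ∈ G (-(n - d)) := Submodule.sum_mem _ fun k hk => (hs k (hlt hk).1 (hlt hk).2).1
  have hSf : Fil P P (-(n - d)) S := Fil.sum _ _ fun k hk => (hs k (hlt hk).1 (hlt hk).2).2.2.1
  have hPS : ∀ k : ℤ, 0 ≤ k → k < d → P k * S = s k := by
    intro k hk hkd
    rw [hS, Finset.mul_sum, Finset.sum_eq_single k]
    · exact (hs k hk hkd).2.1
    · intro l hl hlk
      rw [← (hs l (hlt hl).1 (hlt hl).2).2.1, ← mul_assoc, hP.ne hlk.symm, zero_mul]
    · intro h
      exfalso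
      apply h
      rw [Finset.mem_Ico]
      omega
  have hES : E * S = S := by
    rw [hE, Finset.sum_mul]
    exact Finset.sum_congr rfl fun k hk => hPS k (hlt hk).1 (hlt hk).2
  have hSw : S * w ∈ G 0 := by
    have h1 := hG.mul hSG hw
    rwa [neg_add_cancel] at h1
  have hSwf : Fil P P 0 (S * w) := by
    have h1 := Fil.mul hP hSf hwf (hG.left hw)
    rwa [neg_add_cancel] at h1
  set ν : C := S * w * E - E with hν
  have hνG : ν ∈ G 0 := by
    refine Submodule.sub_mem _ ?_ hE0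
    have h1 := hG.mul hSw hE0
    rwa [add_zero] at h1
  have hEν : E * ν = ν := by
    rw [hν, mul_sub, ← mul_assoc, ← mul_assoc, hES, hEE]
  have hνE : ν * E = ν := by
    rw [hν, sub_mul, mul_assoc, hEE]
  have hlow : ∀ a b : ℤ, a ≤ b → P b * ν * P a = 0 := by
    intro a b hab
    by_cases hb : 0 ≤ b ∧ b < d
    · by_cases ha : 0 ≤ a ∧ a < d
      · have h1 : P b * ν * P a = s b * w * P a - P b * P a := by
          rw [hν, mul_sub, sub_mul]
          have h2 : P b * (S * w * E) * P a = P b * S * w * (E * P a) := by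
            simp only [mul_assoc]
          rw [h2, hPS b hb.1 hb.2, hE, sum_mul_P hP ha.1 ha.2, ← hE, P_mul_sum hP hb.1 hb.2]
        rw [h1]
        rcases hab.lt_or_eq with h | h
        · have h3 : s b * w * P a = 0 := by
            rw [← (hs b hb.1 hb.2).2.1]
            have h4 := Fil.mul hP (hs b hb.1 hb.2).2.2.1 hwf (hG.left hw)
            have h5 := h4 a b (by omega)
            rw [← mul_assoc] at h5
            exact h5
          rw [h3, hP.ne (by omega), sub_zero]
        · subst h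
          rw [(hs a hb.1 hb.2).2.2.2, hP.idem, sub_self]
      · rw [← hνE]
        rw [mul_assoc (P b), mul_assoc ν, hE, sum_mul_P' hP (by omega), mul_zero, mul_zero]
    · rw [← hEν]
      rw [← mul_assoc (P b), hE, P_mul_sum' hP (by omega), zero_mul, zero_mul]
  have hνp : ∀ i : ℕ, ν ^ (i + 1) * E = ν ^ (i + 1) := fun i => by
    rw [pow_succ, mul_assoc, hνE]
  have hνp' : ∀ i : ℕ, E * ν ^ (i + 1) = ν ^ (i + 1) := fun i => by
    rw [pow_succ', ← mul_assoc, hEν]
  have hnil : ν ^ (d + 1) = 0 := by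
    rw [← hνp, ← hνp', hE, Finset.sum_mul, Finset.sum_mul]
    refine Finset.sum_eq_zero fun b hb => ?_
    rw [Finset.mul_sum]
    refine Finset.sum_eq_zero fun a ha => ?_
    rcases lower_pow hP (hG.right hνG) hlow (d + 1) a b (by
      have h1 := hlt ha
      have h2 := hlt hb
      push_cast
      omega) with h | h
    · exact h
    · omega
  -- the first approximation
  set σ₀ : C := ∑ i ∈ Finset.range (d + 1), (-ν) ^ i * S with hσ₀
  have hσG : σ₀ ∈ G (-(n - d)) := by
    refine Submodule.sum_mem _ fun i _ => ?_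
    have h1 := hG.pow (Submodule.neg_mem _ hνG) i hSG
    rwa [mul_zero, zero_add] at h1
  have hνf : Fil P P 0 ν := by
    rw [hν]
    refine Fil.sub ?_ hEf
    have h1 := Fil.mul hP hSwf hEf (hG.left hE0)
    rwa [add_zero] at h1
  have hpf : ∀ i : ℕ, Fil P P (-(n - d)) ((-ν) ^ i * S) := by
    intro i
    induction i with
    | zero => rw [pow_zero, one_mul]; exact hSf
    | succ i ih =>
      rw [pow_succ', mul_assoc]
      have h1 := Fil.mul hP hνf.neg ih (hG.left (by
        have h1 := hG.pow (Submodule.neg_mem _ hνG) i hSG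
        exact h1))
      rwa [zero_add] at h1
  have hσf : Fil P P (-(n - d)) σ₀ := Fil.sum _ _ fun i _ => hpf i
  have hEσ : E * σ₀ = σ₀ := by
    rw [hσ₀, Finset.mul_sum]
    refine Finset.sum_congr rfl fun i _ => ?_
    rw [← mul_assoc]
    rcases i with _ | i
    · rw [pow_zero, mul_one, one_mul, hES]
    · rw [neg_pow, mul_assoc ((-1) ^ (i + 1)), ← mul_assoc E]
      have h1 : E * (-1 : C) ^ (i + 1) = (-1) ^ (i + 1) * E :=
        (((Commute.one_right E).neg_right).pow_right (i + 1)).eq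
      rw [h1]
      simp only [mul_assoc]
      rw [← mul_assoc E (ν ^ (i + 1)), hνp']
  have hσE : σ₀ * w * E = E := by
    have h1 : σ₀ * w * E = ∑ i ∈ Finset.range (d + 1), ((-ν) ^ i * E - (-ν) ^ (i + 1)) := by
      rw [hσ₀, Finset.sum_mul, Finset.sum_mul]
      refine Finset.sum_congr rfl fun i _ => ?_
      have h2 : (-ν) ^ i * S * w * E = (-ν) ^ i * (S * w * E) := by simp only [mul_assoc]
      have h3 : S * w * E = E + ν := by rw [hν]; abel
      rw [h2, h3, mul_add, pow_succ, mul_neg]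
      abel
    rw [h1, Finset.sum_sub_distrib, Finset.sum_range_succ', Finset.sum_range_succ]
    have h4 : ∀ i, (-ν) ^ (i + 1) * E = (-ν) ^ (i + 1) := fun i => by
      rw [pow_succ, mul_assoc, neg_mul, hνE]
    rw [pow_zero, one_mul, Finset.sum_congr rfl fun i _ => h4 i]
    have h5 : (-ν) ^ (d + 1) = 0 := by rw [neg_pow, hnil, mul_zero]
    rw [h5, add_zero]
    abel
  -- adjoint
  have hstarσ : star σ₀ ∈ G (-(n - d)) := hG.star hσG
  have hstarf : Fil P P (-(n - d)) (star σ₀) := Fil.star hstar hσf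
  have hss : star σ₀ * w * E = 0 := by
    have h1 : star σ₀ = star σ₀ * star E := by
      rw [← star_mul, hEσ]
    have h2 : star E * w * E = 0 := by
      rw [hE, star_sum, Finset.sum_mul, Finset.sum_mul]
      refine Finset.sum_eq_zero fun k hk => ?_
      rw [Finset.mul_sum]
      refine Finset.sum_eq_zero fun l hl => ?_
      rw [hstar]
      have h3 := hlt hk
      have h4 := hlt hl
      exact hwf l (2 * n - k) (by omega)
    rw [h1]
    have h3 : star σ₀ * star E * w * E = star σ₀ * (star E * w * E) := by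
      simp only [mul_assoc]
    rw [h3, h2, mul_zero]
  have h1 : σ₀ * w * σ₀ = σ₀ := by
    calc σ₀ * w * σ₀ = σ₀ * w * E * σ₀ := by rw [mul_assoc (σ₀ * w), hEσ]
      _ = σ₀ := by rw [hσE, hEσ]
  have h2 : star σ₀ * w * star σ₀ = star σ₀ := by
    have h3 := congrArg star h1
    rw [star_mul, star_mul, hws, ← mul_assoc] at h3
    exact h3
  have h3 : star σ₀ * w * σ₀ = 0 := by
    calc star σ₀ * w * σ₀ = star σ₀ * w * E * σ₀ := by rw [mul_assoc (star σ₀ * w), hEσ]
      _ = 0 := by rw [hss, zero_mul]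
  set τ : C := σ₀ * w * star σ₀ with hτ
  have hτs : star τ = τ := by
    rw [hτ, star_mul, star_mul, star_star, hws, mul_assoc]
  have hτG : τ ∈ G (-(n - d)) := by
    have h4 := hG.mul (hG.mul hσG hw) hstarσ
    rwa [neg_add_cancel, zero_add] at h4
  have hτf : Fil P P (-(n - d)) τ := by
    have h4 := Fil.mul hP hσf hwf (hG.left hw)
    have h5 := Fil.mul hP h4 hstarf (hG.left hstarσ)
    rwa [neg_add_cancel, zero_add] at h5
  have hτE : τ * w * E = 0 := by
    have h4 : τ * w * E = σ₀ * w * (star σ₀ * w * E) := by rw [hτ]; simp only [mul_assoc]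
    rw [h4, hss, mul_zero]
  have hτσ : τ * w * star σ₀ = τ := by
    have h4 : τ * w * star σ₀ = σ₀ * w * (star σ₀ * w * star σ₀) := by
      rw [hτ]; simp only [mul_assoc]
    rw [h4, h2]
  have hστ : σ₀ * w * τ = τ := by
    have h4 : σ₀ * w * τ = σ₀ * w * σ₀ * w * star σ₀ := by rw [hτ]; simp only [mul_assoc]
    rw [h4, h1]
  have hττ : τ * w * τ = 0 := by
    have h4 : τ * w * τ = σ₀ * w * (star σ₀ * w * σ₀) * w * star σ₀ := by
      rw [hτ]; simp only [mul_assoc]
    rw [h4, h3, mul_zero, zero_mul, zero_mul]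
  refine ⟨σ₀ - (1 / 2 : ℚ) • τ, Submodule.sub_mem _ hσG (Submodule.smul_mem _ _ hτG), ?_, ?_,
    hσf.sub (hτf.smul _), ?_⟩
  · rw [mul_sub, hEσ, mul_smul_comm]
    have h4 : E * τ = τ := by rw [hτ, ← mul_assoc, ← mul_assoc, hEσ]
    rw [h4]
  · rw [sub_mul, sub_mul, hσE, smul_mul_assoc, smul_mul_assoc, hτE, smul_zero, sub_zero]
  · have h4 : star ((1 / 2 : ℚ) • τ) = (1 / 2 : ℚ) • τ := by
      rw [star_rat_smul, hτs]
    rw [star_sub, h4]
    simp only [sub_mul, mul_sub, smul_mul_assoc, mul_smul_comm, hτσ, hστ, hττ, smul_zero, ← hτ]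
    module

end

end SDCK
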