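import Pool.Agent.LibLF72.Sig

/-!
# Symmetric completion of a lower half
-/

set_option autoImplicit false

namespace SDCK

universe u v

section

variable {C : Type u} [Ring C] [StarRing C]

/-- lower half `r k`, `k < d`, upper half `star (r (2 d - k))`, and the rest in degree `d` -/
noncomputable def symP (Δ : C) (d : ℕ) (r : ℤ → C) (k : ℤ) : C :=
  if 0 ≤ k ∧ k < d then r k
  else if (d : ℤ) < k ∧ k ≤ 2 * d then star (r (2 * d - k))
  else if k = d then Δ - ∑ l ∈ Finset.Ico (0 : ℤ) d, (r l + star (r l)) else 0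

variable {Δ : C} {d : ℕ} {r : ℤ → C}

theorem symP_low {k : ℤ} (h : 0 ≤ k) (h' : k < d) : symP Δ d r k = r k := by
  rw [symP, if_pos ⟨h, h'⟩]

theorem symP_high {k : ℤ} (h : (d : ℤ) < k) (h' : k ≤ 2 * d) :
    symP Δ d r k = star (r (2 * d - k)) := by
  rw [symP, if_neg (by omega), if_pos ⟨h, h'⟩]

theorem symP_mid : symP Δ d r d = Δ - ∑ l ∈ Finset.Ico (0 : ℤ) d, (r l + star (r l)) := by
  rw [symP, if_neg (by omega), if_neg (by omega), if_pos rfl]

theorem symP_out {k : ℤ} (h : k < 0 ∨ 2 * (d : ℤ) < k) : symP Δ d r k = 0 := by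
  rw [symP, if_neg (by omega), if_neg (by omega), if_neg (by omega)]

theorem symP_star (hΔ : star Δ = Δ) (k : ℤ) :
    star (symP Δ d r k) = symP Δ d r (2 * d - k) := by
  by_cases h1 : 0 ≤ k ∧ k < d
  · rw [symP_low h1.1 h1.2]
    rcases h1.1.lt_or_eq with h2 | h2
    · rw [symP_high (by omega) (by omega), sub_sub_cancel]
    · subst h2
      rw [symP_high (by omega) (by omega), sub_sub_cancel]
  · by_cases h2 : (d : ℤ) < k ∧ k ≤ 2 * d
    · rw [symP_high h2.1 h2.2, symP_low (by omega) (by omega), star_star]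
    · by_cases h3 : k = d
      · subst h3
        rw [show 2 * (d : ℤ) - d = d by ring, symP_mid, star_sub, hΔ, star_sum]
        congr 1
        refine Finset.sum_congr rfl fun l _ => ?_
        rw [star_add, star_star, add_comm]
      · rw [symP_out (by omega), symP_out (by omega), star_zero]

theorem symP_gr (hΔ : star Δ = Δ) (hΔΔ : Δ * Δ = Δ)
    (hl : ∀ k : ℤ, 0 ≤ k → k < d → Δ * r k = r k) (hr : ∀ k : ℤ, 0 ≤ k → k < d → r k * Δ = r k)
    (h1 : ∀ k l : ℤ, 0 ≤ k → k < d → 0 ≤ l → l < d → r k * r l = if k = l then r k else 0)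
    (h2 : ∀ k l : ℤ, 0 ≤ k → k < d → 0 ≤ l → l < d → star (r k) * r l = 0)
    (h3 : ∀ k l : ℤ, 0 ≤ k → k < d → 0 ≤ l → l < d → r k * star (r l) = 0) :
    IsGr Δ d (symP Δ d r) := by
  have hlt : ∀ {k : ℤ}, k ∈ Finset.Ico (0 : ℤ) d → 0 ≤ k ∧ k < d := fun h => by
    rwa [Finset.mem_Ico] at h
  have h4 : ∀ k l : ℤ, 0 ≤ k → k < d → 0 ≤ l → l < d → star (r k) * star (r l) =
      if k = l then star (r k) else 0 := by
    intro k l hk hkd hl' hld
    rw [← star_mul, h1 l k hl' hld hk hkd]
    by_cases h : k = l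
    · subst h
      rw [if_pos rfl, if_pos rfl]
    · rw [if_neg (Ne.symm h), if_neg h, star_zero]
  -- the middle term
  set m : C := Δ - ∑ l ∈ Finset.Ico (0 : ℤ) d, (r l + star (r l)) with hm
  have e1 : ∀ k : ℤ, 0 ≤ k → k < d → r k * m = 0 := by
    intro k hk hkd
    rw [hm, mul_sub, hr k hk hkd, Finset.mul_sum, Finset.sum_eq_single k, mul_add,
      h1 k k hk hkd hk hkd, if_pos rfl, h3 k k hk hkd hk hkd, add_zero, sub_self]
    · intro l hl' hlk
      rw [mul_add, h1 k l hk hkd (hlt hl').1 (hlt hl').2, if_neg hlk.symm,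
        h3 k l hk hkd (hlt hl').1 (hlt hl').2, add_zero]
    · intro h
      exact absurd (Finset.mem_Ico.2 ⟨hk, hkd⟩) h
  have e2 : ∀ k : ℤ, 0 ≤ k → k < d → star (r k) * m = 0 := by
    intro k hk hkd
    have hr' : star (r k) * Δ = star (r k) := by
      conv_lhs => rw [← hΔ]
      rw [← star_mul, hl k hk hkd]
    rw [hm, mul_sub, hr', Finset.mul_sum, Finset.sum_eq_single k, mul_add,
      h2 k k hk hkd hk hkd, h4 k k hk hkd hk hkd, if_pos rfl, zero_add, sub_self]
    · intro l hl' hlk
      rw [mul_add, h2 k l hk hkd (hlt hl').1 (hlt hl').2, h4 k l hk hkd (hlt hl').1 (hlt hl').2,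
        if_neg hlk.symm, add_zero]
    · intro h
      exact absurd (Finset.mem_Ico.2 ⟨hk, hkd⟩) h
  have hms : star m = m := by
    rw [hm, star_sub, hΔ, star_sum]
    congr 1
    refine Finset.sum_congr rfl fun l _ => ?_
    rw [star_add, star_star, add_comm]
  have e3 : ∀ k : ℤ, 0 ≤ k → k < d → m * star (r k) = 0 := by
    intro k hk hkd
    rw [← hms, ← star_mul, e1 k hk hkd, star_zero]
  have e4 : ∀ k : ℤ, 0 ≤ k → k < d → m * r k = 0 := by
    intro k hk hkd
    have h5 := congrArg star (e2 k hk hkd)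
    rwa [star_mul, star_star, hms, star_zero] at h5
  have hΔm : Δ * m = m := by
    rw [hm, mul_sub, hΔΔ, Finset.mul_sum]
    congr 1
    refine Finset.sum_congr rfl fun l hl' => ?_
    have h5 : Δ * star (r l) = star (r l) := by
      conv_lhs => rw [← hΔ]
      rw [← star_mul, hr l (hlt hl').1 (hlt hl').2]
    rw [mul_add, hl l (hlt hl').1 (hlt hl').2, h5]
  have e5 : m * m = m := by
    conv_lhs => rw [hm]
    rw [sub_mul, hΔm, Finset.sum_mul, Finset.sum_eq_zero, sub_zero]
    intro l hl'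
    rw [add_mul, e1 l (hlt hl').1 (hlt hl').2, e2 l (hlt hl').1 (hlt hl').2, add_zero]
  have hmm : symP Δ d r d = m := symP_mid
  refine ⟨fun k l => ?_, fun k hk => symP_out hk, ?_⟩
  · -- orthogonality
    by_cases hk1 : 0 ≤ k ∧ k < d
    · rw [symP_low hk1.1 hk1.2]
      by_cases hl1 : 0 ≤ l ∧ l < d
      · rw [symP_low hl1.1 hl1.2, h1 k l hk1.1 hk1.2 hl1.1 hl1.2]
      · rw [if_neg (by omega)]
        by_cases hl2 : (d : ℤ) < l ∧ l ≤ 2 * d
        · rw [symP_high hl2.1 hl2.2, h3 k _ hk1.1 hk1.2 (by omega) (by omega)]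
        · by_cases hl3 : l = d
          · rw [hl3, hmm, e1 k hk1.1 hk1.2]
          · rw [symP_out (by omega), mul_zero]
    · by_cases hk2 : (d : ℤ) < k ∧ k ≤ 2 * d
      · rw [symP_high hk2.1 hk2.2]
        by_cases hl1 : 0 ≤ l ∧ l < d
        · rw [symP_low hl1.1 hl1.2, h2 _ l (by omega) (by omega) hl1.1 hl1.2, if_neg (by omega)]
        · by_cases hl2 : (d : ℤ) < l ∧ l ≤ 2 * d
          · rw [symP_high hl2.1 hl2.2, h4 _ _ (by omega) (by omega) (by omega) (by omega)]
            by_cases h : k = l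
            · subst h
              rw [if_pos rfl, if_pos rfl]
            · rw [if_neg (by omega), if_neg h]
          · by_cases hl3 : l = d
            · rw [hl3, hmm, e2 _ (by omega) (by omega), if_neg (by omega)]
            · rw [symP_out (by omega), mul_zero, if_neg (by omega)]
      · by_cases hk3 : k = d
        · rw [hk3, hmm]
          by_cases hl1 : 0 ≤ l ∧ l < d
          · rw [symP_low hl1.1 hl1.2, e4 l hl1.1 hl1.2, if_neg (by omega)]
          · by_cases hl2 : (d : ℤ) < l ∧ l ≤ 2 * d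
            · rw [symP_high hl2.1 hl2.2, e3 _ (by omega) (by omega), if_neg (by omega)]
            · by_cases hl3 : l = d
              · rw [hl3, hmm, e5, if_pos rfl]
              · rw [symP_out (by omega), mul_zero, if_neg (by omega)]
        · rw [symP_out (by omega), zero_mul, ite_self]
  · -- sum
    have hsplit : Finset.Icc (0 : ℤ) (2 * d) =
        Finset.Ico (0 : ℤ) d ∪ ({(d : ℤ)} ∪ Finset.Ioc (d : ℤ) (2 * d)) := by
      ext k
      simp only [Finset.mem_Icc, Finset.mem_union, Finset.mem_Ico, Finset.mem_singleton,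
        Finset.mem_Ioc]
      omega
    rw [hsplit, Finset.sum_union, Finset.sum_union, Finset.sum_singleton, hmm]
    · have s1 : ∑ k ∈ Finset.Ico (0 : ℤ) d, symP Δ d r k = ∑ k ∈ Finset.Ico (0 : ℤ) d, r k :=
        Finset.sum_congr rfl fun k hk => symP_low (hlt hk).1 (hlt hk).2
      have s2 : ∑ k ∈ Finset.Ioc (d : ℤ) (2 * d), symP Δ d r k =
          ∑ k ∈ Finset.Ico (0 : ℤ) d, star (r k) := by
        refine Finset.sum_nbij' (fun k => 2 * (d : ℤ) - k) (fun k => 2 * (d : ℤ) - k) ?_ ?_ ?_ ?_ ?_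
        · intro k hk
          rw [Finset.mem_Ioc] at hk
          rw [Finset.mem_Ico]
          omega
        · intro k hk
          rw [Finset.mem_Ico] at hk
          rw [Finset.mem_Ioc]
          omega
        · intro k _
          omega
        · intro k _
          omega
        · intro k hk
          rw [Finset.mem_Ioc] at hk
          exact symP_high hk.1 hk.2
      rw [s1, s2, hm, Finset.sum_add_distrib]
      abel
    · rw [Finset.disjoint_left]
      intro k hk hk'
      rw [Finset.mem_singleton] at hk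
      rw [Finset.mem_Ioc] at hk'
      omega
    · rw [Finset.disjoint_left]
      intro k hk hk'
      rw [Finset.mem_Ico] at hk
      rw [Finset.mem_union, Finset.mem_singleton, Finset.mem_Ioc] at hk'
      omega

end

end SDCK
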